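import Pool.Agent.MP_ca0a54_nt.P.Spec
import Pool.Agent.MP_ca0a54_nt.H47.PrA

/-! Sums over primes: the first theorem of Mertens and Riemann sums. -/

open Filter Topology Finset ArithmeticFunction

namespace Pool.Agent.MP_ca0a54_nt.P

namespace MER

theorem nn {F G : ℝ → ℝ} (hF : ∀ x, HasDerivAt F (G x) x) (h0 : F 0 = 0)
    (hG : ∀ x, 0 ≤ x → 0 ≤ G x) {x : ℝ} (hx : 0 ≤ x) : 0 ≤ F x := by
  have h : MonotoneOn F (Set.Ici 0) :=
    monotoneOn_of_deriv_nonneg (convex_Ici 0) (fun y _ => (hF y).continuousAt.continuousWithinAt)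
      (fun y _ => (hF y).differentiableAt.differentiableWithinAt)
      (fun y hy => by rw [(hF y).deriv]; exact hG y (interior_subset hy))
  simpa [h0] using h Set.self_mem_Ici hx hx

theorem cos_le {x : ℝ} (hx : 0 ≤ x) :
    Real.cos x ≤ 1 - x ^ 2 / 2 + x ^ 4 / 24 - x ^ 6 / 720 + x ^ 8 / 40320 := by
  have d := fun (n : ℕ) (c y : ℝ) => (hasDerivAt_pow n y).div_const c
  have h3 : ∀ y : ℝ, 0 ≤ y → 0 ≤ Real.sin y - y + y ^ 3 / 6 := fun y hy =>
    nn (F := fun y => Real.sin y - y + y ^ 3 / 6) (G := fun y => Real.cos y - 1 + y ^ 2 / 2)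
      (fun y => (((Real.hasDerivAt_sin y).sub (hasDerivAt_id y)).add (d 3 6 y)).congr_deriv
        (by norm_num; ring)) (by simp)
      (fun y _ => by linarith [Real.one_sub_sq_div_two_le_cos (x := y)]) hy
  have h4 : ∀ y : ℝ, 0 ≤ y → 0 ≤ 1 - Real.cos y - y ^ 2 / 2 + y ^ 4 / 24 := fun y hy =>
    nn (F := fun y => 1 - Real.cos y - y ^ 2 / 2 + y ^ 4 / 24)
      (fun y => ((((Real.hasDerivAt_cos y).const_sub 1).sub (d 2 2 y)).add (d 4 24 y)).congr_deriv
        (by norm_num; ring)) (by simp) h3 hy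
  have h5 : ∀ y : ℝ, 0 ≤ y → 0 ≤ y - Real.sin y - y ^ 3 / 6 + y ^ 5 / 120 := fun y hy =>
    nn (F := fun y => y - Real.sin y - y ^ 3 / 6 + y ^ 5 / 120)
      (fun y => ((((hasDerivAt_id y).sub (Real.hasDerivAt_sin y)).sub (d 3 6 y)).add
        (d 5 120 y)).congr_deriv (by norm_num; ring)) (by simp) h4 hy
  have h6 : ∀ y : ℝ, 0 ≤ y → 0 ≤ Real.cos y - 1 + y ^ 2 / 2 - y ^ 4 / 24 + y ^ 6 / 720 :=
    fun y hy => nn (F := fun y => Real.cos y - 1 + y ^ 2 / 2 - y ^ 4 / 24 + y ^ 6 / 720)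
      (fun y => (((((Real.hasDerivAt_cos y).sub_const 1).add (d 2 2 y)).sub (d 4 24 y)).add
        (d 6 720 y)).congr_deriv (by norm_num; ring)) (by simp) h5 hy
  have h7 : ∀ y : ℝ, 0 ≤ y → 0 ≤ Real.sin y - y + y ^ 3 / 6 - y ^ 5 / 120 + y ^ 7 / 5040 :=
    fun y hy => nn (F := fun y => Real.sin y - y + y ^ 3 / 6 - y ^ 5 / 120 + y ^ 7 / 5040)
      (fun y => (((((Real.hasDerivAt_sin y).sub (hasDerivAt_id y)).add (d 3 6 y)).sub
        (d 5 120 y)).add (d 7 5040 y)).congr_deriv (by norm_num; ring)) (by simp) h6 hy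
  have h8 := nn (F := fun y => 1 - Real.cos y - y ^ 2 / 2 + y ^ 4 / 24 - y ^ 6 / 720 + y ^ 8 / 40320)
      (fun y => ((((((Real.hasDerivAt_cos y).const_sub 1).sub (d 2 2 y)).add (d 4 24 y)).sub
        (d 6 720 y)).add (d 8 40320 y)).congr_deriv (by norm_num; ring)) (by simp) h7 hx
  linarith

theorem upp {N : ℕ} (hN : 1 ≤ N) :
    ∑ d ∈ Icc 1 N, vonMangoldt d / d ≤ Real.log N + (Real.log 4 + 4) := by
  have hN0 : (0 : ℝ) < N := by exact_mod_cast hN
  have h1 := sum_Ioc_mul_zeta_eq_sum vonMangoldt N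
  rw [vonMangoldt_mul_zeta] at h1
  have h2 : ∑ n ∈ Ioc 0 N, ArithmeticFunction.log n ≤ N * Real.log N := by
    calc ∑ n ∈ Ioc 0 N, ArithmeticFunction.log n ≤ ∑ _n ∈ Ioc 0 N, Real.log N :=
          sum_le_sum fun n hn => by
            rw [log_apply]
            exact Real.log_le_log (by exact_mod_cast (mem_Ioc.1 hn).1)
              (by exact_mod_cast (mem_Ioc.1 hn).2)
      _ = _ := by simp
  have h3 := Chebyshev.psi_le_const_mul_self hN0.le
  rw [Chebyshev.psi, Nat.floor_natCast] at h3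
  have h4 : N * ∑ d ∈ Icc 1 N, vonMangoldt d / d ≤
      ∑ n ∈ Ioc 0 N, vonMangoldt n * ((N / n : ℕ) : ℝ) + ∑ n ∈ Ioc 0 N, vonMangoldt n := by
    rw [mul_sum, ← sum_add_distrib, show Icc 1 N = Ioc 0 N from rfl]
    refine sum_le_sum fun d hd => ?_
    have h5 : (N : ℝ) / d ≤ ((N / d : ℕ) : ℝ) + 1 := by
      rw [← Nat.floor_div_eq_div (K := ℝ)]
      exact (Nat.lt_floor_add_one _).le
    calc N * (vonMangoldt d / d) = vonMangoldt d * ((N : ℝ) / d) := by ring
      _ ≤ vonMangoldt d * (((N / d : ℕ) : ℝ) + 1) :=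
          mul_le_mul_of_nonneg_left h5 vonMangoldt_nonneg
      _ = _ := by ring
  refine le_of_mul_le_mul_left ?_ hN0
  linarith

/-- the sum of Mertens -/
noncomputable def M (y : ℝ) : ℝ := ∑ p ∈ (Icc 1 ⌊y⌋₊).filter Nat.Prime, Real.log p / p

theorem mertens : ∃ C : ℝ, 0 ≤ C ∧ ∀ v : ℝ, 0 ≤ v → |M (Real.exp v) - v| ≤ C := by
  obtain ⟨C₀, hC0, hC⟩ := H47.pp
  have h4 : 0 ≤ Real.log 4 := Real.log_nonneg (by norm_num)
  refine ⟨C₀ + Real.log 4 + 4, by positivity, fun v hv => ?_⟩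
  have hy : 1 ≤ Real.exp v := Real.one_le_exp hv
  set N := ⌊Real.exp v⌋₊ with hN
  have hN1 : 1 ≤ N := Nat.le_floor (by simpa using hy)
  have hN0 : (1 : ℝ) ≤ N := by exact_mod_cast hN1
  have h1 : Real.log N ≤ v := by
    rw [Real.log_le_iff_le_exp (by linarith)]
    exact Nat.floor_le (by linarith)
  have h2 : v ≤ Real.log N + 1 := by
    have h3 : Real.exp v ≤ N * Real.exp 1 := by
      have := Nat.lt_floor_add_one (Real.exp v)
      have := Real.add_one_le_exp 1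
      nlinarith
    have := Real.log_le_log (Real.exp_pos v) h3
    rwa [Real.log_exp, Real.log_mul (by linarith) (Real.exp_pos 1).ne', Real.log_exp] at this
  have h5 : M (Real.exp v) = ∑ d ∈ (Icc 1 N).filter Nat.Prime, vonMangoldt d / d :=
    sum_congr rfl fun p hp => by rw [vonMangoldt_apply_prime (mem_filter.1 hp).2]
  have h6 := sum_filter_add_sum_filter_not (Icc 1 N) Nat.Prime (fun d => vonMangoldt d / (d : ℝ))
  have h7 := hC N
  have h8 : 0 ≤ ∑ d ∈ (Icc 1 N).filter (fun d => ¬ d.Prime), vonMangoldt d / (d : ℝ) :=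
    sum_nonneg fun d _ => div_nonneg vonMangoldt_nonneg (by positivity)
  have h9 := H47.low hN1
  have h10 := upp hN1
  rw [h5, abs_le]
  constructor <;> linarith

theorem mem_prs {a u v : ℝ} (ha : 0 < a) {p : ℕ} :
    p ∈ prs a u v ↔ p.Prime ∧ u < a * Real.log p ∧ a * Real.log p ≤ v := by
  rw [prs, mem_filter, mem_Icc, Nat.le_floor_iff (Real.exp_pos _).le]
  constructor
  · rintro ⟨⟨_, h1⟩, h2, h3⟩
    refine ⟨h2, h3, ?_⟩
    rw [← Real.log_le_iff_le_exp (by exact_mod_cast h2.pos), le_div_iff₀ ha] at h1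
    linarith
  · rintro ⟨h2, h3, h1⟩
    refine ⟨⟨h2.pos, ?_⟩, h2, h3⟩
    rw [← Real.log_le_iff_le_exp (by exact_mod_cast h2.pos), le_div_iff₀ ha]
    linarith

theorem prs_add {a u v w : ℝ} (ha : 0 < a) (h1 : u ≤ v) (h2 : v ≤ w) (g : ℕ → ℝ) :
    ∑ p ∈ prs a u w, g p = ∑ p ∈ prs a u v, g p + ∑ p ∈ prs a v w, g p := by
  rw [← sum_union]
  · congr 1
    ext p
    simp only [mem_union, mem_prs ha]
    constructor
    · rintro ⟨h, h3, h4⟩
      rcases le_or_gt (a * Real.log p) v with h5 | h5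
      · exact Or.inl ⟨h, h3, h5⟩
      · exact Or.inr ⟨h, h5, h4⟩
    · rintro (⟨h, h3, h4⟩ | ⟨h, h3, h4⟩)
      · exact ⟨h, h3, by linarith⟩
      · exact ⟨h, by linarith, h4⟩
  · rw [disjoint_left]
    intro p hp hq
    rw [mem_prs ha] at hp hq
    linarith [hp.2.2, hq.2.1]

theorem prs_zero {a v : ℝ} (ha : 0 < a) :
    ∑ p ∈ prs a 0 v, Real.log p / p = M (Real.exp (v / a)) := by
  refine sum_congr (filter_congr fun p _ => ⟨fun h => h.1, fun h => ⟨h, ?_⟩⟩) fun _ _ => rfl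
  exact mul_pos ha (Real.log_pos (by exact_mod_cast h.one_lt))

theorem mass : ∃ C : ℝ, 0 ≤ C ∧ ∀ a u v : ℝ, 0 < a → 0 ≤ u → u ≤ v →
    |∑ p ∈ prs a u v, a * Real.log p / p - (v - u)| ≤ C * a := by
  obtain ⟨C, hC0, hC⟩ := mertens
  refine ⟨2 * C, by positivity, fun a u v ha hu huv => ?_⟩
  have h1 := prs_add ha hu huv fun p => Real.log p / p
  rw [prs_zero ha, prs_zero ha] at h1
  have h2 := hC (u / a) (by positivity)
  have h3 := hC (v / a) (div_nonneg (hu.trans huv) ha.le)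
  have h4 : ∑ p ∈ prs a u v, a * Real.log p / p - (v - u) =
      a * ((M (Real.exp (v / a)) - v / a) - (M (Real.exp (u / a)) - u / a)) := by
    simp only [mul_div_assoc]
    rw [← mul_sum, h1]
    field_simp
    ring
  rw [h4, abs_mul, abs_of_pos ha, mul_comm]
  refine mul_le_mul_of_nonneg_right ((abs_sub _ _).trans (by linarith)) ha.le

/-- the derivative of `Qp` -/
noncomputable def f (x : ℝ) : ℝ := x - x ^ 3 / 12 + x ^ 5 / 360 - x ^ 7 / 20160

theorem Qp_der (x : ℝ) : HasDerivAt (Qp : ℝ → ℝ) (f x) x := by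
  have d := fun (n : ℕ) (c : ℝ) => (hasDerivAt_pow n x).div_const c
  exact ((((d 2 2).sub (d 4 48)).add (d 6 2160)).sub (d 8 161280)).congr_deriv
    (by norm_num [f]; ring)

theorem low (x₀ x₁ σ : ℝ) (h0 : 0 ≤ x₀) (h01 : x₀ < x₁) (hσ : σ < Qp x₁ - Qp x₀) :
    ∀ᶠ a : ℝ in 𝓝[>] 0, σ ≤ ∑ p ∈ prs a x₀ x₁, 2 * (1 - Real.cos (a * Real.log p)) / p := by
  obtain ⟨C, hC0, hC⟩ := mass
  have hf : ContinuousOn f (Set.Icc x₀ x₁) := by
    unfold f
    fun_prop
  obtain ⟨B, hB⟩ := isCompact_Icc.exists_bound_of_continuousOn hf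
  set η := (Qp x₁ - Qp x₀ - σ) / 2 / (x₁ - x₀) with hη
  have hη0 : 0 < η := div_pos (by linarith) (by linarith)
  have hη1 : η * (x₁ - x₀) = (Qp x₁ - Qp x₀ - σ) / 2 := div_mul_cancel₀ _ (by linarith)
  obtain ⟨δ, hδ, hu⟩ := Metric.uniformContinuousOn_iff.1
    (isCompact_Icc.uniformContinuousOn_of_continuous hf) η hη0
  obtain ⟨n, hn⟩ := exists_nat_gt ((x₁ - x₀) / δ)
  have hn0 : (0 : ℝ) < n := lt_trans (div_pos (by linarith) hδ) hn
  set h := (x₁ - x₀) / n with hh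
  have hh0 : 0 < h := div_pos (by linarith) hn0
  have hhn : n * h = x₁ - x₀ := mul_div_cancel₀ _ hn0.ne'
  have hhδ : h < δ := by
    rw [div_lt_iff₀ hδ] at hn
    rw [hh, div_lt_iff₀ hn0]
    linarith
  have step : ∀ a u : ℝ, 0 < a → x₀ ≤ u → u + h ≤ x₁ →
      Qp (u + h) - Qp u - η * h - (B + η) * (C * a) ≤
        ∑ p ∈ prs a u (u + h), 2 * (1 - Real.cos (a * Real.log p)) / p := by
    intro a u ha hu0 hu1
    obtain ⟨ξ, hξ, e⟩ := exists_hasDerivAt_eq_slope (Qp : ℝ → ℝ) f (by linarith : u < u + h)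
      (fun y _ => (Qp_der y).continuousAt.continuousWithinAt) (fun y _ => Qp_der y)
    rw [add_sub_cancel_left, eq_div_iff hh0.ne'] at e
    have hξ' : ξ ∈ Set.Icc x₀ x₁ := ⟨by linarith [hξ.1], by linarith [hξ.2]⟩
    have h1 : ∑ p ∈ prs a u (u + h), (f ξ - η) * (a * Real.log p / p) ≤
        ∑ p ∈ prs a u (u + h), 2 * (1 - Real.cos (a * Real.log p)) / p := by
      refine sum_le_sum fun p hp => ?_
      rw [mem_prs ha] at hp
      obtain ⟨-, hp1, hp2⟩ := hp
      set x := a * Real.log p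
      have hx0 : 0 ≤ x := by linarith
      have h2 := hu x ⟨by linarith, by linarith⟩ ξ hξ' (by
        rw [Real.dist_eq, abs_lt]
        constructor <;> linarith [hξ.1, hξ.2])
      rw [Real.dist_eq, abs_lt] at h2
      rw [← mul_div_assoc]
      refine div_le_div_of_nonneg_right ?_ (by positivity)
      have h3 := cos_le hx0
      calc (f ξ - η) * x ≤ f x * x := mul_le_mul_of_nonneg_right (by linarith [h2.1]) hx0
        _ ≤ _ := by unfold f; linarith
    rw [← mul_sum] at h1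
    have h4 := hC a u (u + h) ha (by linarith) (by linarith)
    rw [add_sub_cancel_left] at h4
    have h5 : |f ξ - η| ≤ B + η := by
      have := hB ξ hξ'
      rw [Real.norm_eq_abs] at this
      exact (abs_sub _ _).trans (by rw [abs_of_pos hη0]; linarith)
    have h6 := mul_le_mul h5 h4 (abs_nonneg _) ((abs_nonneg _).trans h5)
    rw [← abs_mul, abs_le] at h6
    nlinarith [h6.1]
  have ind : ∀ a : ℝ, 0 < a → ∀ k : ℕ, k ≤ n →
      Qp (x₀ + k * h) - Qp x₀ - k * (η * h + (B + η) * (C * a)) ≤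
        ∑ p ∈ prs a x₀ (x₀ + k * h), 2 * (1 - Real.cos (a * Real.log p)) / p := by
    intro a ha k
    induction k with
    | zero =>
      intro _
      simp only [Nat.cast_zero, zero_mul, add_zero, sub_self]
      exact sum_nonneg fun p _ =>
        div_nonneg (by linarith [Real.cos_le_one (a * Real.log p)]) (by positivity)
    | succ k ih =>
      intro hk
      have hk' : ((k : ℝ) + 1) * h ≤ n * h :=
        mul_le_mul_of_nonneg_right (by exact_mod_cast hk) hh0.le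
      have hkh : 0 ≤ (k : ℝ) * h := by positivity
      have h1 := ih (by omega)
      have h2 := step a (x₀ + k * h) ha (by linarith) (by linarith)
      have e : x₀ + ((k + 1 : ℕ) : ℝ) * h = x₀ + k * h + h := by push_cast; ring
      rw [e, prs_add ha (by linarith : x₀ ≤ x₀ + k * h) (by linarith)]
      push_cast
      linarith
  have hlim : Tendsto (fun a : ℝ => n * ((B + η) * (C * a))) (𝓝[>] 0) (𝓝 0) := by
    have : Tendsto (fun a : ℝ => n * ((B + η) * (C * a))) (𝓝 0) (𝓝 (n * ((B + η) * (C * 0)))) :=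
      Continuous.tendsto (by fun_prop) 0
    simpa using this.mono_left nhdsWithin_le_nhds
  filter_upwards [hlim.eventually_lt_const (show 0 < (Qp x₁ - Qp x₀ - σ) / 2 by linarith),
    self_mem_nhdsWithin] with a h1 ha
  have h2 := ind a ha n le_rfl
  rw [hhn, add_sub_cancel] at h2
  have h3 : n * (η * h) = (Qp x₁ - Qp x₀ - σ) / 2 := by rw [← hη1, ← hhn]; ring
  linarith

theorem up (x₁ : ℝ) (h1 : 0 < x₁) : ∃ C : ℝ, ∀ᶠ a : ℝ in 𝓝[>] 0,
    ∑ p ∈ prs a 0 x₁, 2 * (1 - Real.cos (a * Real.log p)) / p ≤ C := by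
  obtain ⟨C, hC0, hC⟩ := mass
  refine ⟨x₁ * (x₁ + C), ?_⟩
  filter_upwards [Ioo_mem_nhdsGT (zero_lt_one' ℝ)] with a ha
  have h2 := (abs_le.1 (hC a 0 x₁ ha.1 le_rfl h1.le)).2
  have h3 : C * a ≤ C := mul_le_of_le_one_right hC0 ha.2.le
  calc ∑ p ∈ prs a 0 x₁, 2 * (1 - Real.cos (a * Real.log p)) / p
      ≤ ∑ p ∈ prs a 0 x₁, x₁ * (a * Real.log p / p) := by
        refine sum_le_sum fun p hp => ?_
        rw [mem_prs ha.1] at hp
        rw [← mul_div_assoc]
        refine div_le_div_of_nonneg_right ?_ (by positivity)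
        have := Real.one_sub_sq_div_two_le_cos (x := a * Real.log p)
        nlinarith [hp.2.1, hp.2.2]
    _ ≤ _ := by
        rw [← mul_sum]
        exact mul_le_mul_of_nonneg_left (by linarith) h1.le

end MER

theorem mer : MerStmt := ⟨MER.low, MER.up⟩

end Pool.Agent.MP_ca0a54_nt.P
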