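import Pool.Agent.MP_ca0a54_nt.P.Spec

/-!
Row ES: bounds for elementary symmetric functions.
-/

namespace Pool.Agent.MP_ca0a54_nt.P

namespace ES

section ring

variable {R : Type} [CommRing R]

theorem es_zero (S : Finset ℕ) (x : ℕ → R) : es S x 0 = 1 := by
  simp [es]

theorem es_insert {S : Finset ℕ} {a : ℕ} (ha : a ∉ S) (x : ℕ → R) (c : ℕ) :
    es (insert a S) x (c + 1) = es S x (c + 1) + x a * es S x c := by
  unfold es
  rw [Finset.powersetCard_succ_insert ha, Finset.sum_union, Finset.sum_image, Finset.mul_sum]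
  · congr 1
    refine Finset.sum_congr rfl fun A hA => ?_
    have : a ∉ A := fun h => ha ((Finset.mem_powersetCard.1 hA).1 h)
    rw [Finset.prod_insert this]
  · intro A hA B hB h
    have h1 : a ∉ A := fun h => ha ((Finset.mem_powersetCard.1 hA).1 h)
    have h2 : a ∉ B := fun h => ha ((Finset.mem_powersetCard.1 hB).1 h)
    rw [← Finset.erase_insert h1, ← Finset.erase_insert h2]
    exact congrArg (fun s => Finset.erase s a) h
  · rw [Finset.disjoint_left]
    intro A hA hB
    obtain ⟨B, -, rfl⟩ := Finset.mem_image.1 hB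
    exact ha ((Finset.mem_powersetCard.1 hA).1 (Finset.mem_insert_self _ _))

theorem es_erase {S : Finset ℕ} {p : ℕ} (hp : p ∈ S) (x : ℕ → R) (c : ℕ) :
    es S x (c + 1) = es (S.erase p) x (c + 1) + x p * es (S.erase p) x c := by
  rw [← es_insert (Finset.notMem_erase p S), Finset.insert_erase hp]

theorem es_succ (x : ℕ → R) (S : Finset ℕ) : ∀ c : ℕ,
    ((c : R) + 1) * es S x (c + 1) = ∑ p ∈ S, x p * es (S.erase p) x c := by
  induction S using Finset.induction_on with
  | empty =>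
    intro c
    have : (∅ : Finset ℕ).powersetCard (c + 1) = ∅ :=
      Finset.powersetCard_eq_empty.2 (by simp)
    simp [es, this]
  | insert a S ha ih =>
    intro c
    rw [Finset.sum_insert ha, Finset.erase_insert ha, es_insert ha]
    have key : ∀ p ∈ S, (insert a S).erase p = insert a (S.erase p) := by
      intro p hp
      exact Finset.erase_insert_of_ne (fun h => ha (h ▸ hp))
    cases c with
    | zero =>
      have h0 := ih 0
      simp only [es_zero] at h0 ⊢
      rw [← h0]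
      push_cast
      ring
    | succ c =>
      have h1 : ∑ p ∈ S, x p * es ((insert a S).erase p) x (c + 1) =
          ∑ p ∈ S, x p * es (S.erase p) x (c + 1) + x a * ∑ p ∈ S, x p * es (S.erase p) x c := by
        rw [Finset.mul_sum, ← Finset.sum_add_distrib]
        refine Finset.sum_congr rfl fun p hp => ?_
        rw [key p hp, es_insert (fun h => ha (Finset.mem_of_mem_erase h))]
        ring
      rw [h1, ← ih (c + 1), ← ih c]
      push_cast
      ring

theorem es_two (x : ℕ → R) (S : Finset ℕ) (c : ℕ) :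
    ((c : R) + 2) * es S x (c + 2) =
      (∑ p ∈ S, x p) * es S x (c + 1) - ∑ p ∈ S, x p * (x p * es (S.erase p) x c) := by
  have h := es_succ x S (c + 1)
  rw [Finset.sum_mul, ← Finset.sum_sub_distrib]
  have e : ((c : R) + 2) = ((c + 1 : ℕ) : R) + 1 := by push_cast; ring
  rw [e, h]
  refine Finset.sum_congr rfl fun p hp => ?_
  rw [es_erase hp x c]
  ring

theorem es_smul (S : Finset ℕ) (z : R) (x : ℕ → R) (c : ℕ) :
    es S (fun p => z * x p) c = z ^ c * es S x c := by
  unfold es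
  rw [Finset.mul_sum]
  refine Finset.sum_congr rfl fun A hA => ?_
  rw [Finset.prod_mul_distrib, Finset.prod_const, (Finset.mem_powersetCard.1 hA).2]

end ring

theorem es_cast (S : Finset ℕ) (w : ℕ → ℝ) (c : ℕ) :
    es S (fun p => (w p : ℂ)) c = ((es S w c : ℝ) : ℂ) := by
  unfold es
  push_cast
  rfl

/-- The bound for one exponent. -/
def Bnd (A : ℝ) (c : ℕ) : Prop := ∃ K : ℝ, 1 ≤ K ∧ ∀ (S : Finset ℕ) (x : ℕ → ℂ) (y : ℝ),
  ∑ p ∈ S, ‖x p‖ ^ 2 ≤ A → 1 ≤ y → ‖∑ p ∈ S, x p‖ ≤ y → ‖es S x c‖ ≤ K * y ^ c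

theorem bnd (A : ℝ) : ∀ c : ℕ, Bnd A c ∧ Bnd A (c + 1) := by
  intro c
  induction c with
  | zero =>
    refine ⟨⟨1, le_rfl, fun S x y _ _ _ => by simp [es_zero]⟩, ⟨1, le_rfl, fun S x y _ _ h => ?_⟩⟩
    have h0 := es_succ x S 0
    simp only [es_zero, mul_one, Nat.cast_zero, zero_add, one_mul] at h0
    rw [zero_add, h0]
    simpa using h
  | succ c ih =>
    obtain ⟨⟨K0, hK0, h0⟩, ⟨K1, hK1, h1⟩⟩ := ih
    refine ⟨⟨K1, hK1, h1⟩, ?_⟩
    set B : ℝ := max 1 A with hB
    have hB1 : 1 ≤ B := le_max_left _ _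
    have hAB : A ≤ B := le_max_right _ _
    have hpos : 0 ≤ B * (K0 * (1 + B) ^ c) := by positivity
    refine ⟨K1 + B * (K0 * (1 + B) ^ c), by linarith, fun S x y hA hy hs => ?_⟩
    have hy0 : 0 ≤ y := by linarith
    have hx : ∀ p ∈ S, ‖x p‖ ≤ B := by
      intro p hp
      have : ‖x p‖ ^ 2 ≤ ∑ p ∈ S, ‖x p‖ ^ 2 :=
        Finset.single_le_sum (f := fun p => ‖x p‖ ^ 2) (fun _ _ => by positivity) hp
      by_contra hlt
      push Not at hlt
      nlinarith
    have he : ∀ p ∈ S, ‖es (S.erase p) x c‖ ≤ K0 * (1 + B) ^ c * y ^ c := by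
      intro p hp
      have a1 : ∑ q ∈ S.erase p, ‖x q‖ ^ 2 ≤ A :=
        (Finset.sum_le_sum_of_subset_of_nonneg (Finset.erase_subset p S)
          (fun _ _ _ => by positivity)).trans hA
      have a2 : ‖∑ q ∈ S.erase p, x q‖ ≤ (1 + B) * y := by
        rw [Finset.sum_erase_eq_sub hp]
        have := norm_sub_le (∑ q ∈ S, x q) (x p)
        have := hx p hp
        nlinarith
      have := h0 (S.erase p) x ((1 + B) * y) a1 (by nlinarith) a2
      rwa [mul_pow, ← mul_assoc] at this
    have t1 : ‖(∑ p ∈ S, x p) * es S x (c + 1)‖ ≤ K1 * y ^ (c + 1 + 1) := by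
      rw [norm_mul]
      calc _ ≤ y * (K1 * y ^ (c + 1)) :=
            mul_le_mul hs (h1 S x y hA hy hs) (norm_nonneg _) hy0
        _ = _ := by ring
    have t2 : ‖∑ p ∈ S, x p * (x p * es (S.erase p) x c)‖ ≤
        B * (K0 * (1 + B) ^ c) * y ^ (c + 1 + 1) := by
      calc _ ≤ ∑ p ∈ S, ‖x p‖ ^ 2 * (K0 * (1 + B) ^ c * y ^ c) := by
            refine norm_sum_le_of_le _ fun p hp => ?_
            rw [norm_mul, norm_mul, ← mul_assoc, ← sq]
            exact mul_le_mul_of_nonneg_left (he p hp) (by positivity)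
        _ = (∑ p ∈ S, ‖x p‖ ^ 2) * (K0 * (1 + B) ^ c * y ^ c) := by rw [Finset.sum_mul]
        _ ≤ B * (K0 * (1 + B) ^ c * y ^ (c + 1 + 1)) := by
            refine mul_le_mul (hA.trans hAB) ?_ (by positivity) (by linarith)
            exact mul_le_mul_of_nonneg_left (pow_le_pow_right₀ hy (by omega)) (by positivity)
        _ = _ := by ring
    have t3 : ‖es S x (c + 1 + 1)‖ ≤ ‖((c : ℂ) + 2) * es S x (c + 2)‖ := by
      rw [norm_mul]
      have : (1 : ℝ) ≤ ‖(c : ℂ) + 2‖ := by
        have e : ((c : ℂ) + 2) = ((c + 2 : ℕ) : ℂ) := by push_cast; ring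
        rw [e, Complex.norm_natCast]
        exact_mod_cast (by omega : 1 ≤ c + 2)
      exact le_mul_of_one_le_left (norm_nonneg _) this
    rw [es_two] at t3
    have := norm_sub_le ((∑ p ∈ S, x p) * es S x (c + 1))
      (∑ p ∈ S, x p * (x p * es (S.erase p) x c))
    linarith

theorem es_nonneg {S : Finset ℕ} {w : ℕ → ℝ} (h : ∀ p ∈ S, 0 ≤ w p) (c : ℕ) : 0 ≤ es S w c :=
  Finset.sum_nonneg fun _ hA => Finset.prod_nonneg fun p hp =>
    h p ((Finset.mem_powersetCard.1 hA).1 hp)

theorem real_bd {S : Finset ℕ} {w : ℕ → ℝ} {μ : ℝ} (h : ∀ p ∈ S, 0 ≤ w p ∧ w p ≤ μ)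
    (hs : ∑ p ∈ S, w p = 1) (hμ : 0 ≤ μ) : ∀ c : ℕ,
    1 - (c : ℝ) ^ 2 * μ ≤ c.factorial * es S w c ∧ c.factorial * es S w c ≤ 1 := by
  have step : ∀ c : ℕ, (1 - c * μ) * es S w c ≤ ((c : ℝ) + 1) * es S w (c + 1) ∧
      ((c : ℝ) + 1) * es S w (c + 1) ≤ es S w c := by
    intro c
    cases c with
    | zero =>
      have h0 := es_succ w S 0
      simp only [es_zero, mul_one] at h0 ⊢
      rw [h0, hs]
      simp
    | succ c =>
      have h2 := es_two w S c
      have h1 := es_succ w S c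
      have hn : ∀ p ∈ S, 0 ≤ w p * es (S.erase p) w c := fun p hp =>
        mul_nonneg (h p hp).1 (es_nonneg (fun q hq => (h q (Finset.mem_of_mem_erase hq)).1) c)
      have l1 : 0 ≤ ∑ p ∈ S, w p * (w p * es (S.erase p) w c) :=
        Finset.sum_nonneg fun p hp => mul_nonneg (h p hp).1 (hn p hp)
      have l2 : ∑ p ∈ S, w p * (w p * es (S.erase p) w c) ≤
          μ * ∑ p ∈ S, w p * es (S.erase p) w c := by
        rw [Finset.mul_sum]
        exact Finset.sum_le_sum fun p hp => mul_le_mul_of_nonneg_right (h p hp).2 (hn p hp)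
      rw [hs, one_mul] at h2
      rw [← h1] at l2
      have e : (((c + 1 : ℕ) : ℝ) + 1) = (c : ℝ) + 2 := by push_cast; ring
      rw [e, h2]
      push_cast
      constructor <;> nlinarith
  intro c
  induction c with
  | zero => simp [es_zero]
  | succ c ih =>
    obtain ⟨i1, i2⟩ := ih
    obtain ⟨s1, s2⟩ := step c
    have hf : (0 : ℝ) ≤ c.factorial := by positivity
    have e : (((c + 1).factorial : ℕ) : ℝ) * es S w (c + 1) =
        c.factorial * (((c : ℝ) + 1) * es S w (c + 1)) := by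
      rw [Nat.factorial_succ]
      push_cast
      ring
    have m1 := mul_le_mul_of_nonneg_left s1 hf
    have m2 := mul_le_mul_of_nonneg_left s2 hf
    have hc : (0 : ℝ) ≤ c * μ := by positivity
    have m3 := mul_le_mul_of_nonneg_left i2 hc
    rw [e]
    push_cast
    constructor <;> nlinarith

end ES

open ES in
theorem esb : EsStmt := by
  refine ⟨fun G A => ?_, fun S w μ ζ h hs c => ?_⟩
  · choose K hK1 hK using fun c => (bnd A c).1
    have hle : ∀ c ≤ G, K c ≤ ∑ i ∈ Finset.range (G + 1), K i := fun c hc =>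
      Finset.single_le_sum (f := K) (fun i _ => by linarith [hK1 i])
        (Finset.mem_range.2 (by omega))
    refine ⟨∑ i ∈ Finset.range (G + 1), K i, (hK1 0).trans (hle 0 (Nat.zero_le _)),
      fun S x hA c hc => ?_⟩
    exact (hK c S x _ hA (le_max_left _ _) (le_max_right _ _)).trans
      (mul_le_mul_of_nonneg_right (hle c hc) (by positivity))
  · have hμ : 0 ≤ μ := by
      obtain ⟨p, hp, -⟩ := Finset.exists_ne_zero_of_sum_ne_zero (hs.trans_ne one_ne_zero)
      exact (h p hp).1.trans (h p hp).2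
    obtain ⟨b1, b2⟩ := real_bd h hs hμ c
    have hf : (1 : ℝ) ≤ c.factorial := by exact_mod_cast c.factorial_pos
    have e : es S (fun p => ζ * (w p : ℂ)) c - ζ ^ c / (c.factorial : ℂ) =
        ζ ^ c * ((es S w c - 1 / c.factorial : ℝ) : ℂ) := by
      rw [es_smul, es_cast]
      push_cast
      ring
    rw [e, norm_mul, norm_pow, Complex.norm_real, Real.norm_eq_abs]
    refine mul_le_mul_of_nonneg_left ?_ (by positivity)
    have hc : (0 : ℝ) ≤ (c : ℝ) ^ 2 * μ := by positivity
    have e2 : es S w c - 1 / c.factorial = (c.factorial * es S w c - 1) / c.factorial := by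
      field_simp
    rw [e2, abs_div, abs_of_pos (by linarith : (0 : ℝ) < c.factorial), div_le_iff₀ (by linarith),
      abs_le]
    constructor <;> nlinarith

end Pool.Agent.MP_ca0a54_nt.P
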