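import Pool.Agent.MP_ca0a54_nt.P.Spec
import Pool.Agent.MP_ca0a54_nt.H3.AR2
import Pool.Agent.MP_ca0a54_nt.H88.AR1

/-! Row AR3: the coefficients of the truncated product. -/

open Complex Filter Topology Finset

namespace Pool.Agent.MP_ca0a54_nt.P

open Pool.Agent.MP_ca0a54_nt.H24 Pool.Agent.MP_ca0a54_nt.H3

namespace AR3

theorem divs4 {L ab : ℝ} {M n : ℕ} (hL : 1 ≤ L) (h0 : 0 ≤ ab) (h1 : ab ≤ 4)
    (hM : Real.log M ≤ L) (hn : n ≤ M) :
    ∑ p ∈ n.divisorsAntidiagonal, ‖rc 0 (I * (ab / L : ℝ)) p.1‖ ≤ Real.exp 4 := by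
  refine (divs H88.ar1 (div_nonneg h0 (by linarith)) n).trans (Real.exp_le_exp.2 ?_)
  have hl : Real.log n ≤ L := by
    rcases Nat.eq_zero_or_pos n with rfl | hn0
    · simp; linarith
    · exact (Real.log_le_log (by exact_mod_cast hn0) (by exact_mod_cast hn)).trans hM
  have : ab / L * Real.log n ≤ ab := by
    rw [div_mul_eq_mul_div, div_le_iff₀ (by linarith)]
    exact mul_le_mul_of_nonneg_left hl h0
  linarith

theorem bsum4 {L ab : ℝ} {M : ℕ} (hL : 1 ≤ L) (h0 : 0 ≤ ab) (h1 : ab ≤ 4)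
    (hM : Real.log M ≤ L) :
    ∑ k ∈ Icc 1 M, ‖rc 0 (I * (ab / L : ℝ)) k‖ / k ≤ Real.exp 7 * 10 := by
  have hL0 : 0 < L := by linarith
  have hb := bsum H88.ar1 (a := ab / L) (y := 7 / L) (by positivity)
    (div_lt_div_of_pos_right (by linarith) hL0) M
  have e : 7 / L * (1 + 1 / (7 / L - ab / L)) = 7 / L + 7 / (7 - ab) := by
    have : (7 : ℝ) - ab ≠ 0 := by linarith
    field_simp
  have b1 : 7 / L ≤ 7 := by rw [div_le_iff₀ hL0]; linarith
  have b2 : 7 / (7 - ab) ≤ 3 := by rw [div_le_iff₀ (by linarith)]; linarith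
  rw [e] at hb
  refine le_trans ?_ (mul_le_mul_of_nonneg_left (hb.trans (by linarith)) (Real.exp_pos 7).le)
  rw [Finset.mul_sum]
  refine Finset.sum_le_sum fun n hn => ?_
  have h1 := inv_le_ee hL (c := 7) (by norm_num) hM hn
  rw [div_eq_mul_one_div, mul_left_comm]
  exact mul_le_mul_of_nonneg_left h1 (norm_nonneg _)

end AR3

theorem ar3 : Ar3Stmt := by
  have p1 : 1 ≤ Real.exp 4 := Real.one_le_exp (by norm_num)
  have p2 : 1 ≤ Real.exp 7 := Real.one_le_exp (by norm_num)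
  have p3 : Real.exp 4 ≤ Real.exp 4 * (Real.exp 7 * 10) :=
    le_mul_of_one_le_right (by linarith) (by linarith)
  refine ⟨Real.exp 4 * (Real.exp 7 * 10), p1.trans p3,
    fun L ab W N M r hL h0 h1 hM hr hW => ⟨fun n hn => ?_, ?_⟩⟩
  · refine (norm_cv_le _ _ n).trans (le_trans ?_ ((AR3.divs4 hL h0 h1 hM hn).trans p3))
    refine Finset.sum_le_sum fun p _ => mul_le_of_le_one_right (norm_nonneg _) ?_
    unfold cut
    split_ifs
    · exact hr _
    · simp
  · have hW0 : 0 ≤ W := (Finset.sum_nonneg fun _ _ => by positivity).trans hW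
    refine (cv_sq_sum _ _ _ M (Finset.Subset.refl _) (Real.exp 4) W
      (Real.exp_pos _).le (fun n hn => ?_) fun k hk => ?_).trans ?_
    · exact AR3.divs4 hL h0 h1 hM (mem_Icc.1 hn).2
    · refine le_trans ?_ hW
      rw [← Finset.sum_filter_of_ne (p := fun j => j ≤ N) (fun j _ hj => by
        by_contra hc
        simp [cut, hc] at hj)]
      rw [Finset.sum_congr rfl (g := fun j => ‖r j‖ ^ 2 / j) fun j hj => by
        simp [cut, (mem_filter.1 hj).2]]
      refine Finset.sum_le_sum_of_subset_of_nonneg (fun j hj => ?_) fun _ _ _ => by positivity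
      simp only [mem_filter, mem_Icc] at hj ⊢
      exact ⟨hj.1.1.1, hj.2⟩
    · rw [mul_assoc]
      refine mul_le_mul_of_nonneg_left ?_ (Real.exp_pos _).le
      exact mul_le_mul_of_nonneg_right (AR3.bsum4 hL h0 h1 hM) hW0

end Pool.Agent.MP_ca0a54_nt.P
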