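import Pool.Agent.MP_ca0a54_nt.P.Spec

open Complex

namespace Pool.Agent.MP_ca0a54_nt.P

open Pool.Agent.MP_ca0a54_nt.H24

namespace Dir

/-- The product of a set of primes. -/
def pA (A : Finset ℕ) : ℕ := ∏ p ∈ A, p

theorem pr_pos {A : Finset ℕ} (h : ∀ p ∈ A, p.Prime) : 0 < pA A :=
  Finset.prod_pos fun p hp => (h p hp).pos

theorem pr_inj {A A' : Finset ℕ} (h : ∀ p ∈ A, p.Prime) (h' : ∀ p ∈ A', p.Prime)
    (e : pA A = pA A') : A = A' := by
  rw [← Nat.primeFactors_prod h, ← Nat.primeFactors_prod h']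
  exact congrArg Nat.primeFactors e

theorem pr_sqf {A : Finset ℕ} (h : ∀ p ∈ A, p.Prime) : Squarefree (pA A) := by
  refine Finset.squarefree_prod_of_pairwise_isCoprime (fun p hp q hq hpq => ?_)
    fun p hp => (h p hp).prime.squarefree
  exact Nat.coprime_iff_isRelPrime.1 ((Nat.coprime_primes (h p hp) (h q hq)).2 hpq)

theorem pr_divisors {A : Finset ℕ} (h : ∀ p ∈ A, p.Prime) :
    (pA A).divisors = A.powerset.image pA := by
  ext d
  rw [Nat.mem_divisors, Finset.mem_image]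
  constructor
  · rintro ⟨hd, h0⟩
    refine ⟨d.primeFactors, Finset.mem_powerset.2 ?_,
      Nat.prod_primeFactors_of_squarefree ((pr_sqf h).squarefree_of_dvd hd)⟩
    rw [← Nat.primeFactors_prod h]
    exact Nat.primeFactors_mono hd h0
  · rintro ⟨A', hA', rfl⟩
    exact ⟨Finset.prod_dvd_prod_of_subset _ _ _ (Finset.mem_powerset.1 hA'), (pr_pos h).ne'⟩

theorem pr_div {A A' : Finset ℕ} (h : ∀ p ∈ A, p.Prime) (hs : A' ⊆ A) :
    pA A / pA A' = pA (A \ A') := by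
  have h1 : pA (A \ A') * pA A' = pA A := Finset.prod_sdiff hs
  rw [← h1, Nat.mul_div_cancel _ (pr_pos fun p hp => h p (hs hp))]

theorem mul_pr {b : ℕ → ℂ} (h1 : b 1 = 1) (hb : ∀ m n : ℕ, m.Coprime n → b (m * n) = b m * b n)
    {A : Finset ℕ} (h : ∀ p ∈ A, p.Prime) : b (pA A) = ∏ p ∈ A, b p := by
  unfold pA
  induction A using Finset.induction_on with
  | empty => simpa using h1
  | insert q A hq ih =>
    have h' : ∀ p ∈ A, p.Prime := fun p hp => h p (Finset.mem_insert_of_mem hp)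
    rw [Finset.prod_insert hq, Finset.prod_insert hq, hb, ih h']
    refine Nat.Coprime.prod_right fun p hp => ?_
    exact (Nat.coprime_primes (h q (Finset.mem_insert_self _ _)) (h' p hp)).2
      fun e => hq (e ▸ hp)

theorem np_pr (z : ℂ) {A : Finset ℕ} (h : ∀ p ∈ A, p.Prime) :
    np z (pA A) = ∏ p ∈ A, np z p := by
  unfold np pA
  rw [← Complex.exp_sum, ← Finset.mul_sum, Nat.cast_prod, Real.log_prod]
  · push_cast
    rfl
  · intro p hp
    exact_mod_cast (h p hp).ne_zero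

/-- The coefficients. -/
noncomputable def co (F : Finset (Finset ℕ)) (ρ : ℕ → ℂ) (n : ℕ) : ℂ :=
  ∑ A ∈ F with pA A = n, ∏ p ∈ A, ρ p

variable {F : Finset (Finset ℕ)} {ρ : ℕ → ℂ}

theorem co_pr (h : ∀ A ∈ F, ∀ p ∈ A, p.Prime) {A : Finset ℕ} (hA : A ∈ F) :
    co F ρ (pA A) = ∏ p ∈ A, ρ p := by
  unfold co
  refine Finset.sum_eq_single_of_mem A (Finset.mem_filter.2 ⟨hA, rfl⟩) fun A' hA' hne => ?_
  obtain ⟨h1, h2⟩ := Finset.mem_filter.1 hA'
  exact absurd (pr_inj (h _ h1) (h _ hA) h2) hne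

theorem co_zero {n : ℕ} (h : n ∉ F.image pA) : co F ρ n = 0 := by
  unfold co
  refine Finset.sum_eq_zero fun A hA => ?_
  obtain ⟨h1, h2⟩ := Finset.mem_filter.1 hA
  exact absurd (Finset.mem_image.2 ⟨A, h1, h2⟩) h

theorem sum_co {M : Type} [AddCommMonoid M] (h : ∀ A ∈ F, ∀ p ∈ A, p.Prime) {N : ℕ}
    (hN : ∀ A ∈ F, pA A ≤ N) (g : ℕ → ℂ → M) (hg : ∀ n, g n 0 = 0) :
    ∑ n ∈ Finset.Icc 1 N, g n (co F ρ n) = ∑ A ∈ F, g (pA A) (∏ p ∈ A, ρ p) := by
  have h1 : F.image pA ⊆ Finset.Icc 1 N := by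
    intro n hn
    obtain ⟨A, hA, rfl⟩ := Finset.mem_image.1 hn
    exact Finset.mem_Icc.2 ⟨pr_pos (h A hA), hN A hA⟩
  rw [← Finset.sum_subset h1 fun n _ hn => by rw [co_zero hn, hg],
    Finset.sum_image fun A hA A' hA' e => pr_inj (h A hA) (h A' hA') e]
  exact Finset.sum_congr rfl fun A hA => by rw [co_pr h hA]

theorem cv_pr {b : ℕ → ℂ} (h1 : b 1 = 1) (hb : ∀ m n : ℕ, m.Coprime n → b (m * n) = b m * b n)
    (h : ∀ A ∈ F, ∀ p ∈ A, p.Prime) {N : ℕ} (hN : ∀ A ∈ F, pA A ≤ N)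
    (hs : ∀ A ∈ F, ∀ A' ⊆ A, A' ∈ F) {A : Finset ℕ} (hA : A ∈ F) :
    cv b (cut (co F ρ) N) (pA A) = ∏ p ∈ A, (b p + ρ p) := by
  have e : cv b (cut (co F ρ) N) (pA A) =
      ∑ p ∈ (pA A).divisorsAntidiagonal, b p.1 * cut (co F ρ) N p.2 :=
    congrFun (LSeries.convolution_def b _) _
  rw [e, Nat.sum_divisorsAntidiagonal' fun x y => b x * cut (co F ρ) N y, pr_divisors (h A hA),
    Finset.sum_image fun B hB B' hB' e => pr_inj
      (fun p hp => h A hA p (Finset.mem_powerset.1 hB hp))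
      (fun p hp => h A hA p (Finset.mem_powerset.1 hB' hp)) e,
    Finset.prod_congr rfl fun p _ => add_comm (b p) (ρ p), Finset.prod_add]
  refine Finset.sum_congr rfl fun B hB => ?_
  have hB' := Finset.mem_powerset.1 hB
  have hF := hs A hA B hB'
  rw [pr_div (h A hA) hB', mul_pr h1 hb fun p hp => h A hA p (Finset.mem_sdiff.1 hp).1, cut,
    if_pos (hN B hF), co_pr h hF, mul_comm]

end Dir

open Dir in
theorem dir : DirStmt := by
  intro F ρ b N Γ hΓ hF h1 hb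
  have h : ∀ A ∈ F, ∀ p ∈ A, p.Prime := fun A hA => (hF A hA).1
  have hN : ∀ A ∈ F, pA A ≤ N := fun A hA => (hF A hA).2.1
  refine ⟨co F ρ, fun n => ?_, fun w => ?_, ?_, ?_⟩
  · by_cases hn : n ∈ F.image pA
    · obtain ⟨A, hA, rfl⟩ := Finset.mem_image.1 hn
      rw [co_pr h hA, norm_prod]
      exact (hF A hA).2.2.1
    · rw [co_zero hn, norm_zero]
      exact hΓ
  · unfold dp ds
    rw [sum_co h hN (fun n c => c * np (1 / 2 + I * w) n) fun n => zero_mul _]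
    refine Finset.sum_congr rfl fun A hA => ?_
    rw [np_pr _ (h A hA), Finset.prod_mul_distrib]
  · rw [sum_co h hN (fun n c => ‖c‖ ^ 2 / (n : ℝ)) fun n => by simp]
    refine Finset.sum_congr rfl fun A _ => ?_
    rw [Finset.prod_div_distrib, Finset.prod_pow, norm_prod, pA, Nat.cast_prod]
  · rw [sum_co h hN (fun n c => cv b (cut (co F ρ) N) n * (starRingEnd ℂ) c / (n : ℂ))
      fun n => by simp]
    refine Finset.sum_congr rfl fun A hA => ?_
    rw [cv_pr h1 hb h hN (fun A hA => (hF A hA).2.2.2) hA, Finset.prod_div_distrib,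
      Finset.prod_mul_distrib, map_prod, pA, Nat.cast_prod]

end Pool.Agent.MP_ca0a54_nt.P
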