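import Pool.Agent.MP_ca0a54_nt.P.Spec
import Pool.Agent.MP_ca0a54_nt.H40.MVT

/-!
Row MOM: mixed moments of Dirichlet polynomials supported on primes.
-/

open Complex MeasureTheory Filter Topology

namespace Pool.Agent.MP_ca0a54_nt.P

open Pool.Agent.MP_ca0a54_nt.L0 Pool.Agent.MP_ca0a54_nt.H24 Pool.Agent.MP_ca0a54_nt.H10

namespace MOM

/-- `f` is a Dirichlet polynomial of weight `u`. -/
def Poly (Λ ℓ : ℝ) (u : ℕ) (f : ℝ → ℂ) : Prop :=
  ∃ (c : ℕ → ℂ) (S : Finset ℕ), (∀ t : ℝ, f t = ds c S t) ∧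
    (∀ n ∈ S, 1 ≤ n ∧ Real.log n ≤ u * ℓ ∧ n.primeFactors.card ≤ u ∧ ‖c n‖ ≤ Λ ^ u) ∧
    ∑ n ∈ S, ‖c n‖ ^ 2 / n ≤ Λ ^ u

lemma np_mul (z : ℂ) {m n : ℕ} (hm : 1 ≤ m) (hn : 1 ≤ n) : np z (m * n) = np z m * np z n := by
  unfold np
  have hm0 : (m : ℝ) ≠ 0 := by positivity
  have hn0 : (n : ℝ) ≠ 0 := by positivity
  rw [← exp_add, Nat.cast_mul, Real.log_mul hm0 hn0]
  congr 1
  push_cast
  ring

lemma poly_one (Λ ℓ : ℝ) : Poly Λ ℓ 0 fun _ => 1 := by
  refine ⟨fun _ => 1, {1}, fun t => ?_, fun n hn => ?_, ?_⟩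
  · simp [ds, np]
  · rw [Finset.mem_singleton.1 hn]
    simp
  · simp

lemma poly_cont {Λ ℓ : ℝ} {u : ℕ} {f : ℝ → ℂ} (h : Poly Λ ℓ u f) : Continuous f := by
  obtain ⟨c, S, hf, -⟩ := h
  rw [show f = fun t : ℝ => ds c S t from funext hf]
  exact H40.ds_continuous c S

lemma step {G : ℕ} {Γ ℓ : ℝ} {u j : ℕ} {f : ℝ → ℂ} (hj : 1 ≤ j) (huj : u + j ≤ G)
    (P : Finset ℕ) (ρ : ℕ → ℂ) (hP : ∀ p ∈ P, p.Prime ∧ Real.log p ≤ j * ℓ ∧ ‖ρ p‖ ≤ Γ)
    (hs : ∑ p ∈ P, ‖ρ p‖ ^ 2 / p ≤ Γ) (h : Poly ((G + 1) * max 1 Γ) ℓ u f) :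
    Poly ((G + 1) * max 1 Γ) ℓ (u + j) fun t => f t * ds ρ P t := by
  obtain ⟨c, S, hf, hS, hsum⟩ := h
  set Λ : ℝ := (G + 1) * max 1 Γ with hΛ
  have hG0 : (0 : ℝ) ≤ G := Nat.cast_nonneg G
  have hm1 : (1 : ℝ) ≤ max 1 Γ := le_max_left _ _
  have hmΓ : Γ ≤ max 1 Γ := le_max_right _ _
  have hΛ1 : 1 ≤ Λ := by rw [hΛ]; nlinarith
  have hΛ0 : 0 ≤ Λ ^ u := by positivity
  have hkey : ∀ x : ℝ, x ≤ G * (Λ ^ u * max 1 Γ) → x ≤ Λ ^ (u + j) := by
    intro x hx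
    calc x ≤ G * (Λ ^ u * max 1 Γ) := hx
      _ ≤ Λ ^ u * Λ := by rw [hΛ] at *; nlinarith
      _ = Λ ^ (u + 1) := (pow_succ _ _).symm
      _ ≤ Λ ^ (u + j) := pow_le_pow_right₀ hΛ1 (by omega)
  set g : ℕ × ℕ → ℕ := fun x => x.1 * x.2 with hg
  set Fb : ℕ → Finset (ℕ × ℕ) := fun n => (S ×ˢ P).filter fun x => g x = n with hFb
  have hmaps : ∀ x ∈ S ×ˢ P, g x ∈ (S ×ˢ P).image g := fun x hx => Finset.mem_image_of_mem g hx
  have hpf : ∀ n ∈ (S ×ˢ P).image g, 1 ≤ n ∧ Real.log n ≤ (u + j : ℕ) * ℓ ∧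
      n.primeFactors.card ≤ u + 1 := by
    intro n hn
    obtain ⟨x, hx, rfl⟩ := Finset.mem_image.1 hn
    obtain ⟨hx1, hx2⟩ := Finset.mem_product.1 hx
    obtain ⟨h1, h2, h3, -⟩ := hS _ hx1
    obtain ⟨p1, p2, -⟩ := hP _ hx2
    have hp1 := p1.one_le
    refine ⟨Nat.mul_pos h1 hp1, ?_, ?_⟩
    · have hm0 : (x.1 : ℝ) ≠ 0 := by positivity
      have hn0 : (x.2 : ℝ) ≠ 0 := by positivity
      simp only [hg]
      rw [Nat.cast_mul, Real.log_mul hm0 hn0]
      push_cast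
      linarith
    · simp only [hg]
      rw [Nat.primeFactors_mul (by omega) (by omega), p1.primeFactors]
      exact (Finset.card_union_le _ _).trans (by rw [Finset.card_singleton]; omega)
  have hcard : ∀ n ∈ (S ×ˢ P).image g, ((Fb n).card : ℝ) ≤ G := by
    intro n hn
    obtain ⟨h1, -, h3⟩ := hpf n hn
    have : (Fb n).card ≤ n.primeFactors.card := by
      refine Finset.card_le_card_of_injOn Prod.snd (fun x hx => ?_) (fun x hx y hy hxy => ?_)
      · obtain ⟨hx1, hx2⟩ := Finset.mem_filter.1 (Finset.mem_coe.1 hx)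
        have hp := (hP _ (Finset.mem_product.1 hx1).2).1
        exact Finset.mem_coe.2 (Nat.mem_primeFactors.2 ⟨hp, hx2 ▸ Dvd.intro_left _ rfl, by omega⟩)
      · obtain ⟨hx1, hx2⟩ := Finset.mem_filter.1 (Finset.mem_coe.1 hx)
        obtain ⟨-, hy2⟩ := Finset.mem_filter.1 (Finset.mem_coe.1 hy)
        have hp := (hP _ (Finset.mem_product.1 hx1).2).1.pos
        refine Prod.ext ?_ hxy
        have e : x.1 * x.2 = y.1 * x.2 := by
          have := hx2.trans hy2.symm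
          simp only [hg] at this
          rw [this, hxy]
        exact Nat.eq_of_mul_eq_mul_right hp e
    exact_mod_cast (by omega : (Fb n).card ≤ G)
  refine ⟨fun n => ∑ x ∈ Fb n, c x.1 * ρ x.2, (S ×ˢ P).image g, fun t => ?_, fun n hn => ?_, ?_⟩
  · simp only [hf]
    unfold ds
    rw [Finset.sum_mul_sum, ← Finset.sum_product',
      ← Finset.sum_fiberwise_of_maps_to hmaps]
    refine Finset.sum_congr rfl fun n _ => ?_
    rw [Finset.sum_mul]
    refine Finset.sum_congr rfl fun x hx => ?_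
    obtain ⟨hx1, hx2⟩ := Finset.mem_filter.1 hx
    obtain ⟨h1, h2⟩ := Finset.mem_product.1 hx1
    rw [← hx2]
    simp only [hg]
    rw [np_mul _ (hS _ h1).1 (hP _ h2).1.one_le]
    ring
  · obtain ⟨h1, h2, h3⟩ := hpf n hn
    refine ⟨h1, h2, by omega, hkey _ ?_⟩
    refine (norm_sum_le _ _).trans ?_
    have : ∀ x ∈ Fb n, ‖c x.1 * ρ x.2‖ ≤ Λ ^ u * max 1 Γ := by
      intro x hx
      obtain ⟨a1, a2⟩ := Finset.mem_product.1 (Finset.mem_filter.1 hx).1
      rw [norm_mul]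
      exact mul_le_mul (hS _ a1).2.2.2 ((hP _ a2).2.2.trans hmΓ) (norm_nonneg _) hΛ0
    refine (Finset.sum_le_card_nsmul _ _ _ this).trans ?_
    rw [nsmul_eq_mul]
    exact mul_le_mul_of_nonneg_right (hcard n hn) (by positivity)
  · refine hkey _ ?_
    have h1 : ∀ n ∈ (S ×ˢ P).image g, ‖∑ x ∈ Fb n, c x.1 * ρ x.2‖ ^ 2 / n ≤
        ∑ x ∈ Fb n, G * (‖c x.1‖ ^ 2 / x.1 * (‖ρ x.2‖ ^ 2 / x.2)) := by
      intro n hn
      have hn0 : (0 : ℝ) < n := by exact_mod_cast (hpf n hn).1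
      have a1 : ‖∑ x ∈ Fb n, c x.1 * ρ x.2‖ ^ 2 ≤ G * ∑ x ∈ Fb n, ‖c x.1 * ρ x.2‖ ^ 2 :=
        calc _ ≤ (∑ x ∈ Fb n, ‖c x.1 * ρ x.2‖) ^ 2 := by
              gcongr
              exact norm_sum_le _ _
          _ ≤ (Fb n).card * ∑ x ∈ Fb n, ‖c x.1 * ρ x.2‖ ^ 2 := sq_sum_le_card_mul_sum_sq
          _ ≤ _ := mul_le_mul_of_nonneg_right (hcard n hn)
              (Finset.sum_nonneg fun _ _ => by positivity)
      refine (div_le_div_of_nonneg_right a1 hn0.le).trans (le_of_eq ?_)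
      rw [Finset.mul_sum, Finset.sum_div]
      refine Finset.sum_congr rfl fun x hx => ?_
      rw [← (Finset.mem_filter.1 hx).2]
      simp only [hg]
      rw [norm_mul, Nat.cast_mul, mul_pow, div_mul_div_comm, mul_div_assoc]
    refine (Finset.sum_le_sum h1).trans ?_
    rw [Finset.sum_fiberwise_of_maps_to hmaps, ← Finset.mul_sum,
      Finset.sum_product' S P fun m p => ‖c m‖ ^ 2 / m * (‖ρ p‖ ^ 2 / p), ← Finset.sum_mul_sum]
    refine mul_le_mul_of_nonneg_left ?_ hG0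
    exact mul_le_mul hsum (hs.trans hmΓ) (Finset.sum_nonneg fun _ _ => by positivity) hΛ0

lemma step_pow {G : ℕ} {Γ ℓ : ℝ} {u j : ℕ} {f : ℝ → ℂ} (hj : 1 ≤ j)
    (P : Finset ℕ) (ρ : ℕ → ℂ) (hP : ∀ p ∈ P, p.Prime ∧ Real.log p ≤ j * ℓ ∧ ‖ρ p‖ ≤ Γ)
    (hs : ∑ p ∈ P, ‖ρ p‖ ^ 2 / p ≤ Γ) (h : Poly ((G + 1) * max 1 Γ) ℓ u f) (c : ℕ)
    (hc : u + c * j ≤ G) :
    Poly ((G + 1) * max 1 Γ) ℓ (u + c * j) fun t => f t * ds ρ P t ^ c := by
  induction c with
  | zero => simpa using h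
  | succ c ih =>
    have e : u + (c + 1) * j = u + c * j + j := by ring
    have := step hj (e ▸ hc) P ρ hP hs (ih (by rw [e] at hc; omega))
    rw [e]
    simpa only [pow_succ, mul_assoc] using this

lemma psi_cont (G : ℕ) (d : ℝ → ℕ → ℝ) (hd : ∀ j, Continuous fun t => d t j) (j : ℕ) :
    ∀ u, Continuous fun t => Psi G (d t) j u := by
  induction j with
  | zero => intro u; exact continuous_const
  | succ j ih =>
    intro u
    simp only [Psi]
    refine continuous_finsetSum _ fun c _ => ?_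
    split_ifs
    · exact ((hd _).pow _).mul (ih _)
    · exact continuous_const

end MOM

open MOM in
theorem mom : MomStmt := by
  obtain ⟨K, hK, hmean⟩ := H40.mean_sq
  intro G J Γ
  set Λ : ℝ := (G + 1) * max 1 Γ with hΛ
  have hG0 : (0 : ℝ) ≤ G := Nat.cast_nonneg G
  have hm1 : (1 : ℝ) ≤ max 1 Γ := le_max_left _ _
  have hΛ1 : 1 ≤ Λ := by rw [hΛ]; nlinarith
  refine ⟨(G + 1) ^ J * ((1 + K) * Λ ^ (2 * G)), by positivity, ?_⟩
  intro S ρ ℓ t₁ t₂ N hℓ hN hS hs hGN ht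
  have hN1 : (1 : ℝ) ≤ N := by exact_mod_cast hN
  have hlog : 0 ≤ Real.log N := Real.log_nonneg hN1
  have ht0 : 0 ≤ t₂ - t₁ := le_trans (by positivity) ht
  have hdc : ∀ j, Continuous fun t : ℝ => ‖ds ρ (S j) t‖ :=
    fun j => (H40.ds_continuous ρ (S j)).norm
  have hpc := psi_cont G (fun t j => ‖ds ρ (S j) t‖) hdc
  refine ⟨hpc J 0, ?_⟩
  have key : ∀ (j u : ℕ) (f : ℝ → ℂ), u ≤ G → Poly Λ ℓ u f →
      ∫ t in t₁..t₂, ‖f t‖ ^ 2 * Psi G (fun j => ‖ds ρ (S j) t‖) j u ≤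
        (G + 1) ^ j * ((1 + K) * Λ ^ (2 * G)) * (t₂ - t₁) := by
    intro j
    induction j with
    | zero =>
      rintro u f hu ⟨c, T, hf, hT, hsum⟩
      have hsub : T ⊆ Finset.Icc 1 N := by
        intro n hn
        obtain ⟨h1, h2, -⟩ := hT n hn
        have hn0 : (0 : ℝ) < n := by exact_mod_cast h1
        refine Finset.mem_Icc.2 ⟨h1, le_trans (Nat.le_floor ?_) hGN⟩
        rw [← Real.log_le_iff_le_exp hn0]
        have : (u : ℝ) ≤ G := by exact_mod_cast hu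
        exact h2.trans (mul_le_mul_of_nonneg_right this hℓ)
      have h0 := hmean N c T 0 (Λ ^ u) t₁ t₂ hsub (by positivity)
        (fun n hn => by simpa using (hT n hn).2.2.2)
      have e : ms c T (0 : ℂ).im = ∑ n ∈ T, ‖c n‖ ^ 2 / n := by
        unfold ms
        refine Finset.sum_congr rfl fun n hn => ?_
        have hn0 : (0 : ℝ) < n := by exact_mod_cast (hT n hn).1
        rw [zero_im, mul_zero, zero_sub, neg_one_mul, Real.exp_neg, Real.exp_log hn0,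
          div_eq_mul_inv]
      rw [e] at h0
      simp only [add_zero] at h0
      simp only [Psi, hf, mul_one, pow_zero, one_mul]
      have a1 : Λ ^ u ≤ Λ ^ (2 * G) := pow_le_pow_right₀ hΛ1 (by omega)
      have a2 : Λ ^ u * Λ ^ u ≤ Λ ^ (2 * G) := by
        rw [← pow_add]
        exact pow_le_pow_right₀ hΛ1 (by omega)
      have a3 : K * Λ ^ u * Λ ^ u * N * (1 + Real.log N) ≤ K * Λ ^ (2 * G) * (t₂ - t₁) := by
        calc _ = K * (Λ ^ u * Λ ^ u) * (N * (1 + Real.log N)) := by ring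
          _ ≤ _ := by gcongr
      have a4 : (t₂ - t₁) * ∑ n ∈ T, ‖c n‖ ^ 2 / n ≤ (t₂ - t₁) * Λ ^ (2 * G) :=
        mul_le_mul_of_nonneg_left (hsum.trans a1) ht0
      nlinarith
    | succ j ih =>
      intro u f hu hf
      have hfc := poly_cont hf
      simp only [Psi, Finset.mul_sum]
      rw [intervalIntegral.integral_finsetSum]
      · have hb : ∀ c ∈ Finset.range (G + 1), (∫ t in t₁..t₂, ‖f t‖ ^ 2 *
            if u + c * (j + 1) ≤ G then ‖ds ρ (S (j + 1)) t‖ ^ (2 * c) *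
              Psi G (fun j => ‖ds ρ (S j) t‖) j (u + c * (j + 1)) else 0) ≤
            (G + 1) ^ j * ((1 + K) * Λ ^ (2 * G)) * (t₂ - t₁) := by
          intro c _
          split_ifs with hc
          · have := ih _ _ hc (step_pow (by omega) (S (j + 1)) ρ (hS (j + 1)) (hs (j + 1)) hf c hc)
            refine le_of_eq_of_le (intervalIntegral.integral_congr fun t _ => ?_) this
            simp only [norm_mul, norm_pow]
            ring
          · simp only [mul_zero, intervalIntegral.integral_zero]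
            positivity
        refine (Finset.sum_le_card_nsmul _ _ _ hb).trans (le_of_eq ?_)
        rw [Finset.card_range, nsmul_eq_mul]
        push_cast
        ring
      · intro c _
        refine Continuous.intervalIntegrable ?_ _ _
        refine (hfc.norm.pow 2).mul ?_
        split_ifs
        · exact ((hdc _).pow _).mul (hpc _ _)
        · exact continuous_const
  simpa using key J 0 _ (Nat.zero_le _) (poly_one Λ ℓ)

end Pool.Agent.MP_ca0a54_nt.P
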