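import Pool.Agent.MP_ca0a54_nt.P.Spec

/-!
Row UI: the square of the admissible sum is small compared with the sum of all monomials.
-/

namespace Pool.Agent.MP_ca0a54_nt.P

namespace UI

theorem psi_nonneg (G : ℕ) (d : ℕ → ℝ) : ∀ j u, 0 ≤ Psi G d j u
  | 0, _ => zero_le_one
  | j + 1, u => by
    rw [Psi]
    refine Finset.sum_nonneg fun c _ => ?_
    split_ifs
    · exact mul_nonneg (by rw [pow_mul]; positivity) (psi_nonneg G d j _)
    · exact le_rfl

theorem term_le (G : ℕ) (d : ℕ → ℝ) {j u c : ℕ} (h : u + c * (j + 1) ≤ G) :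
    d (j + 1) ^ (2 * c) * Psi G d j (u + c * (j + 1)) ≤ Psi G d (j + 1) u := by
  have hc : c ∈ Finset.range (G + 1) := Finset.mem_range.2 (by nlinarith)
  rw [Psi]
  refine le_trans ?_ (Finset.single_le_sum (fun c _ => ?_) hc)
  · rw [if_pos h]
  · split_ifs
    · exact mul_nonneg (by rw [pow_mul]; positivity) (psi_nonneg G d j _)
    · exact le_rfl

theorem psi_step (G : ℕ) (d : ℕ → ℝ) (j : ℕ) {u : ℕ} (h : u ≤ G) :
    Psi G d j u ≤ Psi G d (j + 1) u := by
  simpa using term_le G d (j := j) (u := u) (c := 0) (by simpa using h)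

theorem psi_anti (G : ℕ) (d : ℕ → ℝ) : ∀ j u u', u ≤ u' → Psi G d j u' ≤ Psi G d j u
  | 0, _, _, _ => le_rfl
  | j + 1, u, u', h => by
    rw [Psi, Psi]
    refine Finset.sum_le_sum fun c _ => ?_
    have h0 : 0 ≤ d (j + 1) ^ (2 * c) := by
      rw [pow_mul]
      positivity
    split_ifs with h1 h2
    · exact mul_le_mul_of_nonneg_left (psi_anti G d j _ _ (by omega)) h0
    · omega
    · exact mul_nonneg h0 (psi_nonneg G d j _)
    · exact le_rfl

theorem one_le_psi (G : ℕ) (d : ℕ → ℝ) {u : ℕ} (h : u ≤ G) : ∀ j, 1 ≤ Psi G d j u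
  | 0 => le_rfl
  | j + 1 => (one_le_psi G d h j).trans (psi_step G d j h)

/-- `f` is small compared with `Ψ`. -/
def Good (Ψ f : (ℕ → ℝ) → ℝ) : Prop := ∀ δ : ℝ, 0 < δ → ∃ C : ℝ, ∀ d, f d ≤ δ * Ψ d + C

section
variable {Ψ f g : (ℕ → ℝ) → ℝ}

theorem Good.mono (h : Good Ψ g) (hf : ∀ d, f d ≤ g d) : Good Ψ f := fun δ hδ =>
  (h δ hδ).imp fun _ hC d => (hf d).trans (hC d)

theorem Good.const (hΨ : ∀ d, 0 ≤ Ψ d) (a : ℝ) : Good Ψ fun _ => a := fun _ hδ =>
  ⟨a, fun d => le_add_of_nonneg_left (mul_nonneg hδ.le (hΨ d))⟩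

theorem Good.add (hf : Good Ψ f) (hg : Good Ψ g) : Good Ψ fun d => f d + g d := by
  intro δ hδ
  obtain ⟨C, hC⟩ := hf (δ / 2) (by positivity)
  obtain ⟨C', hC'⟩ := hg (δ / 2) (by positivity)
  exact ⟨C + C', fun d => by linarith [hC d, hC' d]⟩

theorem Good.smul (hf : Good Ψ f) {k : ℝ} (hk : 0 < k) : Good Ψ fun d => k * f d := by
  intro δ hδ
  obtain ⟨C, hC⟩ := hf (δ / k) (by positivity)
  refine ⟨k * C, fun d => (mul_le_mul_of_nonneg_left (hC d) hk.le).trans (le_of_eq ?_)⟩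
  field_simp

theorem Good.sum (hΨ : ∀ d, 0 ≤ Ψ d) {F : ℕ → (ℕ → ℝ) → ℝ} (s : Finset ℕ)
    (h : ∀ c ∈ s, Good Ψ (F c)) : Good Ψ fun d => ∑ c ∈ s, F c d := by
  induction s using Finset.induction_on with
  | empty => simpa using Good.const hΨ 0
  | insert i s hi ih =>
    simp only [Finset.sum_insert hi]
    exact (h i (Finset.mem_insert_self _ _)).add
      (ih fun j hj => h j (Finset.mem_insert_of_mem hj))

end

/-- The majorant of `FF`. -/
noncomputable def FY (G : ℕ) (d : ℕ → ℝ) : ℕ → ℕ → ℝ := FF G fun j c => max 1 (d j) ^ c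

theorem norm_le (G J : ℕ) {K : ℝ} (hK : 1 ≤ K) {e : ℕ → ℕ → ℂ} {d : ℕ → ℝ}
    (he : ∀ j c, 1 ≤ j → j ≤ J → c ≤ G → ‖e j c‖ ≤ K * max 1 (d j) ^ c) :
    ∀ j u, j ≤ J → ‖FF G e j u‖ ≤ K ^ j * FY G d j u
  | 0, _, _ => by simp [FF, FY]
  | j + 1, u, hj => by
    rw [FY, FF, FF, Finset.mul_sum]
    refine norm_sum_le_of_le _ fun c hc => ?_
    split_ifs
    · have h1 := he (j + 1) c (by omega) hj (by simpa [Nat.lt_succ_iff] using hc)
      have h2 := norm_le G J hK he j (u + c * (j + 1)) (by omega)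
      rw [norm_mul]
      refine (mul_le_mul h1 h2 (norm_nonneg _) ((norm_nonneg _).trans h1)).trans (le_of_eq ?_)
      rw [FY]
      ring
    · simp

theorem main (G : ℕ) {Ψ : (ℕ → ℝ) → ℝ} (hΨ : ∀ d, 0 ≤ Ψ d) : ∀ (j u : ℕ) (A : (ℕ → ℝ) → ℝ),
    u ≤ G → (∀ d, 0 ≤ A d) → (∀ d, A d * Psi G d j u ≤ Ψ d) → Good Ψ A →
    Good Ψ fun d => A d * FY G d j u ^ 2
  | 0, _, A, _, _, _, h => by simpa [FY, FF] using h
  | j + 1, u, A, hu, h0, hI, h => by
    have key : ∀ c ∈ Finset.range (G + 1), Good Ψ fun d => A d *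
        (if c = 0 ∨ u + (c + 1) * (j + 1) ≤ G then
          max 1 (d (j + 1)) ^ c * FY G d j (u + c * (j + 1)) else 0) ^ 2 := by
      intro c _
      split_ifs with hc
      swap
      · simpa using Good.const hΨ 0
      have hu' : u + c * (j + 1) ≤ G := by
        rcases hc with rfl | hc
        · simpa using hu
        · nlinarith
      refine (main G hΨ j (u + c * (j + 1)) (fun d => A d * max 1 (d (j + 1)) ^ (2 * c)) hu'
        (fun d => mul_nonneg (h0 d) (by positivity)) (fun d => ?_) ?_).mono fun d => le_of_eq ?_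
      · refine le_trans ?_ (hI d)
        rw [mul_assoc]
        refine mul_le_mul_of_nonneg_left ?_ (h0 d)
        rcases le_total 1 (d (j + 1)) with h1 | h1
        · rw [max_eq_right h1]
          exact term_le G d hu'
        · rw [max_eq_left h1, one_pow, one_mul]
          exact (psi_anti G d j _ _ (by omega)).trans (psi_step G d j hu)
      · rcases hc with rfl | hc
        · simpa using h
        intro δ hδ
        obtain ⟨M, hM1, hM⟩ : ∃ M : ℝ, 1 ≤ M ∧ 2 ≤ δ * M :=
          ⟨max 1 (2 / δ), le_max_left _ _, by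
            rw [← div_le_iff₀' hδ]
            exact le_max_right _ _⟩
        obtain ⟨C, hC⟩ := h.smul (k := M ^ (2 * c)) (by positivity) (δ / 2) (by positivity)
        refine ⟨max C 0, fun d => ?_⟩
        have h2 := mul_nonneg hδ.le (hΨ d)
        have h3 := le_max_left C 0
        have h4 := le_max_right C 0
        rcases le_total (d (j + 1)) M with h1 | h1
        · have h5 : A d * max 1 (d (j + 1)) ^ (2 * c) ≤ A d * M ^ (2 * c) :=
            mul_le_mul_of_nonneg_left (pow_le_pow_left₀ (by positivity) (max_le hM1 h1) _) (h0 d)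
          have h6 := hC d
          simp only at h6 ⊢
          linarith
        · have h5 : d (j + 1) ^ (2 * (c + 1)) ≤ Psi G d (j + 1) u :=
            (le_mul_of_one_le_right (by rw [pow_mul]; positivity) (one_le_psi G d hc j)).trans
              (term_le G d hc)
          have h6 := (mul_le_mul_of_nonneg_left h5 (h0 d)).trans (hI d)
          have h7 : 0 ≤ A d * d (j + 1) ^ (2 * c) :=
            mul_nonneg (h0 d) (by rw [pow_mul]; positivity)
          have h8 : 1 ≤ δ * d (j + 1) ^ 2 := by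
            nlinarith [mul_le_mul_of_nonneg_left (show M ≤ d (j + 1) ^ 2 by nlinarith) hδ.le]
          simp only
          rw [max_eq_right (hM1.trans h1)]
          calc _ ≤ A d * d (j + 1) ^ (2 * c) * (δ * d (j + 1) ^ 2) := le_mul_of_one_le_right h7 h8
            _ = δ * (A d * d (j + 1) ^ (2 * (c + 1))) := by ring
            _ ≤ δ * Ψ d := mul_le_mul_of_nonneg_left h6 hδ.le
            _ ≤ _ := by linarith
      · ring
    refine ((Good.sum hΨ _ key).smul (k := (G + 1 : ℕ)) (by positivity)).mono fun d => ?_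
    rw [← Finset.mul_sum, mul_left_comm]
    refine mul_le_mul_of_nonneg_left ?_ (h0 d)
    rw [FY, FF]
    simpa [FY] using sq_sum_le_card_mul_sum_sq (s := Finset.range (G + 1))
      (f := fun c => if c = 0 ∨ u + (c + 1) * (j + 1) ≤ G then
        max 1 (d (j + 1)) ^ c * FY G d j (u + c * (j + 1)) else 0)

end UI

theorem ui : UiStmt := by
  intro G J K δ hK hδ
  have h0 : ∀ d, 0 ≤ Psi G d J 0 := fun d => UI.psi_nonneg G d J 0
  obtain ⟨C, hC⟩ := (UI.main G h0 J 0 (fun _ => 1) (Nat.zero_le _) (fun _ => zero_le_one)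
    (fun d => le_of_eq (one_mul _)) (UI.Good.const h0 1)).smul (k := (K ^ J) ^ 2)
    (by positivity) δ hδ
  refine ⟨C, fun e d _ he => le_trans ?_ (hC d)⟩
  refine (pow_le_pow_left₀ (norm_nonneg _) (UI.norm_le G J hK he J 0 le_rfl) 2).trans
    (le_of_eq ?_)
  ring

end Pool.Agent.MP_ca0a54_nt.P
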