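import Pool.Agent.MP_ca0a54_nt.P.SET
import Pool.Agent.MP_ca0a54_nt.P.DIR
import Pool.Agent.MP_ca0a54_nt.P.ES
import Pool.Agent.MP_ca0a54_nt.P.UI
import Pool.Agent.MP_ca0a54_nt.P.MOM
import Pool.Agent.MP_ca0a54_nt.P.MER
import Pool.Agent.MP_ca0a54_nt.H88.AR1
import Pool.Agent.MP_ca0a54_nt.H83.PQa

/-! Row ARI: the Dirichlet polynomial. -/

open Complex MeasureTheory Filter Topology Finset

namespace Pool.Agent.MP_ca0a54_nt.P

open Pool.Agent.MP_ca0a54_nt.H24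

namespace ARI

theorem solve {σ s : ℝ} {ζ : ℂ} (h0 : 0 < σ) (h1 : σ ≤ s)
    (h : ζ.im ^ 2 ≤ σ * ζ.re + σ ^ 2 / 4) :
    ∃ z : ℂ, (1 + z) * (starRingEnd ℂ) z * s = ζ ∧ ‖z‖ ≤ 1 + ‖ζ‖ / σ := by
  have hs : 0 < s := h0.trans_le h1
  have h2 : 0 ≤ ζ.re + σ / 4 := by
    by_contra hn
    push Not at hn
    nlinarith [sq_nonneg ζ.im]
  have h3 : ζ.im ^ 2 ≤ s * ζ.re + s ^ 2 / 4 := by nlinarith
  have h4 : 0 ≤ 1 / 4 + ζ.re / s - (ζ.im / s) ^ 2 := by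
    have : 1 / 4 + ζ.re / s - (ζ.im / s) ^ 2 = (s * ζ.re + s ^ 2 / 4 - ζ.im ^ 2) / s ^ 2 := by
      field_simp
      ring
    rw [this]
    exact div_nonneg (by linarith) (by positivity)
  set q := √(1 / 4 + ζ.re / s - (ζ.im / s) ^ 2) with hq
  have hq2 : q ^ 2 = 1 / 4 + ζ.re / s - (ζ.im / s) ^ 2 := Real.sq_sqrt h4
  set z : ℂ := ⟨q - 1 / 2, -(ζ.im / s)⟩ with hz
  have key : (1 + z) * (starRingEnd ℂ) z * s = ζ := by
    apply Complex.ext
    · simp only [hz, mul_re, add_re, one_re, conj_re, add_im, one_im, conj_im, mul_im, ofReal_re,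
        ofReal_im]
      have : (1 + (q - 1 / 2)) * (q - 1 / 2) - (0 + -(ζ.im / s)) * - -(ζ.im / s) = ζ.re / s := by
        linear_combination hq2
      rw [this]
      field_simp
      ring
    · simp only [hz, mul_re, add_re, one_re, conj_re, add_im, one_im, conj_im, mul_im, ofReal_re,
        ofReal_im]
      field_simp
      ring
  refine ⟨z, key, ?_⟩
  have h5 : ‖1 + z‖ * ‖z‖ * s = ‖ζ‖ := by
    rw [← key, norm_mul, norm_mul, Complex.norm_conj, Complex.norm_real, Real.norm_eq_abs,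
      abs_of_pos hs]
  have h6 : ‖z‖ ≤ ‖1 + z‖ + 1 := by
    calc ‖z‖ = ‖(1 + z) - 1‖ := by rw [add_sub_cancel_left]
      _ ≤ ‖1 + z‖ + ‖(1 : ℂ)‖ := norm_sub_le _ _
      _ = _ := by rw [norm_one]
  by_contra hn
  push Not at hn
  have h7 : 0 ≤ ‖ζ‖ / σ := by positivity
  have h8 : ‖ζ‖ / σ < ‖1 + z‖ := by linarith
  rw [div_lt_iff₀ h0] at h8
  have h9 : ‖1 + z‖ * σ ≤ ‖1 + z‖ * ‖z‖ * s := by
    rw [mul_assoc]
    exact mul_le_mul_of_nonneg_left (by nlinarith) (norm_nonneg _)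
  linarith

theorem FF_tendsto {α : Type} {l : Filter α} (G : ℕ) (e : α → ℕ → ℕ → ℂ) (e₀ : ℕ → ℕ → ℂ) :
    ∀ J : ℕ, (∀ j c, 1 ≤ j → j ≤ J → Tendsto (fun a => e a j c) l (𝓝 (e₀ j c))) →
      ∀ u, Tendsto (fun a => FF G (e a) J u) l (𝓝 (FF G e₀ J u))
  | 0, _, _ => tendsto_const_nhds
  | J + 1, h, u => by
    simp only [FF]
    refine tendsto_finsetSum _ fun c _ => ?_
    split_ifs
    · exact (h (J + 1) c (by omega) le_rfl).mul
        (FF_tendsto G e e₀ J (fun j c h1 h2 => h j c h1 (by omega)) _)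
    · exact tendsto_const_nhds

theorem FF_congr {G : ℕ} {e e' : ℕ → ℕ → ℂ} :
    ∀ J : ℕ, (∀ j, 1 ≤ j → j ≤ J → e j = e' j) → ∀ u, FF G e J u = FF G e' J u
  | 0, _, _ => rfl
  | J + 1, h, u => by
    unfold FF
    refine Finset.sum_congr rfl fun c _ => ?_
    rw [h (J + 1) (by omega) le_rfl, FF_congr J (fun j h1 hj => h j h1 (hj.trans (Nat.le_succ J)))]

theorem es_congr {S : Finset ℕ} {x x' : ℕ → ℂ} (h : ∀ p ∈ S, x p = x' p) (c : ℕ) :
    es S x c = es S x' c :=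
  sum_congr rfl fun _ hA => prod_congr rfl fun p hp => h p ((mem_powersetCard.1 hA).1 hp)

/-- The weight of a prime. -/
noncomputable def g (a : ℝ) (p : ℕ) : ℝ := 2 * (1 - Real.cos (a * Real.log p)) / p

theorem g_nonneg (a : ℝ) (p : ℕ) : 0 ≤ g a p :=
  div_nonneg (by linarith [Real.cos_le_one (a * Real.log p)]) (Nat.cast_nonneg p)

theorem g_le (a : ℝ) {p : ℕ} (hp : 1 ≤ p) : g a p ≤ 4 * a ^ 2 := by
  have h0 : (0 : ℝ) < p := by exact_mod_cast hp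
  have h1 := Real.one_sub_sq_div_two_le_cos (x := a * Real.log p)
  have h2 : Real.log p ≤ 2 * √p := by
    have h3 := Real.log_le_sub_one_of_pos (Real.sqrt_pos.2 h0)
    rw [Real.log_sqrt h0.le] at h3
    linarith
  have h4 : Real.log p ^ 2 ≤ 4 * p := by
    have := pow_le_pow_left₀ (Real.log_natCast_nonneg p) h2 2
    rw [mul_pow, Real.sq_sqrt h0.le] at this
    linarith
  unfold g
  rw [div_le_iff₀ h0]
  nlinarith [mul_le_mul_of_nonneg_left h4 (sq_nonneg a)]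

theorem nb (a : ℝ) {p : ℕ} (hp : p.Prime) :
    ‖rc 0 (I * a) p‖ ^ 2 = 2 * (1 - Real.cos (a * Real.log p)) := by
  have h := (H88.ar1.2.2.2.1 0 (I * a)).2.2.2 p 0 hp
  rw [zero_add, pow_one, pow_zero, one_mul] at h
  have e1 : np 0 p = 1 := by simp [np]
  have e2 : np (I * a) p = exp (((-(a * Real.log p) : ℝ) : ℂ) * I) := by
    unfold np
    congr 1
    rw [ofReal_neg, ofReal_mul]
    ring
  rw [h, e1, e2, Complex.sq_norm, normSq_apply, sub_re, sub_im, exp_ofReal_mul_I_re,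
    exp_ofReal_mul_I_im, Real.cos_neg, Real.sin_neg, one_re, one_im]
  nlinarith [Real.sin_sq_add_cos_sq (a * Real.log p)]

/-- The primes of mode `j`. -/
noncomputable def md (a y : ℝ) (p : ℕ) : ℕ := ⌈a * Real.log p / y⌉₊

theorem md_mem {a y : ℝ} (ha : 0 < a) (hy : 0 < y) {J p : ℕ} (hp : p ∈ prs a 0 (J * y)) :
    1 ≤ md a y p ∧ md a y p ≤ J ∧ Real.log p ≤ md a y p * (y / a) := by
  obtain ⟨-, h1, h2⟩ := (MER.mem_prs ha).1 hp
  refine ⟨Nat.ceil_pos.2 (by positivity), Nat.ceil_le.2 ((div_le_iff₀ hy).2 h2), ?_⟩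
  have h3 := Nat.le_ceil (a * Real.log p / y)
  rw [div_le_iff₀ hy] at h3
  rw [← mul_div_assoc, le_div_iff₀ ha]
  unfold md
  linarith

theorem md_filter {a y : ℝ} (ha : 0 < a) (hy : 0 < y) {J j : ℕ} (h1 : 1 ≤ j) (h2 : j ≤ J) :
    (prs a 0 (J * y)).filter (fun p => md a y p = j) = prs a ((j - 1 : ℝ) * y) (j * y) := by
  ext p
  have h3 : (1 : ℝ) ≤ j := by exact_mod_cast h1
  have h4 : (j : ℝ) ≤ J := by exact_mod_cast h2
  rw [mem_filter, MER.mem_prs ha, MER.mem_prs ha, md, Nat.ceil_eq_iff (by omega), lt_div_iff₀ hy,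
    div_le_iff₀ hy, Nat.cast_sub h1, Nat.cast_one]
  constructor
  · rintro ⟨⟨k1, -, -⟩, k2, k3⟩
    exact ⟨k1, k2, k3⟩
  · rintro ⟨k1, k2, k3⟩
    exact ⟨⟨k1, by nlinarith, by nlinarith⟩, k2, k3⟩

/-- The symmetric functions in the main term. -/
noncomputable def ee (y : ℝ) (ζ : ℕ → ℂ) (a : ℝ) (j c : ℕ) : ℂ :=
  es (prs a ((j - 1 : ℝ) * y) (j * y))
    (fun p => ζ j * ((g a p / ∑ q ∈ prs a ((j - 1 : ℝ) * y) (j * y), g a q : ℝ) : ℂ)) c

theorem ev_sigma {G J : ℕ} {y φ : ℝ} {σ : ℕ → ℝ} {ζ : ℕ → ℂ} (hN : Num G J y φ σ ζ) :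
    ∀ᶠ a : ℝ in 𝓝[>] 0, ∀ j ∈ Icc 1 J, σ j ≤ ∑ q ∈ prs a ((j - 1 : ℝ) * y) (j * y), g a q := by
  rw [eventually_all_finset]
  intro j hj
  rw [mem_Icc] at hj
  have h3 : (1 : ℝ) ≤ j := by exact_mod_cast hj.1
  have hy := hN.hy
  exact mer.1 _ _ _ (by nlinarith) (by nlinarith) (hN.hσ j hj.1 hj.2).2.1

theorem ee_tendsto {G J : ℕ} {y φ : ℝ} {σ : ℕ → ℝ} {ζ : ℕ → ℂ} (hN : Num G J y φ σ ζ) (j c : ℕ)
    (h1 : 1 ≤ j) (h2 : j ≤ J) :
    Tendsto (fun a => ee y ζ a j c) (𝓝[>] 0) (𝓝 (ζ j ^ c / (c.factorial : ℂ))) := by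
  have hσ := (hN.hσ j h1 h2).1
  rw [tendsto_iff_norm_sub_tendsto_zero]
  have t : Tendsto (fun a : ℝ => ‖ζ j‖ ^ c * (c ^ 2 * (4 * a ^ 2 / σ j))) (𝓝[>] 0) (𝓝 0) := by
    have : Tendsto (fun a : ℝ => ‖ζ j‖ ^ c * (c ^ 2 * (4 * a ^ 2 / σ j))) (𝓝 0)
        (𝓝 (‖ζ j‖ ^ c * (c ^ 2 * (4 * 0 ^ 2 / σ j)))) :=
      Continuous.tendsto (by fun_prop) 0
    simpa using this.mono_left nhdsWithin_le_nhds
  refine squeeze_zero' (Eventually.of_forall fun _ => norm_nonneg _) ?_ t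
  filter_upwards [ev_sigma hN, self_mem_nhdsWithin] with a h ha
  have h3 := h j (mem_Icc.2 ⟨h1, h2⟩)
  have h4 := hσ.trans_le h3
  refine esb.2 _ _ _ _ (fun p hp => ⟨div_nonneg (g_nonneg a p) h4.le, ?_⟩) ?_ c
  · exact div_le_div₀ (by positivity) (g_le a ((MER.mem_prs ha).1 hp).1.one_le) hσ h3
  · rw [← sum_div, div_self h4.ne']

end ARI

open ARI

theorem ari : AriStmt := by
  intro G J y φ σ ζ hN
  have hy := hN.hy
  obtain ⟨C₁, hC₁⟩ := mer.2 (J * y + 1) (by positivity)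
  set Z₀ : ℝ := 1 + ∑ j ∈ Icc 1 J, ‖ζ j‖ / σ j with hZ₀
  have hnn : ∀ j ∈ Icc 1 J, 0 ≤ ‖ζ j‖ / σ j := fun j hj =>
    div_nonneg (norm_nonneg _) (hN.hσ j (mem_Icc.1 hj).1 (mem_Icc.1 hj).2).1.le
  have hZ1 : 1 ≤ Z₀ := le_add_of_nonneg_right (sum_nonneg hnn)
  set Γ : ℝ := max (2 * Z₀) (Z₀ ^ 2 * C₁) with hΓ
  have hΓ1 : 1 ≤ Γ := le_trans (by linarith) (le_max_left _ _)
  set B : ℝ := Γ ^ G with hB
  have hB1 : 1 ≤ B := one_le_pow₀ hΓ1
  have hB0 : 0 < B := by linarith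
  set M₀ : ℝ := -(exp (-I * φ) * FF G (fun j c => ζ j ^ c / (c.factorial : ℂ)) J 0).re with hM₀
  have hM : 0 < M₀ := hN.pos
  have hlim : ∀ᶠ a : ℝ in 𝓝[>] 0, M₀ / 2 ≤ -(exp (-I * φ) * FF G (ee y ζ a) J 0).re := by
    have t := FF_tendsto G (ee y ζ) _ J (ee_tendsto hN) 0
    have t2 : Tendsto (fun a => -(exp (-I * φ) * FF G (ee y ζ a) J 0).re) (𝓝[>] 0) (𝓝 M₀) :=
      ((continuous_re.tendsto _).comp (t.const_mul _)).neg
    exact t2.eventually (eventually_ge_nhds (by linarith))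
  obtain ⟨K, hK, hes⟩ := esb.1 G Γ
  obtain ⟨Cm, hCm, hmom⟩ := mom G J Γ
  refine ⟨M₀ / 2 / B ^ 2, Real.exp Γ, by positivity, fun δ hδ => ?_⟩
  obtain ⟨C, hui⟩ := ui G J K (δ / Cm) hK (by positivity)
  refine ⟨C, ?_⟩
  filter_upwards [hlim, ev_sigma hN, hC₁, self_mem_nhdsWithin] with a hmain hs hup ha
  have ha : 0 < a := ha
  have hz : ∀ j : ℕ, ∃ z : ℂ, 1 ≤ j → j ≤ J → (1 + z) * (starRingEnd ℂ) z *
      ((∑ q ∈ prs a ((j - 1 : ℝ) * y) (j * y), g a q : ℝ) : ℂ) = ζ j ∧ ‖z‖ ≤ Z₀ := by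
    intro j
    by_cases hj : 1 ≤ j ∧ j ≤ J
    · obtain ⟨z, h1, h2⟩ := solve (hN.hσ j hj.1 hj.2).1 (hs j (mem_Icc.2 hj))
        (hN.hσ j hj.1 hj.2).2.2
      refine ⟨z, fun _ _ => ⟨h1, h2.trans ?_⟩⟩
      have := single_le_sum hnn (mem_Icc.2 hj)
      linarith
    · exact ⟨0, fun h1 h2 => absurd ⟨h1, h2⟩ hj⟩
  choose z hz using hz
  set b : ℕ → ℂ := rc 0 (I * a) with hb
  set P := prs a 0 (J * y) with hP
  set ρ : ℕ → ℂ := fun p => z (md a y p) * b p with hρ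
  set F := P.powerset.filter (adm G (md a y) 0) with hF
  set N := ⌊Real.exp (G * (y / a))⌋₊ with hNd
  have hPp : ∀ p ∈ P, p.Prime := fun p hp => ((MER.mem_prs ha).1 hp).1
  have hmd : ∀ p ∈ P, 1 ≤ md a y p ∧ md a y p ≤ J := fun p hp =>
    ⟨(md_mem ha hy hp).1, (md_mem ha hy hp).2.1⟩
  have hρ1 : ∀ p ∈ P, ‖ρ p‖ ≤ Γ := fun p hp => by
    have h1 := nb a (hPp p hp)
    have h2 : ‖b p‖ ≤ 2 := by
      rw [← sq_le_sq₀ (norm_nonneg _) (by norm_num), h1]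
      linarith [Real.neg_one_le_cos (a * Real.log p)]
    rw [hρ, norm_mul]
    refine le_trans ?_ (le_max_left _ _)
    rw [mul_comm 2]
    exact mul_le_mul (hz _ (hmd p hp).1 (hmd p hp).2).2 h2 (norm_nonneg _) (by linarith)
  have hρ2 : ∑ p ∈ P, ‖ρ p‖ ^ 2 / p ≤ Γ := by
    refine le_trans ?_ (le_max_right _ _)
    calc ∑ p ∈ P, ‖ρ p‖ ^ 2 / p ≤ ∑ p ∈ P, Z₀ ^ 2 * g a p := sum_le_sum fun p hp => by
          rw [hρ, norm_mul, mul_pow, nb a (hPp p hp), mul_div_assoc]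
          exact mul_le_mul_of_nonneg_right (pow_le_pow_left₀ (norm_nonneg _)
            (hz _ (hmd p hp).1 (hmd p hp).2).2 2) (g_nonneg a p)
      _ = Z₀ ^ 2 * ∑ p ∈ P, g a p := (mul_sum _ _ _).symm
      _ ≤ Z₀ ^ 2 * C₁ := by
          refine mul_le_mul_of_nonneg_left (le_trans ?_ hup) (by positivity)
          refine sum_le_sum_of_subset_of_nonneg (fun p hp => ?_) fun p _ _ => g_nonneg a p
          obtain ⟨k1, k2, k3⟩ := (MER.mem_prs ha).1 hp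
          exact (MER.mem_prs ha).2 ⟨k1, k2, by linarith⟩
  have hN1 : 1 ≤ N := Nat.le_floor (by rw [Nat.cast_one]; exact Real.one_le_exp (by positivity))
  obtain ⟨s1, s2, s3⟩ := set G (md a y)
  obtain ⟨r, r1, r2, r3, r4⟩ := dir F ρ b N B hB0.le (fun A hA => by
    obtain ⟨k1, k2⟩ := mem_filter.1 hA
    have k3 : A ⊆ P := mem_powerset.1 k1
    have k4 := s2 A k2
    refine ⟨fun p hp => hPp p (k3 hp), ?_, ?_, fun A' hA' =>
      mem_filter.2 ⟨mem_powerset.2 (hA'.trans k3), s1 0 A A' hA' k2⟩⟩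
    · refine Nat.le_floor ?_
      rw [Nat.cast_prod, ← Real.log_le_iff_le_exp (prod_pos fun p hp => by
        exact_mod_cast (hPp p (k3 hp)).pos), Real.log_prod fun p hp => by
          exact_mod_cast (hPp p (k3 hp)).ne_zero]
      refine (sum_le_sum fun p hp => (md_mem ha hy (k3 hp)).2.2).trans ?_
      rw [← sum_mul]
      refine mul_le_mul_of_nonneg_right ?_ (by positivity)
      exact_mod_cast k4
    · refine (prod_le_prod (fun _ _ => norm_nonneg _) fun p hp => hρ1 p (k3 hp)).trans ?_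
      rw [prod_const]
      refine pow_le_pow_right₀ hΓ1 (le_trans ?_ k4)
      rw [card_eq_sum_ones]
      exact sum_le_sum fun p hp => (hmd p (k3 hp)).1)
    (H88.ar1.2.2.2.1 0 (I * a)).2.1 (H88.ar1.2.2.2.1 0 (I * a)).2.2.1
  have hinv : ‖((B⁻¹ : ℝ) : ℂ)‖ = B⁻¹ := by
    rw [Complex.norm_real, Real.norm_eq_abs, abs_of_pos (inv_pos.2 hB0)]
  have hB2 : B⁻¹ ≤ 1 := inv_le_one_of_one_le₀ hB1
  refine ⟨fun n => ((B⁻¹ : ℝ) : ℂ) * r n, N, hN1, ?_, fun n => ?_, ?_, ?_, fun t₁ t₂ ht => ?_⟩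
  · rw [mul_div_assoc, Real.log_le_iff_le_exp (by exact_mod_cast hN1)]
    exact Nat.floor_le (Real.exp_pos _).le
  · rw [norm_mul, hinv, inv_mul_le_iff₀ hB0, mul_one]
    exact r1 n
  · calc ∑ n ∈ Icc 1 N, ‖((B⁻¹ : ℝ) : ℂ) * r n‖ ^ 2 / n ≤ ∑ n ∈ Icc 1 N, ‖r n‖ ^ 2 / n := by
          refine sum_le_sum fun n _ => div_le_div_of_nonneg_right ?_ (Nat.cast_nonneg n)
          rw [norm_mul, hinv]
          exact pow_le_pow_left₀ (by positivity) (mul_le_of_le_one_left (norm_nonneg _) hB2) 2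
      _ ≤ ∑ A ∈ P.powerset, ∏ p ∈ A, ‖ρ p‖ ^ 2 / p := by
          rw [r3]
          exact sum_le_sum_of_subset_of_nonneg (filter_subset _ _)
            fun A _ _ => prod_nonneg fun p _ => by positivity
      _ = ∏ p ∈ P, (1 + ‖ρ p‖ ^ 2 / p) := (prod_one_add _).symm
      _ ≤ ∏ p ∈ P, Real.exp (‖ρ p‖ ^ 2 / p) := prod_le_prod (fun p _ => by positivity)
          fun p _ => by linarith [Real.add_one_le_exp (‖ρ p‖ ^ 2 / p)]
      _ ≤ Real.exp Γ := by rw [← Real.exp_sum]; exact Real.exp_le_exp.2 hρ2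
  · have e1 : ∑ n ∈ Icc 1 N, cv b (cut (fun n => ((B⁻¹ : ℝ) : ℂ) * r n) N) n *
        (starRingEnd ℂ) (((B⁻¹ : ℝ) : ℂ) * r n) / n = ((B⁻¹ ^ 2 : ℝ) : ℂ) *
        ∑ n ∈ Icc 1 N, cv b (cut r N) n * (starRingEnd ℂ) (r n) / n := by
      rw [mul_sum]
      refine sum_congr rfl fun n _ => ?_
      have e2 : cv b (cut (fun n => ((B⁻¹ : ℝ) : ℂ) * r n) N) n =
          ((B⁻¹ : ℝ) : ℂ) * cv b (cut r N) n := by
        simp only [cv, LSeries.convolution_def, mul_sum]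
        refine sum_congr rfl fun q _ => ?_
        unfold cut
        split_ifs <;> ring
      rw [e2, map_mul, conj_ofReal, ofReal_pow]
      ring
    have e3 : ∑ A ∈ F, ∏ p ∈ A, (b p + ρ p) * (starRingEnd ℂ) (ρ p) / p =
        FF G (ee y ζ a) J 0 := by
      rw [hF, s3 J 0 P _ hmd]
      refine ARI.FF_congr J (fun j h1 h2 => ?_) 0
      funext c
      unfold ee
      rw [← md_filter ha hy h1 h2]
      refine es_congr (fun p hp => ?_) c
      obtain ⟨k1, k2⟩ := mem_filter.1 hp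
      have k3 := (hz j h1 h2).1
      have k4 := (hN.hσ j h1 h2).1.trans_le (hs j (mem_Icc.2 ⟨h1, h2⟩))
      rw [← md_filter ha hy h1 h2] at k3 k4
      have k5 : b p * (starRingEnd ℂ) (b p) / p = (g a p : ℝ) := by
        rw [mul_conj, normSq_eq_norm_sq, nb a (hPp p k1), g]
        push_cast
        rfl
      have k6 : ((∑ q ∈ (prs a 0 (J * y)).filter (fun p => md a y p = j), g a q : ℝ) : ℂ) ≠ 0 :=
        ofReal_ne_zero.2 k4.ne'
      rw [← k3, ofReal_div, ← k5]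
      simp only [hρ, k2, map_mul]
      field_simp
    rw [e1, r4, e3, mul_left_comm, re_ofReal_mul, ← mul_neg, div_eq_inv_mul, inv_pow]
    exact mul_le_mul_of_nonneg_left hmain (by positivity)
  · set S : ℕ → Finset ℕ := fun j => P.filter fun p => md a y p = j with hS
    have hS2 : ∀ j, ∑ p ∈ S j, ‖ρ p‖ ^ 2 / p ≤ Γ := fun j =>
      le_trans (sum_le_sum_of_subset_of_nonneg (filter_subset _ _) fun p _ _ => by positivity) hρ2
    obtain ⟨m1, m2⟩ := hmom S ρ (y / a) t₁ t₂ N (by positivity) hN1 (fun j p hp => by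
      obtain ⟨k1, k2⟩ := mem_filter.1 hp
      exact ⟨hPp p k1, k2 ▸ (md_mem ha hy k1).2.2, hρ1 p k1⟩) hS2 le_rfl ht
    have ht' : t₁ ≤ t₂ := by
      have : (0 : ℝ) ≤ N * (1 + Real.log N) := by
        have := Real.log_natCast_nonneg N
        positivity
      linarith
    have hpt : ∀ t : ℝ, max (‖dp (fun n => ((B⁻¹ : ℝ) : ℂ) * r n) N t‖ ^ 2 - C) 0 ≤
        δ / Cm * Psi G (fun j => ‖ds ρ (S j) t‖) J 0 := by
      intro t
      refine max_le ?_ (mul_nonneg (by positivity) (UI.psi_nonneg _ _ _ _))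
      have k1 := hui (fun j c => es (S j) (fun p => ρ p * np (1 / 2 + I * t) p) c)
        (fun j => ‖ds ρ (S j) t‖) (fun _ => norm_nonneg _) fun j c _ _ hc => by
          refine hes (S j) _ (le_trans (le_of_eq (sum_congr rfl fun p hp => ?_)) (hS2 j)) c hc
          have hp0 : (0 : ℝ) < p := by exact_mod_cast (hPp p (mem_filter.1 hp).1).pos
          rw [norm_mul, mul_pow, H10.norm_np, H10.re_s, ← Real.exp_nat_mul, ofReal_im, sub_zero,
            show ((2 : ℕ) : ℝ) * (-(1 / 2) * Real.log p) = -Real.log p by push_cast; ring,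
            Real.exp_neg, Real.exp_log hp0, div_eq_mul_inv]
      rw [← s3 J 0 P _ hmd, ← r2] at k1
      rw [H83.dp_smul, norm_mul, hinv]
      have k2 : (B⁻¹ * ‖dp r N t‖) ^ 2 ≤ ‖dp r N t‖ ^ 2 :=
        pow_le_pow_left₀ (by positivity) (mul_le_of_le_one_left (norm_nonneg _) hB2) 2
      linarith
    have hc : Continuous fun t : ℝ =>
        max (‖dp (fun n => ((B⁻¹ : ℝ) : ℂ) * r n) N t‖ ^ 2 - C) 0 :=
      (((H83.ds_cont _ _).norm.pow 2).sub continuous_const).max continuous_const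
    refine (intervalIntegral.integral_mono_on ht' (hc.intervalIntegrable _ _)
      ((m1.intervalIntegrable _ _).const_mul _) fun t _ => hpt t).trans ?_
    rw [intervalIntegral.integral_const_mul]
    refine (mul_le_mul_of_nonneg_left m2 (by positivity)).trans (le_of_eq ?_)
    field_simp

end Pool.Agent.MP_ca0a54_nt.P
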