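import Pool.Agent.MP_ca0a54_nt.P.Spec

/-!
Row CNT: the bad zeros are counted by small gaps.
-/

open Complex

namespace Pool.Agent.MP_ca0a54_nt.P

open Pool.Agent.MP_ca0a54_nt.L0

namespace CNT

/-- Orders at points with the same real part add up to at most `mult`. -/
theorem key (ho : OrdStmt) {x : ℝ} (hx : 0 < x) (F : Finset ℂ) (hF : ∀ w ∈ F, w.re = x) :
    ∑ w ∈ F, analyticOrderNatAt zf w ≤ mult x := by
  classical
  have hfin := (ho (x : ℂ) (by simpa using hx)).2.2.2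
  rw [Set.inter_comm, ofReal_re] at hfin
  have hm : mult x = ∑ ρ ∈ hfin.toFinset, analyticOrderNatAt riemannZeta ρ :=
    finsum_mem_eq_sum _ hfin
  have hinj : Function.Injective fun w : ℂ => 1 / 2 + I * w := by
    intro u v huv
    have h1 : I * u = I * v := add_left_cancel huv
    exact mul_left_cancel₀ I_ne_zero h1
  have h1 : ∑ w ∈ F, analyticOrderNatAt zf w =
      ∑ ρ ∈ F.image (fun w : ℂ => 1 / 2 + I * w), analyticOrderNatAt riemannZeta ρ := by
    rw [Finset.sum_image (fun u _ v _ h => hinj h)]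
    refine Finset.sum_congr rfl fun w hw => ?_
    exact (ho w (by rw [hF w hw]; exact hx)).2.1
  rw [h1, hm]
  refine Finset.sum_le_sum_of_ne_zero fun ρ hρ hne => ?_
  obtain ⟨w, hw, rfl⟩ := Finset.mem_image.1 hρ
  rw [Set.Finite.mem_toFinset]
  refine ⟨?_, hne⟩
  simp [hF w hw]

theorem re_bd {C T : ℝ} {Z : Multiset ℂ} {h : ℂ → ℂ} (hZ : FacM C T Z h) {ρ : ℂ} (hρ : ρ ∈ Z) :
    11 * T / 8 ≤ ρ.re ∧ ρ.re ≤ 13 * T / 8 := by
  have h1 := (hZ.loc ρ hρ).1
  have h2 := (abs_re_le_norm (ρ - ctr T)).trans h1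
  have h3 : (ρ - ctr T).re = ρ.re - 3 * T / 2 := by simp [ctr]
  rw [h3, abs_le] at h2
  constructor <;> linarith [h2.1, h2.2]

/-- Counts in `Z` at points with the same real part add up to at most `mult`. -/
theorem cnt_le (ho : OrdStmt) {C T : ℝ} {Z : Multiset ℂ} {h : ℂ → ℂ} (hZ : FacM C T Z h)
    {x : ℝ} (hx : 0 < x) (F : Finset ℂ) (hF : ∀ w ∈ F, w ∈ Z ∧ w.re = x) :
    ∑ w ∈ F, Z.count w ≤ mult x := by
  refine le_trans (le_of_eq ?_) (key ho hx F fun w hw => (hF w hw).2)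
  exact Finset.sum_congr rfl fun w hw => hZ.cnt w (hZ.loc w (hF w hw).1).1

theorem one_le (ho : OrdStmt) {C T : ℝ} {Z : Multiset ℂ} {h : ℂ → ℂ} (hZ : FacM C T Z h)
    (hT : 100 ≤ T) {ρ : ℂ} (hρ : ρ ∈ Z) : Z.count ρ ≤ mult ρ.re := by
  have hx : 0 < ρ.re := by linarith [(re_bd hZ hρ).1]
  have := cnt_le ho hZ hx {ρ} (by
    intro w hw
    rw [Finset.mem_singleton.1 hw]
    exact ⟨hρ, rfl⟩)
  simpa using this

open Classical in
/-- The good points. -/
noncomputable def gd (Z : Multiset ℂ) (a : ℝ) : Finset ℝ :=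
  (Z.toFinset.image Complex.re).filter fun u =>
    mult u = 1 ∧ (u : ℂ) ∈ Z ∧ ∀ x : ℝ, u - a ≤ x → x < u → mult x = 0

theorem mem_gd {Z : Multiset ℂ} {a u : ℝ} :
    u ∈ gd Z a ↔ mult u = 1 ∧ (u : ℂ) ∈ Z ∧ ∀ x : ℝ, u - a ≤ x → x < u → mult x = 0 := by
  classical
  unfold gd
  rw [Finset.mem_filter]
  refine ⟨fun h => h.2, fun h => ⟨?_, h⟩⟩
  exact Finset.mem_image.2 ⟨(u : ℂ), Multiset.mem_toFinset.2 h.2.1, ofReal_re u⟩

/-- The bad points. -/
noncomputable def bd (Z : Multiset ℂ) (a : ℝ) : Multiset ℂ :=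
  Z - (gd Z a).val.map (fun u : ℝ => (u : ℂ))

theorem gd_le (Z : Multiset ℂ) (a : ℝ) : (gd Z a).val.map (fun u : ℝ => (u : ℂ)) ≤ Z := by
  have hn : ((gd Z a).val.map (fun u : ℝ => (u : ℂ))).Nodup :=
    (gd Z a).nodup.map ofReal_injective
  rw [Multiset.le_iff_subset hn]
  intro w hw
  obtain ⟨u, hu, rfl⟩ := Multiset.mem_map.1 hw
  exact (mem_gd.1 hu).2.1

theorem bd_le (Z : Multiset ℂ) (a : ℝ) : bd Z a ≤ Z := tsub_le_self

theorem split (ho : OrdStmt) {C T a : ℝ} {Z : Multiset ℂ} {h : ℂ → ℂ} (hZ : FacM C T Z h)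
    (hT : 100 ≤ T) : Split Z a (gd Z a) (bd Z a) := by
  have he : Z = (gd Z a).val.map (fun u : ℝ => (u : ℂ)) + bd Z a :=
    (add_tsub_cancel_of_le (gd_le Z a)).symm
  refine ⟨he, ?_, ?_⟩
  · have h1 := hZ.sym
    have h2 : ((gd Z a).val.map (fun u : ℝ => (u : ℂ))).map (starRingEnd ℂ) =
        (gd Z a).val.map (fun u : ℝ => (u : ℂ)) := by
      rw [Multiset.map_map]
      exact Multiset.map_congr rfl fun u _ => conj_ofReal u
    have h3 : Z.map (starRingEnd ℂ) = (gd Z a).val.map (fun u : ℝ => (u : ℂ)) +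
        (bd Z a).map (starRingEnd ℂ) := by
      conv_lhs => rw [he]
      rw [Multiset.map_add, h2]
    rw [h1] at h3
    exact (add_left_cancel (he.symm.trans h3)).symm
  · intro u hu x hx1 hx2
    obtain ⟨hu1, hu2, hu3⟩ := mem_gd.1 hu
    rcases hx2.lt_or_eq with hlt | heq
    · have h0 := hu3 x hx1 hlt
      constructor
      · intro hb
        have hz : (x : ℂ) ∈ Z := Multiset.mem_of_le (bd_le Z a) hb
        have h1 := one_le ho hZ hT hz
        rw [ofReal_re, h0] at h1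
        have h2 := Multiset.one_le_count_iff_mem.2 hz
        omega
      · intro hxU
        have := (mem_gd.1 hxU).1
        omega
    · subst heq
      refine ⟨?_, fun _ => rfl⟩
      intro hb
      have h1 := one_le ho hZ hT hu2
      rw [ofReal_re, hu1] at h1
      have h2 := Multiset.one_le_count_iff_mem.2 hb
      have h3 : 1 ≤ ((gd Z a).val.map (fun u : ℝ => (u : ℂ))).count (x : ℂ) :=
        Multiset.one_le_count_iff_mem.2 (Multiset.mem_map.2 ⟨x, hu, rfl⟩)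
      have h4 := congrArg (Multiset.count (x : ℂ)) he
      rw [Multiset.count_add] at h4
      omega

theorem bad (ho : OrdStmt) {C T a : ℝ} {Z : Multiset ℂ} {h : ℂ → ℂ} (hZ : FacM C T Z h)
    (hT : 100 ≤ T) (ha : 0 < a) {ρ : ℂ} (hρ : ρ ∈ bd Z a) :
    2 ≤ mult ρ.re ∨ ∃ y : ℝ, ρ.re - a ≤ y ∧ y < ρ.re ∧ mult y ≠ 0 := by
  classical
  by_contra hcon
  rw [not_or, not_le] at hcon
  obtain ⟨h2, h0⟩ := hcon
  have h0' : ∀ y : ℝ, ρ.re - a ≤ y → y < ρ.re → mult y = 0 := by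
    intro y hy1 hy2
    by_contra hne
    exact h0 ⟨y, hy1, hy2, hne⟩
  have hz : ρ ∈ Z := Multiset.mem_of_le (bd_le Z a) hρ
  have hz' : (starRingEnd ℂ) ρ ∈ Z := by
    rw [← hZ.sym]
    exact Multiset.mem_map.2 ⟨ρ, hz, rfl⟩
  have hx : 0 < ρ.re := by linarith [(re_bd hZ hz).1]
  have hc : (starRingEnd ℂ) ρ = ρ := by
    by_contra hne
    have h3 := cnt_le ho hZ hx {(starRingEnd ℂ) ρ, ρ} (by
      intro w hw
      rcases Finset.mem_insert.1 hw with rfl | hw
      · exact ⟨hz', conj_re ρ⟩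
      · rw [Finset.mem_singleton.1 hw]
        exact ⟨hz, rfl⟩)
    rw [Finset.sum_pair hne] at h3
    have h4 := Multiset.one_le_count_iff_mem.2 hz
    have h5 := Multiset.one_le_count_iff_mem.2 hz'
    omega
  have hr : (ρ.re : ℂ) = ρ := conj_eq_iff_re.1 hc
  have h6 := one_le ho hZ hT hz
  have h7 := Multiset.one_le_count_iff_mem.2 hz
  have hU : ρ.re ∈ gd Z a := mem_gd.2 ⟨by omega, by rw [hr]; exact hz, h0'⟩
  have := ((split ho hZ hT).good ρ.re hU ρ.re (by linarith) le_rfl).1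
  rw [hr] at this
  exact this hρ

theorem card_le (ho : OrdStmt) {C T : ℝ} {Z : Multiset ℂ} {h : ℂ → ℂ} (hZ : FacM C T Z h)
    (hT : 100 ≤ T) (B : Multiset ℂ) (hB : B ≤ Z) :
    B.card ≤ ∑ x ∈ B.toFinset.image Complex.re, mult x := by
  classical
  rw [← Multiset.toFinset_sum_count_eq B,
    ← Finset.sum_fiberwise_of_maps_to (g := Complex.re) (t := B.toFinset.image Complex.re)
      (fun w hw => Finset.mem_image_of_mem _ hw)]
  refine Finset.sum_le_sum fun x hx => ?_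
  obtain ⟨ρ, hρ, rfl⟩ := Finset.mem_image.1 hx
  have hz : ρ ∈ Z := Multiset.mem_of_le hB (Multiset.mem_toFinset.1 hρ)
  have hx0 : 0 < ρ.re := by linarith [(re_bd hZ hz).1]
  refine le_trans (Finset.sum_le_sum fun w _ => Multiset.count_le_of_le w hB)
    (cnt_le ho hZ hx0 _ fun w hw => ?_)
  rw [Finset.mem_filter] at hw
  exact ⟨Multiset.mem_of_le hB (Multiset.mem_toFinset.1 hw.1), hw.2⟩

theorem fib {γ : ℕ → ℝ} (hγ : Listing γ) {x : ℝ} (hx : 0 < x) :
    ∃ F : Finset ℕ, F.card = mult x ∧ ∀ n, n ∈ F ↔ γ n = x := by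
  have h1 := hγ.2.2 x hx
  have hfin : {n | γ n = x}.Finite := Set.finite_of_encard_eq_coe h1
  refine ⟨hfin.toFinset, ?_, fun n => by simp⟩
  have h2 := hfin.encard_eq_coe_toFinset_card
  rw [h1] at h2
  exact_mod_cast h2.symm

end CNT

open CNT in
theorem cnt : OrdStmt → CntStmt := by
  classical
  intro ho γ hγ C T a g Z h hT ha hag hg hZ
  have hfib : ∀ x : ℝ, ∃ F : Finset ℕ, 0 < x → F.card = mult x ∧ ∀ n, n ∈ F ↔ γ n = x := by
    intro x
    by_cases hx : 0 < x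
    · obtain ⟨F, hF⟩ := fib hγ hx
      exact ⟨F, fun _ => hF⟩
    · exact ⟨∅, fun h => absurd h hx⟩
  choose F hF using hfib
  set X := (bd Z a).toFinset.image Complex.re with hX
  have hXb : ∀ x ∈ X, 11 * T / 8 ≤ x ∧ x ≤ 13 * T / 8 ∧
      (2 ≤ mult x ∨ ∃ y : ℝ, x - a ≤ y ∧ y < x ∧ mult y ≠ 0) := by
    intro x hx
    obtain ⟨ρ, hρ, rfl⟩ := Finset.mem_image.1 hx
    have hρ' := Multiset.mem_toFinset.1 hρ
    have hz : ρ ∈ Z := Multiset.mem_of_le (bd_le Z a) hρ'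
    exact ⟨(re_bd hZ hz).1, (re_bd hZ hz).2, bad ho hZ hT ha hρ'⟩
  have hXp : ∀ x ∈ X, 0 < x := fun x hx => by linarith [(hXb x hx).1]
  set J := X.biUnion F with hJ
  have hcard : J.card = ∑ x ∈ X, mult x := by
    rw [hJ, Finset.card_biUnion]
    · exact Finset.sum_congr rfl fun x hx => (hF x (hXp x hx)).1
    · intro x hx y hy hxy
      rw [Function.onFun, Finset.disjoint_left]
      intro n hn hn'
      exact hxy ((((hF x (hXp x hx)).2 n).1 hn).symm.trans (((hF y (hXp y hy)).2 n).1 hn'))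
  set S := (J ∪ J.image (· - 1)).filter
    fun n => T ≤ γ n ∧ γ (n + 1) ≤ 2 * T ∧ γ (n + 1) - γ n < g with hS
  refine ⟨gd Z a, bd Z a, S, split ho hZ hT, ?_, fun n hn => (Finset.mem_filter.1 hn).2⟩
  have hsub : J ⊆ S ∪ S.image (· + 1) := by
    intro n hn
    obtain ⟨x, hx, hnx⟩ := Finset.mem_biUnion.1 hn
    have hx0 := hXp x hx
    have hn' : γ n = x := ((hF x hx0).2 n).1 hnx
    obtain ⟨hx1, hx2, hx3⟩ := hXb x hx
    have down : ∀ m, m < n → x - a ≤ γ m → n ∈ S ∪ S.image (· + 1) := by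
      intro m hm hm2
      obtain ⟨k, rfl⟩ : ∃ k, n = k + 1 := ⟨n - 1, by omega⟩
      refine Finset.mem_union_right _ (Finset.mem_image.2 ⟨k, ?_, rfl⟩)
      have hk : γ m ≤ γ k := hγ.1 (by omega)
      refine Finset.mem_filter.2 ⟨Finset.mem_union_right _
        (Finset.mem_image.2 ⟨k + 1, hn, by simp⟩), ?_, ?_, ?_⟩ <;> linarith
    rcases hx3 with h2 | ⟨y, hy1, hy2, hy3⟩
    · obtain ⟨m, hm, hmn⟩ := Finset.exists_mem_ne (s := F x)
        (by rw [(hF x hx0).1]; omega) n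
      have hm' : γ m = x := ((hF x hx0).2 m).1 hm
      rcases lt_or_gt_of_ne hmn with hlt | hgt
      · exact down m hlt (by linarith)
      · have h3 : γ (n + 1) ≤ γ m := hγ.1 (by omega)
        refine Finset.mem_union_left _ (Finset.mem_filter.2
          ⟨Finset.mem_union_left _ hn, ?_, ?_, ?_⟩) <;> linarith
    · have hy0 : 0 < y := by linarith
      obtain ⟨m, hm⟩ : (F y).Nonempty := by
        rw [← Finset.card_pos, (hF y hy0).1]
        omega
      have hm' : γ m = y := ((hF y hy0).2 m).1 hm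
      have hlt : m < n := by
        by_contra hge
        have h3 : γ n ≤ γ m := hγ.1 (by omega)
        linarith
      exact down m hlt (by linarith)
  have h1 := card_le ho hZ hT (bd Z a) (bd_le Z a)
  have h2 := Finset.card_le_card hsub
  have h3 := Finset.card_union_le S (S.image (· + 1))
  have h4 : (S.image (· + 1)).card ≤ S.card := Finset.card_image_le
  rw [← hX, ← hcard] at h1
  omega

end Pool.Agent.MP_ca0a54_nt.P
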