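import Pool.Agent.MP_ca0a54_nt.P.Spec
import Pool.Agent.MP_ca0a54_nt.H83.PQ
import Pool.Agent.MP_ca0a54_nt.H40.MVT

/-! Row CORE: there are many bad points. -/

open Complex MeasureTheory Filter Topology

namespace Pool.Agent.MP_ca0a54_nt.P

open Pool.Agent.MP_ca0a54_nt.L0 Pool.Agent.MP_ca0a54_nt.H24 Pool.Agent.MP_ca0a54_nt.H10
open Pool.Agent.MP_ca0a54_nt.H83

namespace CORE

theorem gauss_ge : 1 ≤ ∫ x : ℝ, Real.exp (-x ^ 2) := by
  have h := integral_gaussian 1
  simp only [neg_mul, one_mul, div_one] at h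
  rw [h, Real.one_le_sqrt]
  linarith [Real.pi_gt_three]

theorem pz_diff (B : Multiset ℂ) : Differentiable ℂ (pz B) := by
  induction B using Multiset.induction_on with
  | empty => exact differentiable_const (1 : ℂ)
  | cons ρ B ih =>
    have : pz (ρ ::ₘ B) = fun w => (w - ρ) * pz B w := by
      funext w
      simp [pz]
    rw [this]
    fun_prop

theorem pz_shift (B : Multiset ℂ) (a z : ℂ) : pz (B.map fun ρ => ρ - a) z = pz B (z + a) := by
  unfold pz
  rw [Multiset.map_map]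
  congr 2
  funext ρ
  simp only [Function.comp]
  ring

/-- The pointwise cost of the factor `k`. -/
theorem cost {e p r : ℂ} {k κ lam C : ℝ} (he : ‖e‖ ≤ 1) (hk0 : 0 ≤ k) (hk1 : k ≤ 1) (hκ : 0 ≤ κ)
    (hl : 0 < lam) :
    -(e * (p * k * (starRingEnd ℂ) r)).im + κ * ((‖p * k‖ ^ 2 + ‖r‖ ^ 2) / 2) ≤
      -(e * (p * (starRingEnd ℂ) r)).im + (κ + 2 * lam) * ((‖p‖ ^ 2 + ‖r‖ ^ 2) / 2) +
        1 / (4 * lam) * (max (‖r‖ ^ 2 - C) 0 + |C| * (1 - k)) := by
  have e1 : (e * (p * k * (starRingEnd ℂ) r)).im = (e * (p * (starRingEnd ℂ) r)).im * k := by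
    rw [← Complex.im_mul_ofReal]
    congr 1
    ring
  have e2 : (e * (p * (starRingEnd ℂ) r)).im ≤ ‖p‖ * ‖r‖ := by
    refine (le_abs_self _).trans ((Complex.abs_im_le_norm _).trans ?_)
    rw [norm_mul, norm_mul, Complex.norm_conj]
    exact mul_le_of_le_one_left (by positivity) he
  have e3 : ‖p * k‖ ^ 2 ≤ ‖p‖ ^ 2 := by
    rw [norm_mul, Complex.norm_real, Real.norm_of_nonneg hk0]
    exact pow_le_pow_left₀ (by positivity) (mul_le_of_le_one_right (norm_nonneg _) hk1) 2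
  have e4 : (‖r‖ * (1 - k)) ^ 2 ≤ max (‖r‖ ^ 2 - C) 0 + |C| * (1 - k) := by
    have a1 := le_max_left (‖r‖ ^ 2 - C) 0
    have a2 := le_max_right (‖r‖ ^ 2 - C) 0
    have a3 := le_abs_self C
    have a4 : ‖r‖ ^ 2 * (1 - k) ≤ (max (‖r‖ ^ 2 - C) 0 + |C|) * (1 - k) :=
      mul_le_mul_of_nonneg_right (by linarith) (by linarith)
    have a5 : ‖r‖ ^ 2 * (1 - k) * (1 - k) ≤ ‖r‖ ^ 2 * (1 - k) :=
      mul_le_of_le_one_right (mul_nonneg (by positivity) (by linarith)) (by linarith)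
    nlinarith [mul_nonneg a2 hk0]
  have e5 : ‖p‖ * (‖r‖ * (1 - k)) ≤ lam * ‖p‖ ^ 2 + 1 / (4 * lam) * (‖r‖ * (1 - k)) ^ 2 := by
    have : lam * ‖p‖ ^ 2 + 1 / (4 * lam) * (‖r‖ * (1 - k)) ^ 2 - ‖p‖ * (‖r‖ * (1 - k)) =
        1 / (4 * lam) * (2 * lam * ‖p‖ - ‖r‖ * (1 - k)) ^ 2 := by
      field_simp
      ring
    have h2 : 0 ≤ 1 / (4 * lam) * (2 * lam * ‖p‖ - ‖r‖ * (1 - k)) ^ 2 := by positivity
    linarith
  have e6 := mul_le_mul_of_nonneg_left e4 (show 0 ≤ 1 / (4 * lam) by positivity)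
  have e7 := mul_le_mul_of_nonneg_right e2 (show 0 ≤ 1 - k by linarith)
  have e8 := mul_le_mul_of_nonneg_left e3 hκ
  have e9 : 0 ≤ lam * ‖r‖ ^ 2 := by positivity
  rw [e1]
  nlinarith

/-- The mean of the majorant, with a main term of either sign. -/
theorem mean {e : ℂ} {κ : ℝ} {P R : ℝ → ℂ} (hP : Continuous P) (hR : Continuous R)
    {s₁ s₂ E μ m X : ℝ} {S₁ S₂ S₃ : ℂ} (he : ‖e‖ ≤ 1) (hκ : 0 ≤ κ) (hX : 0 ≤ X)
    (hs : s₂ - s₁ = X) (hm : 0 ≤ m)
    (h1 : ‖(∫ s in s₁..s₂, P s * (starRingEnd ℂ) (R s)) - ((s₂ - s₁ : ℝ) : ℂ) * S₁‖ ≤ E)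
    (h2 : ‖(∫ s in s₁..s₂, P s * (starRingEnd ℂ) (P s)) - ((s₂ - s₁ : ℝ) : ℂ) * S₂‖ ≤ E)
    (h3 : ‖(∫ s in s₁..s₂, R s * (starRingEnd ℂ) (R s)) - ((s₂ - s₁ : ℝ) : ℂ) * S₃‖ ≤ E)
    (g1 : μ ≤ (e * S₁).im) (g2 : S₂.re ≤ m) (g3 : S₃.re ≤ m) :
    ∫ s in s₁..s₂, Hf e κ P R s ≤ -(X * μ) + 2 * E + κ * (X * m + E) := by
  have a0 := Hf_mean (e := 0) (κ := κ) (CS := 0) (T := X) hP hR (by simp) hκ (by linarith) hs.le
    le_rfl hm h1 h2 h3 (by simp) g2 g3
  have i1 : IntervalIntegrable (fun s => -(e * (P s * (starRingEnd ℂ) (R s))).im) volume s₁ s₂ :=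
    Continuous.intervalIntegrable (by fun_prop) _ _
  have e0 : Hf e κ P R = fun s => -(e * (P s * (starRingEnd ℂ) (R s))).im + Hf 0 κ P R s := by
    funext s
    simp [Hf]
  have e1 := (Complex.imCLM.intervalIntegral_comp_comm
    (f := fun s => e * (P s * (starRingEnd ℂ) (R s)))
    (μ := volume) (a := s₁) (b := s₂) (Continuous.intervalIntegrable (by fun_prop) _ _))
  simp only [Complex.imCLM_apply] at e1
  rw [e0, intervalIntegral.integral_add i1 ((Hf_cont 0 κ hP hR).intervalIntegrable _ _),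
    intervalIntegral.integral_neg, e1, intervalIntegral.integral_const_mul]
  set I₁ := ∫ s in s₁..s₂, P s * (starRingEnd ℂ) (R s)
  have b1 : (e * I₁).im = (s₂ - s₁) * (e * S₁).im + (e * (I₁ - ((s₂ - s₁ : ℝ) : ℂ) * S₁)).im := by
    rw [← Complex.im_ofReal_mul, ← Complex.add_im]
    congr 1
    ring
  have b2 : |(e * (I₁ - ((s₂ - s₁ : ℝ) : ℂ) * S₁)).im| ≤ E := by
    refine (Complex.abs_im_le_norm _).trans ?_
    rw [norm_mul]
    exact (mul_le_of_le_one_left (norm_nonneg _) he).trans h1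
  have b3 := (abs_le.1 b2).1
  have b4 : X * μ ≤ (s₂ - s₁) * (e * S₁).im := hs ▸ mul_le_mul_of_nonneg_left g1 (hs ▸ hX)
  linarith

/-- The averaging argument. -/
theorem avg {e : ℂ} {κ lam μ C τ t₁ X B B' : ℝ} {P R : ℝ → ℂ} {k : ℝ → ℝ} (hP : Continuous P)
    (hR : Continuous R) (hk : Continuous k) (hPb : ∀ s, ‖P s‖ ≤ B) (hRb : ∀ s, ‖R s‖ ≤ B')
    (hk0 : ∀ s, 0 ≤ k s) (hk1 : ∀ s, k s ≤ 1) (he : ‖e‖ ≤ 1) (hκ : 0 ≤ κ) (hl : 0 < lam)
    (hμ : 0 < μ) (hX : 0 < X) (hτ : τ < μ / 2)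
    (low : ∀ t ∈ Set.Icc t₁ (t₁ + X),
      -τ ≤ ∫ x : ℝ, Hf e κ (fun s => P s * k s) R (t + x) * Real.exp (-x ^ 2))
    (m1 : ∀ s, ∫ u in s..(s + X), Hf e (κ + 2 * lam) P R u ≤ -(3 / 4 * μ * X))
    (m2 : ∀ s, ∫ u in s..(s + X), max (‖R u‖ ^ 2 - C) 0 ≤ lam * μ / 2 * X)
    (m3 : ∀ s, |C| * ∫ u in s..(s + X), (1 - k u) ≤ lam * μ / 2 * X) : False := by
  have hc : Continuous fun s => P s * k s := by fun_prop
  have hb : ∀ s, ‖P s * k s‖ ≤ B := fun s => by
    rw [norm_mul, Complex.norm_real, Real.norm_of_nonneg (hk0 s)]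
    exact (mul_le_of_le_one_right (norm_nonneg _) (hk1 s)).trans (hPb s)
  have c1 := Hf_cont e κ hc hR
  have b1 := Hf_bd e κ hb hRb
  have c2 := Hf_cont e (κ + 2 * lam) hP hR
  have c3 : Continuous fun u => max (‖R u‖ ^ 2 - C) 0 := by fun_prop
  have c4 : Continuous fun u => 1 - k u := by fun_prop
  obtain ⟨gi, gm⟩ := gs_avg (H := fun s => Hf e κ (fun s => P s * k s) R s + μ / 2)
    (c1.add continuous_const) (fun s => (abs_add_le _ _).trans (add_le_add (b1 s) le_rfl))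
    (t₁ := t₁) (t₂ := t₁ + X) le_rfl fun x => by
      rw [add_right_comm]
      set s := t₁ + x
      have h1 : ∫ u in s..(s + X), (Hf e κ (fun s => P s * k s) R u + μ / 2) ≤
          ∫ u in s..(s + X), (Hf e (κ + 2 * lam) P R u +
            1 / (4 * lam) * (max (‖R u‖ ^ 2 - C) 0 + |C| * (1 - k u)) + μ / 2) :=
        intervalIntegral.integral_mono_on (by linarith)
          ((c1.add continuous_const).intervalIntegrable _ _)
          (Continuous.intervalIntegrable (by fun_prop) _ _) fun u _ =>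
          add_le_add (cost he (hk0 u) (hk1 u) hκ hl) le_rfl
      refine h1.trans ?_
      rw [intervalIntegral.integral_add (Continuous.intervalIntegrable (by fun_prop) _ _)
          intervalIntegrable_const, intervalIntegral.integral_add (c2.intervalIntegrable _ _)
          (Continuous.intervalIntegrable (by fun_prop) _ _), intervalIntegral.integral_const_mul,
        intervalIntegral.integral_add (c3.intervalIntegrable _ _)
          (Continuous.intervalIntegrable (by fun_prop) _ _), intervalIntegral.integral_const_mul,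
        intervalIntegral.integral_const, add_sub_cancel_left, smul_eq_mul]
      have h2 := mul_le_mul_of_nonneg_left (add_le_add (m2 s) (m3 s))
        (show 0 ≤ 1 / (4 * lam) by positivity)
      have h3 : 1 / (4 * lam) * (lam * μ / 2 * X + lam * μ / 2 * X) = μ * X / 4 := by
        field_simp
        ring
      linarith [m1 s]
  have h4 : ∫ _ in t₁..(t₁ + X), (μ / 2 - τ) ≤ _ :=
    intervalIntegral.integral_mono_on (by linarith) intervalIntegrable_const gi fun t ht => by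
      simp only [add_mul]
      rw [integral_add (gs_intR c1 b1 t) (H83.gauss_int.const_mul _), integral_const_mul]
      have := mul_le_mul_of_nonneg_left gauss_ge (show 0 ≤ μ / 2 by positivity)
      linarith [low t ht]
  rw [intervalIntegral.integral_const, add_sub_cancel_left, smul_eq_mul] at h4
  have := mul_pos hX (sub_pos.2 hτ)
  linarith

theorem phase (φ : ℝ) (S : ℂ) :
    (exp (-I * ((Real.pi + 2 * φ) / 2 : ℝ)) * S).im = -(exp (-I * φ) * S).re := by
  have : exp (-I * ((Real.pi + 2 * φ) / 2 : ℝ)) = -I * exp (-I * φ) := by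
    have h : exp (-(Real.pi : ℂ) / 2 * I + -I * φ) = -I * exp (-I * φ) := by
      rw [Complex.exp_add, Complex.exp_neg_pi_div_two_mul_I]
    rw [← h]
    congr 1
    push_cast
    ring
  rw [this, mul_assoc]
  simp

theorem ev_a {ab : ℝ} (hab : 0 < ab) :
    Tendsto (fun T : ℝ => ab / Real.log T) atTop (𝓝[>] 0) := by
  refine tendsto_nhdsWithin_iff.2 ⟨Real.tendsto_log_atTop.const_div_atTop ab, ?_⟩
  filter_upwards [eventually_gt_atTop (1 : ℝ)] with T hT
  exact div_pos hab (Real.log_pos hT)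

end CORE

open CORE in
theorem core : LinStmt → QkStmt → SgStmt → TrigStmt → Ar3Stmt → CoreStmt := by
  rintro hLin hQ hS hK ⟨CA, hCA, hA3⟩ φ Y hφ0 hφ1 hY ⟨μ, W, hμ, hAr⟩ C hC
  obtain ⟨Km, hKm, hM⟩ := H40.mvt
  obtain ⟨C', hC', hLin⟩ := hLin C hC
  set ab := Real.pi + 2 * φ with hab
  have hab3 : 3 ≤ ab := by linarith [Real.pi_gt_three]
  have hab4 : ab ≤ 4 := by linarith [Real.pi_lt_d2]
  have hab0 : 0 < ab := by linarith
  obtain ⟨ε, hε, hε1, hεY⟩ : ∃ ε : ℝ, 0 < ε ∧ ε ≤ 1 / 2 ∧ Y / ab ≤ 1 - ε :=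
    ⟨min (1 / 2) (1 - Y / ab), lt_min (by norm_num) (sub_pos.2 ((div_lt_one hab0).2 hY)),
      min_le_left _ _, by linarith [min_le_right (1 / 2) (1 - Y / ab)]⟩
  set m := CA * |W| with hm
  have hm0 : 0 ≤ m := by positivity
  set lam := μ / (24 * (m + 1)) with hlam
  have hl0 : 0 < lam := by positivity
  obtain ⟨D, hAr⟩ := hAr (lam * μ / 2) (by positivity)
  set η := min (μ / 16) 1 with hη
  have hη0 : 0 < η := lt_min (by positivity) one_pos
  refine ⟨lam * μ / 2 * ε / (5120 * (|D| + 1)), by positivity, ?_⟩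
  have hτ : ∀ᶠ T : ℝ in atTop, C' * T ^ (-(ε / 2)) < μ / 2 := by
    have := (tendsto_rpow_neg_atTop (show 0 < ε / 2 by positivity)).const_mul C'
    rw [mul_zero] at this
    exact this.eventually (gt_mem_nhds (by positivity))
  filter_upwards [hLin ε hε hε1, hQ ε hε hε1, (ev_a hab0).eventually hAr,
    ev_err (Km * CA * CA * (20 / η)) ε hε, ev_err 20 ε hε, hτ, eventually_ge_atTop (640 : ℝ),
    Real.tendsto_log_atTop.eventually_ge_atTop 1,
    Real.tendsto_log_atTop.eventually_ge_atTop (4 / ε),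
    Real.tendsto_log_atTop.eventually_ge_atTop (C' ^ 2 / lam)]
    with T hLin hQ hAr hE hE2 hτ hT hL1 hL2 hL3 Z B h U hF hSp
  obtain ⟨r, N, n1, nY, hr1, hr2, hmain, hUI⟩ := hAr
  by_contra hB
  rw [not_le] at hB
  have hT0 : 0 < T := by linarith
  set L := Real.log T with hL
  have hL0 : 0 < L := by linarith
  rw [div_le_iff₀ hε] at hL2
  obtain ⟨-, -, n3, n4, -, n6, n7⟩ := floors (by linarith : 1 ≤ T) hε hε1 (by linarith)
  set N₂ := ⌊T ^ (1 - ε / 2)⌋₊ with hN₂
  set a := ab / L with ha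
  have ha0 : 0 < a := by positivity
  have ha4 : a ≤ 4 / L := div_le_div_of_nonneg_right hab4 hL0.le
  have n1' : (1 : ℝ) ≤ N := by exact_mod_cast n1
  have n2 : (N : ℝ) ≤ T ^ (1 - ε) := by
    rw [Real.rpow_def_of_pos hT0, ← Real.log_le_iff_le_exp (by linarith)]
    refine nY.trans ?_
    rw [ha, div_div_eq_mul_div, mul_comm Y, mul_div_assoc]
    exact mul_le_mul_of_nonneg_left hεY hL0.le
  have n8 : N ≤ ⌊T ^ (1 - ε)⌋₊ := Nat.le_floor n2
  have n9 : Real.log N + ε * L / 4 ≤ Real.log N₂ :=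
    le_trans (add_le_add (Real.log_le_log (by linarith) (Nat.cast_le.2 n8)) le_rfl) n3
  have n10 : N ≤ N₂ := n8.trans n6
  set c := cv (rc 0 (I * a)) (cut r N) with hc
  obtain ⟨hc1, hc2⟩ := hA3 L ab |W| N N₂ r hL1 hab0.le hab4 n7 hr1 (hr2.trans (le_abs_self W))
  set X := T / 20 with hX
  have hX0 : 0 < X := by positivity
  set n := ⌊ε * L * X / (32 * Real.pi)⌋₊ with hn
  have hπ := Real.pi_pos
  have k1 : ε * L * T / 2560 ≤ ε * L * X / (32 * Real.pi) := by
    rw [hX, div_le_div_iff₀ (by norm_num) (by positivity)]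
    have := mul_le_mul_of_nonneg_left Real.pi_le_four (show 0 ≤ ε * L * T by positivity)
    linarith only [this]
  have k2 : 1 ≤ ε * L * T / 2560 := by
    rw [le_div_iff₀ (by norm_num)]
    have := mul_le_mul hL2 hT (by norm_num) (by positivity)
    linarith only [this]
  have k3 : 0 < n := Nat.floor_pos.2 (k2.trans k1)
  have k4 : ε * L * T / 5120 ≤ n := by
    have h1 := Nat.lt_floor_add_one (ε * L * X / (32 * Real.pi))
    have h2 : (1 : ℝ) ≤ n := by exact_mod_cast k3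
    linarith
  have k5 : 2 * Real.pi * n / X ≤ ε * L / 16 := by
    have h1 : (n : ℝ) ≤ ε * L * X / (32 * Real.pi) := Nat.floor_le (by positivity)
    rw [le_div_iff₀ (by positivity)] at h1
    rw [div_le_iff₀ hX0]
    linarith
  obtain ⟨K, K₁, K1, K2, K3, K4, K5, K6⟩ := hK (B.map fun ρ => ρ - (a : ℂ)) X n hX0 k3
  have Kd : Differentiable ℂ K := by
    rw [show K = fun z => pz (B.map fun ρ => ρ - (a : ℂ)) z * K₁ z from funext K2]
    exact (pz_diff _).mul K1
  have K7 : ∀ z, ‖K z‖ ≤ Real.exp (ε * L / 16 * |z.im|) := fun z =>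
    (K4 z).trans (Real.exp_le_exp.2 (mul_le_mul_of_nonneg_right k5 (abs_nonneg _)))
  have Kb : Bd K (-(1 / 2 + ε / 8)) (1 / 2 + ε / 8) :=
    ⟨Kd.differentiableOn, Real.exp (ε * L / 16 * (1 / 2 + ε / 8)), (Real.exp_pos _).le,
      fun z hz => (K7 z).trans (Real.exp_le_exp.2
        (mul_le_mul_of_nonneg_left (abs_le.2 hz) (by positivity)))⟩
  set k : ℝ → ℝ := fun s => (K s).re with hk
  have Kr : ∀ s : ℝ, K s = (k s : ℂ) := fun s => by
    have := K3 s
    rw [conj_ofReal] at this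
    exact (Complex.conj_eq_iff_re.1 this).symm
  have kc : Continuous k := Complex.continuous_re.comp (Kd.continuous.comp continuous_ofReal)
  have k6 : ∀ s, k s ≤ 1 := fun s => (Complex.re_le_norm _).trans (by simpa using K7 s)
  set e : ℂ := exp (-I * (ab / 2 : ℝ)) with he
  have he1 : ‖e‖ ≤ 1 := by
    rw [he, Complex.norm_exp]
    simp
  set P : ℝ → ℂ := fun s => dp c N₂ s with hPdef
  set R : ℝ → ℂ := fun s => dp r N s with hRdef
  have hPc : Continuous P := ds_cont _ _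
  have hRc : Continuous R := ds_cont _ _
  have hPb : ∀ s, ‖P s‖ ≤ _ := ds_bd c (Finset.Icc 1 N₂)
  have hRb : ∀ s, ‖R s‖ ≤ _ := ds_bd r (Finset.Icc 1 N)
  have hκ0 : 0 ≤ C' ^ 2 / L := by positivity
  have hκ1 : C' ^ 2 / L ≤ lam := by
    rw [div_le_iff₀ hl0] at hL3
    rw [div_le_iff₀ hL0]
    linarith
  refine avg (t₁ := 3 * T / 2 - T / 40) (C := D) hPc hRc kc hPb hRb K5 k6 he1 hκ0 hl0 hμ hX0 hτ
    (fun t ht => ?_) (fun s => ?_) (fun s => ?_) fun s => ?_
  · obtain ⟨ϑ, t1, t2, t3, happ⟩ := hLin a t Z h ha0 ha4 hF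
      (abs_le.2 ⟨by linarith [ht.1], by linarith [ht.2]⟩)
    have hq := hQ N N₂ n1 n2 n9 t _ K _ r hr1 Kd K7 happ
    have hs := hS Z B U a (1 / 2 + ε / 8) t K K₁ (fun z => dp r N z * Rs r N z) ha0 (by positivity)
      hSp (fun ρ hρ => lt_of_le_of_lt (hF.loc ρ (by
        rw [hSp.eq]; exact Multiset.mem_add.2 (Or.inr hρ))).2 (by linarith)) K1
      (fun z => by rw [K2, pz_shift]) Kb ((bd_dp _ _ _ _).mul (bd_Rs _ _ _ _)) K3
      (fun z => by rw [map_mul, conj_dp, conj_Rs, mul_comm]) K5 fun x => by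
        have := conj_dp r N x
        rw [conj_ofReal] at this
        rw [← this, Complex.mul_conj, Complex.ofReal_re]
        exact Complex.normSq_nonneg _
    have e1 : a * L / 2 = ab / 2 := by
      rw [ha]
      field_simp
    rw [e1] at t3
    have hb : ∀ s, ‖P s * k s‖ ≤ ∑ n ∈ Finset.Icc 1 N₂, ‖c n‖ := fun s => by
      rw [norm_mul, Complex.norm_real, Real.norm_of_nonneg (K5 s)]
      exact (mul_le_of_le_one_right (norm_nonneg _) (k6 s)).trans (hPb s)
    have := pt_bound (t := t) (P := fun s => P s * k s) (by fun_prop) hRc hb hRb hC' hL0 t1 t2 t3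
      (neg_nonneg.2 hs) (Real.rpow_nonneg hT0.le (-(ε / 2))) (by
        rw [neg_neg, ← Complex.sub_im]
        refine (Complex.abs_im_le_norm _).trans (le_trans (le_of_eq ?_) hq)
        congr 3
        funext x
        rw [cv_smul, dp_smul, Kr]
        ring)
    have h2 := nonneg_of_mul_nonneg_right ((neg_nonneg.2 hs).trans this) (by linarith)
    linarith
  · have hE' : Km * CA * CA * N₂ * (1 + Real.log N₂) ≤ η * X := by
      have h0 : 0 ≤ Real.log N₂ := Real.log_natCast_nonneg _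
      have h1 : Km * CA * CA * N₂ * (1 + Real.log N₂) ≤
          Km * CA * CA * T ^ (1 - ε / 2) * (1 + L) := by gcongr
      have h2 : Km * CA * CA * T ^ (1 - ε / 2) * (1 + L) =
          η / 20 * (Km * CA * CA * (20 / η) * T ^ (1 - ε / 2) * (1 + L)) := by
        field_simp
      have h3 := mul_le_mul_of_nonneg_left hE (show 0 ≤ η / 20 by positivity)
      rw [hX]
      linarith
    have hsub : Finset.Icc 1 N ⊆ Finset.Icc 1 N₂ := Finset.Icc_subset_Icc_right n10
    have hcb : ∀ n ∈ Finset.Icc 1 N₂, ‖c n‖ ≤ CA := fun n hn => hc1 n (Finset.mem_Icc.1 hn).2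
    have hrb : ∀ n ∈ Finset.Icc 1 N, ‖r n‖ ≤ CA := fun n _ => (hr1 n).trans hCA
    have hC0 : 0 ≤ CA := by linarith
    have m1 := (hM N₂ c r _ _ CA CA s (s + X) subset_rfl hsub hC0 hC0 hcb hrb).trans hE'
    have m2 := (hM N₂ c c _ _ CA CA s (s + X) subset_rfl subset_rfl hC0 hC0 hcb hcb).trans hE'
    have m3 := (hM N₂ r r _ _ CA CA s (s + X) hsub hsub hC0 hC0 hrb hrb).trans hE'
    refine (mean (μ := μ) (m := m) hPc hRc he1 (by positivity) hX0.le (add_sub_cancel_left _ _) hm0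
      m1 m2 m3 (by rw [Finset.inter_eq_right.2 hsub, he, hab, phase]; exact hmain)
      (by rw [sum_sq_re]; exact hc2) (by
        rw [sum_sq_re]
        exact hr2.trans ((le_abs_self W).trans (le_mul_of_one_le_left (abs_nonneg W) hCA)))).trans ?_
    have h1 : η * X ≤ μ / 16 * X := mul_le_mul_of_nonneg_right (min_le_left _ _) hX0.le
    have h2 : η * X ≤ 1 * X := mul_le_mul_of_nonneg_right (min_le_right _ _) hX0.le
    have h3 : (C' ^ 2 / L + 2 * lam) * (X * m + η * X) ≤ 3 * lam * ((m + 1) * X) :=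
      mul_le_mul (by linarith) (by linarith) (by positivity) (by positivity)
    have h4 : 3 * lam * ((m + 1) * X) = μ * X / 8 := by
      rw [hlam]
      field_simp
      ring
    linarith
  · have := hUI s (s + X) (by
      rw [add_sub_cancel_left, hX]
      have h0 : 0 ≤ Real.log N := Real.log_natCast_nonneg _
      have h1 : (N : ℝ) ≤ T ^ (1 - ε / 2) := le_trans (Nat.cast_le.2 n10) n4
      have h2 : Real.log N ≤ L := by linarith only [n9, n7, hL2]
      have h3 : N * (1 + Real.log N) ≤ T ^ (1 - ε / 2) * (1 + L) := by gcongr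
      linarith)
    rwa [add_sub_cancel_left] at this
  · have h1 := K6 s
    rw [Multiset.card_map] at h1
    have h2 : (B.card : ℝ) / n ≤ lam * μ / 2 / (|D| + 1) := by
      rw [div_le_iff₀ (Nat.cast_pos.2 k3)]
      refine hB.le.trans (le_trans (le_of_eq ?_) (mul_le_mul_of_nonneg_left k4 (by positivity)))
      field_simp
    have h3 : |D| * (lam * μ / 2 / (|D| + 1)) ≤ lam * μ / 2 := by
      rw [mul_div_assoc', div_le_iff₀ (by positivity)]
      have : 0 < lam * μ := by positivity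
      linarith
    calc |D| * ∫ u in s..(s + X), (1 - k u) ≤ |D| * (X * (B.card / n)) :=
          mul_le_mul_of_nonneg_left (h1.trans (mul_div_assoc _ _ _).le) (abs_nonneg _)
      _ ≤ |D| * (X * (lam * μ / 2 / (|D| + 1))) := by gcongr
      _ = |D| * (lam * μ / 2 / (|D| + 1)) * X := by ring
      _ ≤ lam * μ / 2 * X := mul_le_mul_of_nonneg_right h3 hX0.le

end Pool.Agent.MP_ca0a54_nt.P
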