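import Pool.Agent.MP_ca0a54_nt.P.Spec
import Pool.Agent.MP_ca0a54_nt.L0.Factor

/-!
Row FAC: factorisation of `zf` near `3 T / 2` through the multiset of all its zeros in a disc.
-/

open Complex Filter Topology Metric

namespace Pool.Agent.MP_ca0a54_nt.P.FAC

open Pool.Agent.MP_ca0a54_nt.L0 Pool.Agent.MP_ca0a54_nt.L0.Factor

theorem pz_cons (ρ : ℂ) (Z : Multiset ℂ) (w : ℂ) : pz (ρ ::ₘ Z) w = (w - ρ) * pz Z w := by
  simp [pz]

theorem pz_add (Z Z' : Multiset ℂ) (w : ℂ) : pz (Z + Z') w = pz Z w * pz Z' w := by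
  simp [pz]

theorem pz_rep (n : ℕ) (ρ w : ℂ) : pz (Multiset.replicate n ρ) w = (w - ρ) ^ n := by
  simp [pz]

theorem pz_diff (Z : Multiset ℂ) : Differentiable ℂ (pz Z) := by
  induction Z using Multiset.induction_on with
  | empty =>
    have : pz 0 = fun _ => 1 := by
      funext w
      simp [pz]
    rw [this]
    exact differentiable_const 1
  | cons ρ Z ih =>
    have : pz (ρ ::ₘ Z) = fun w => (w - ρ) * pz Z w := funext (pz_cons ρ Z)
    rw [this]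
    exact (differentiable_id.sub_const ρ).mul ih

theorem pz_ne (Z : Multiset ℂ) (w : ℂ) (hw : w ∉ Z) : pz Z w ≠ 0 := by
  induction Z using Multiset.induction_on with
  | empty => simp [pz]
  | cons ρ Z ih =>
    rw [Multiset.mem_cons, not_or] at hw
    rw [pz_cons]
    exact mul_ne_zero (sub_ne_zero.2 hw.1) (ih hw.2)

theorem pz_zero (Z : Multiset ℂ) (w : ℂ) (hw : w ∈ Z) : pz Z w = 0 := by
  obtain ⟨Z', rfl⟩ := Multiset.exists_cons_of_mem hw
  rw [pz_cons, sub_self, zero_mul]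

theorem pz_lower (Z : Multiset ℂ) (z : ℂ) (m : ℝ) (hm : 0 ≤ m) (h : ∀ ρ ∈ Z, m ≤ ‖z - ρ‖) :
    m ^ Z.card ≤ ‖pz Z z‖ := by
  induction Z using Multiset.induction_on with
  | empty => simp [pz]
  | cons ρ Z ih =>
    rw [pz_cons, norm_mul, Multiset.card_cons, pow_succ']
    have h1 := h ρ (Multiset.mem_cons_self ρ Z)
    have h2 := ih fun x hx => h x (Multiset.mem_cons_of_mem hx)
    exact mul_le_mul h1 h2 (by positivity) (norm_nonneg _)

theorem pz_upper (Z : Multiset ℂ) (z : ℂ) (m : ℝ) (hm : 0 ≤ m) (h : ∀ ρ ∈ Z, ‖z - ρ‖ ≤ m) :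
    ‖pz Z z‖ ≤ m ^ Z.card := by
  induction Z using Multiset.induction_on with
  | empty => simp [pz]
  | cons ρ Z ih =>
    rw [pz_cons, norm_mul, Multiset.card_cons, pow_succ']
    have h1 := h ρ (Multiset.mem_cons_self ρ Z)
    have h2 := ih fun x hx => h x (Multiset.mem_cons_of_mem hx)
    exact mul_le_mul h1 h2 (norm_nonneg _) hm

/-- The order of `pz Z * g` at a point where `g` does not vanish. -/
theorem order_eq (f g : ℂ → ℂ) (Z : Multiset ℂ) (ρ : ℂ) (hg : AnalyticAt ℂ g ρ) (hne : g ρ ≠ 0)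
    (hfg : ∀ w, f w = pz Z w * g w) : Z.count ρ = analyticOrderNatAt f ρ := by
  classical
  have hZ : Z = Multiset.replicate (Z.count ρ) ρ + Z.filter (fun x => ¬ ρ = x) := by
    rw [← Multiset.filter_eq, Multiset.filter_add_not]
  have hf : f = fun w => pz Z w * g w := funext hfg
  have hfa : AnalyticAt ℂ f ρ := by
    rw [hf]
    exact ((pz_diff Z).analyticAt ρ).mul hg
  have h1 : analyticOrderAt f ρ = (Z.count ρ : ℕ) := by
    rw [hfa.analyticOrderAt_eq_natCast]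
    refine ⟨fun w => pz (Z.filter (fun x => ¬ ρ = x)) w * g w,
      ((pz_diff _).analyticAt ρ).mul hg, mul_ne_zero (pz_ne _ _ (by simp)) hne,
      Eventually.of_forall fun w => ?_⟩
    rw [hfg w, smul_eq_mul, ← mul_assoc, ← pz_rep, ← pz_add, ← hZ]
  simp [analyticOrderNatAt, h1]

/-- A quotient of `zf` by linear factors at points of a closed disc. -/
def Quo (c : ℂ) (r : ℝ) (Z : Multiset ℂ) (g : ℂ → ℂ) : Prop :=
  (∀ ρ ∈ Z, ‖ρ - c‖ ≤ r) ∧ DifferentiableOn ℂ g {w : ℂ | 0 < w.re} ∧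
    ∀ w, zf w = pz Z w * g w

theorem quo_step (c : ℂ) (r : ℝ) (Z : Multiset ℂ) (g : ℂ → ℂ) (hq : Quo c r Z g) (ρ : ℂ)
    (hρ : ‖ρ - c‖ ≤ r) (hre : 0 < ρ.re) (h0 : g ρ = 0) : Quo c r (ρ ::ₘ Z) (dslope g ρ) := by
  have hΩ : IsOpen {w : ℂ | 0 < w.re} := isOpen_lt continuous_const continuous_re
  refine ⟨fun x hx => ?_, (differentiableOn_dslope (hΩ.mem_nhds hre)).2 hq.2.1, fun w => ?_⟩
  · rcases Multiset.mem_cons.1 hx with rfl | hx
    · exact hρ
    · exact hq.1 x hx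
  · have h1 := sub_smul_dslope g ρ w
    rw [h0, sub_zero, smul_eq_mul] at h1
    rw [pz_cons, hq.2.2 w, ← h1]
    ring

/-- A quotient with a maximal number of factors does not vanish on the closed disc. -/
theorem exists_max (c : ℂ) (r B : ℝ) (hre : ∀ ρ : ℂ, ‖ρ - c‖ ≤ r → 0 < ρ.re)
    (hB : ∀ Z g, Quo c r Z g → (Z.card : ℝ) ≤ B) :
    ∃ Z g, Quo c r Z g ∧ ∀ ρ : ℂ, ‖ρ - c‖ ≤ r → g ρ ≠ 0 := by
  set S : Set ℕ := {n | ∃ Z g, Quo c r Z g ∧ Z.card = n} with hS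
  have hne : S.Nonempty :=
    ⟨0, 0, zf, ⟨by simp, zf_differentiableOn, fun w => by simp [pz]⟩, rfl⟩
  have hbd : BddAbove S := by
    refine ⟨⌈B⌉₊, ?_⟩
    rintro n ⟨Z, g, hq, rfl⟩
    exact_mod_cast (hB Z g hq).trans (Nat.le_ceil B)
  obtain ⟨Z, g, hq, hc⟩ := Nat.sSup_mem hne hbd
  refine ⟨Z, g, hq, fun ρ hρ h0 => ?_⟩
  have h1 : (ρ ::ₘ Z).card ∈ S := ⟨_, _, quo_step c r Z g hq ρ hρ (hre ρ hρ) h0, rfl⟩
  have h2 := le_csSup hbd h1
  rw [Multiset.card_cons, hc] at h2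
  omega

theorem hball (T : ℝ) (w : ℂ) (hw : ‖w - ctr T‖ ≤ T / 2) :
    T ≤ w.re ∧ w.re ≤ 2 * T ∧ |w.im| ≤ T := by
  have h0 := (norm_nonneg _).trans hw
  have h1 := (abs_re_le_norm (w - ctr T)).trans hw
  have h2 := (abs_im_le_norm (w - ctr T)).trans hw
  simp only [ctr, sub_re, ofReal_re, sub_im, ofReal_im, sub_zero] at h1 h2
  rw [abs_le] at h1
  exact ⟨by linarith [h1.1], by linarith [h1.2], by linarith⟩

/-- The key inequality: maximum principle against the base point `c - I`. -/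
theorem key (C₁ C₂ T : ℝ) (hC₂ : 0 < C₂) (hT : 320 ≤ T)
    (hg₁ : ∀ w : ℂ, T ≤ w.re → w.re ≤ 2 * T → |w.im| ≤ T →
      ‖zf w‖ ≤ Real.exp (C₁ * T * Real.log T))
    (hg₂ : ∀ w : ℂ, w.im ≤ -3 / 4 → zf w ≠ 0 ∧ ‖zf w‖ ≤ C₂ ∧ ‖(zf w)⁻¹‖ ≤ C₂)
    (Z : Multiset ℂ) (g : ℂ → ℂ) (hq : Quo (ctr T) (T / 8) Z g) (w : ℂ)
    (hw : w ∈ ball (ctr T) (T / 2)) :
    2 ^ Z.card * ‖g w‖ ≤ C₂ * Real.exp (C₁ * T * Real.log T) * ‖g (ctr T - I)‖ ∧
      g (ctr T - I) ≠ 0 := by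
  have hT0 : 0 < T := by linarith
  obtain ⟨hZ, hg, hfg⟩ := hq
  have hcb : closedBall (ctr T) (T / 2) ⊆ {w : ℂ | 0 < w.re} := fun w hw =>
    lt_of_lt_of_le hT0 (hball T w (by simpa [dist_eq_norm] using hw)).1
  have hmax : ‖g w‖ ≤ Real.exp (C₁ * T * Real.log T) / (3 * T / 8) ^ Z.card := by
    refine norm_le_of_forall_mem_frontier_norm_le (U := ball (ctr T) (T / 2)) isBounded_ball
      (hg.diffContOnCl_ball hcb) (fun z hz => ?_) (subset_closure hw)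
    rw [frontier_ball _ (by positivity), mem_sphere, dist_eq_norm] at hz
    have hb := hball T z hz.le
    have h1 := hg₁ z hb.1 hb.2.1 hb.2.2
    have h2 : (3 * T / 8) ^ Z.card ≤ ‖pz Z z‖ := by
      refine pz_lower Z z _ (by positivity) fun u hu => ?_
      have h3 : ‖z - ctr T‖ ≤ ‖z - u‖ + ‖u - ctr T‖ := by
        calc ‖z - ctr T‖ = ‖(z - u) + (u - ctr T)‖ := by congr 1; ring
          _ ≤ _ := norm_add_le _ _
      linarith [hZ u hu]
    rw [hfg z, norm_mul] at h1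
    rw [le_div_iff₀ (by positivity)]
    calc ‖g z‖ * (3 * T / 8) ^ Z.card ≤ ‖g z‖ * ‖pz Z z‖ := by gcongr
      _ ≤ _ := by rw [mul_comm]; exact h1
  have hw₀c : ‖ctr T - I - ctr T‖ = 1 := by simp
  obtain ⟨h1, -, h3⟩ := hg₂ (ctr T - I) (by simp [ctr]; norm_num)
  have hlow : 1 ≤ C₂ * (3 * T / 16) ^ Z.card * ‖g (ctr T - I)‖ := by
    have h2 : ‖pz Z (ctr T - I)‖ ≤ (3 * T / 16) ^ Z.card := by
      refine pz_upper Z _ _ (by positivity) fun u hu => ?_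
      have h3 : ‖ctr T - I - u‖ ≤ ‖ctr T - I - ctr T‖ + ‖u - ctr T‖ := by
        calc ‖ctr T - I - u‖ = ‖(ctr T - I - ctr T) - (u - ctr T)‖ := by congr 1; ring
          _ ≤ _ := norm_sub_le _ _
      linarith [hZ u hu]
    have h4 : ‖zf (ctr T - I)‖ ≤ (3 * T / 16) ^ Z.card * ‖g (ctr T - I)‖ := by
      rw [hfg (ctr T - I), norm_mul]; gcongr
    calc (1 : ℝ) = ‖(zf (ctr T - I))⁻¹‖ * ‖zf (ctr T - I)‖ := by
          rw [← norm_mul, inv_mul_cancel₀ h1, norm_one]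
      _ ≤ C₂ * ((3 * T / 16) ^ Z.card * ‖g (ctr T - I)‖) := by gcongr
      _ = _ := by ring
  refine ⟨?_, fun h0 => h1 (by rw [hfg, h0, mul_zero])⟩
  calc 2 ^ Z.card * ‖g w‖
      ≤ 2 ^ Z.card * (Real.exp (C₁ * T * Real.log T) / (3 * T / 8) ^ Z.card) * 1 := by
        rw [mul_one]; gcongr
    _ ≤ 2 ^ Z.card * (Real.exp (C₁ * T * Real.log T) / (3 * T / 8) ^ Z.card) *
        (C₂ * (3 * T / 16) ^ Z.card * ‖g (ctr T - I)‖) := by gcongr
    _ = _ := by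
      have : (3 * T / 8) ^ Z.card = 2 ^ Z.card * (3 * T / 16) ^ Z.card := by
        rw [← mul_pow]; congr 1; ring
      rw [this]
      field_simp

end Pool.Agent.MP_ca0a54_nt.P.FAC

namespace Pool.Agent.MP_ca0a54_nt.P

open Pool.Agent.MP_ca0a54_nt.L0 Pool.Agent.MP_ca0a54_nt.L0.Factor FAC

theorem fac : OrdStmt → FacStmt := by
  classical
  intro hord
  obtain ⟨C₁, hC₁, hg₁⟩ := zf_growth
  obtain ⟨C₂, hC₂, hg₂⟩ := zf_right
  refine ⟨115200 * (C₁ + C₂) + 1, by nlinarith, ?_⟩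
  filter_upwards [eventually_ge_atTop (320 : ℝ)] with T hT
  have hT0 : 0 < T := by linarith
  have hL : 1 ≤ Real.log T := by
    rw [Real.le_log_iff_exp_le hT0]
    linarith [Real.exp_one_lt_d9]
  have hkey := key C₁ C₂ T hC₂ hT (hg₁ T (by linarith)) hg₂
  set L := Real.log T with hLdef
  have hTL : 1 ≤ T * L := by nlinarith
  have hΩ : IsOpen {w : ℂ | 0 < w.re} := isOpen_lt continuous_const continuous_re
  have hre : ∀ ρ : ℂ, ‖ρ - ctr T‖ ≤ T / 8 → 0 < ρ.re := fun ρ hρ =>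
    lt_of_lt_of_le hT0 (hball T ρ (by linarith)).1
  have hw₀c : ‖ctr T - I - ctr T‖ = 1 := by simp
  have hexp : C₂ * Real.exp (C₁ * T * L) ≤ Real.exp ((C₁ + C₂) * T * L) := by
    have h3 : C₂ ≤ Real.exp C₂ := by linarith [Real.add_one_le_exp C₂]
    calc C₂ * Real.exp (C₁ * T * L) ≤ Real.exp C₂ * Real.exp (C₁ * T * L) := by gcongr
      _ = Real.exp (C₂ + C₁ * T * L) := by rw [Real.exp_add]
      _ ≤ _ := by
        apply Real.exp_le_exp.2
        nlinarith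
  have hcard : ∀ Z g, Quo (ctr T) (T / 8) Z g → (Z.card : ℝ) ≤ 2 * ((C₁ + C₂) * T * L) := by
    intro Z g hq
    obtain ⟨h1, h2⟩ := hkey Z g hq (ctr T - I) (by
      rw [mem_ball, dist_eq_norm, hw₀c]; linarith)
    have h3 : (2 : ℝ) ^ Z.card ≤ Real.exp ((C₁ + C₂) * T * L) :=
      (le_of_mul_le_mul_right h1 (norm_pos_iff.2 h2)).trans hexp
    have h4 : Real.exp (Z.card * (1 / 2)) ≤ 2 ^ Z.card := by
      rw [Real.exp_nat_mul]
      gcongr
      have h5 : Real.exp (1 / 2) * Real.exp (1 / 2) = Real.exp 1 := by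
        rw [← Real.exp_add]; norm_num
      nlinarith [Real.exp_one_lt_d9, Real.exp_pos (1 / 2)]
    have h6 := Real.exp_le_exp.1 (h4.trans h3)
    linarith
  obtain ⟨Z, g, hq, hne⟩ := exists_max (ctr T) (T / 8) _ hre hcard
  have hmem : ∀ w ∈ ball (ctr T) (T / 2 / 4), ‖w - ctr T‖ ≤ T / 8 := by
    intro w hw
    rw [mem_ball, dist_eq_norm] at hw
    linarith
  obtain ⟨h, hd, hgh⟩ := exists_log g (ctr T) (T / 2 / 4)
    (hq.2.1.mono fun w hw => hre w (hmem w hw)) fun w hw => hne w (hmem w hw)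
  have hw₀b : ctr T - I ∈ ball (ctr T) (T / 2 / 4) := by
    rw [mem_ball, dist_eq_norm, hw₀c]; linarith
  have hrb : ∀ w ∈ ball (ctr T) (T / 2 / 4), (h w - h (ctr T - I)).re ≤ (C₁ + C₂) * T * L := by
    intro w hw
    obtain ⟨h1, -⟩ := hkey Z g hq w (ball_subset_ball (by linarith) hw)
    rw [hgh w hw, hgh _ hw₀b, norm_exp, norm_exp] at h1
    have h2 : (1 : ℝ) ≤ 2 ^ Z.card := one_le_pow₀ (by norm_num)
    have h3 : Real.exp (h w).re ≤
        Real.exp ((C₁ + C₂) * T * L) * Real.exp (h (ctr T - I)).re := by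
      calc Real.exp (h w).re ≤ 2 ^ Z.card * Real.exp (h w).re :=
            le_mul_of_one_le_left (Real.exp_pos _).le h2
        _ ≤ _ := h1
        _ ≤ _ := by gcongr
    rw [← Real.exp_add, Real.exp_le_exp] at h3
    rw [sub_re]
    linarith
  obtain ⟨d1, d2⟩ := deriv_bounds h (ctr T) (ctr T - I) (T / 2) _ (by linarith) (by positivity)
    (by rw [hw₀c]; norm_num) hd hrb
  have hcnt : ∀ ρ : ℂ, ‖ρ - ctr T‖ ≤ T / 8 → Z.count ρ = analyticOrderNatAt zf ρ := fun ρ hρ =>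
    order_eq zf g Z ρ (hq.2.1.analyticAt (hΩ.mem_nhds (hre ρ hρ))) (hne ρ hρ) hq.2.2
  have hsub : ball (ctr T) (T / 16) ⊆ ball (ctr T) (T / 2 / 4) := ball_subset_ball (by linarith)
  have hconj : ∀ ρ : ℂ, ‖(starRingEnd ℂ) ρ - ctr T‖ = ‖ρ - ctr T‖ := by
    intro ρ
    rw [← norm_conj, map_sub, conj_conj, ctr, conj_ofReal]
  refine ⟨Z, h, ⟨fun ρ hρ => ⟨hq.1 ρ hρ, ?_⟩, hcnt, ?_, ?_, hd.mono hsub, fun w hw => ?_,
    fun w hw => ?_, fun w hw w' hw' => ?_⟩⟩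
  · refine ((hord ρ (hre ρ (hq.1 ρ hρ))).2.2.1 ?_).1
    rw [hq.2.2 ρ, pz_zero Z ρ hρ, zero_mul]
  · refine Multiset.ext.2 fun a => ?_
    have h1 : (Z.map (starRingEnd ℂ)).count a = Z.count ((starRingEnd ℂ) a) := by
      have h2 := Multiset.count_map_eq_count' (starRingEnd ℂ) Z (RingHom.injective _)
        ((starRingEnd ℂ) a)
      rwa [conj_conj] at h2
    rw [h1]
    by_cases ha : ‖a - ctr T‖ ≤ T / 8
    · rw [hcnt a ha, hcnt _ (by rw [hconj]; exact ha), (hord a (hre a ha)).1]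
    · rw [Multiset.count_eq_zero_of_notMem fun hm => ha (hq.1 a hm),
        Multiset.count_eq_zero_of_notMem fun hm => ha (by rw [← hconj]; exact hq.1 _ hm)]
  · have h1 := hcard Z g hq
    have h2 : 0 ≤ (C₁ + C₂) * (T * L) := by positivity
    nlinarith
  · rw [hq.2.2 w, hgh w (hsub hw)]
  · refine (d1 w (ball_subset_ball (by linarith) hw)).trans ?_
    have : 720 * ((C₁ + C₂) * T * L) / (T / 2) = 1440 * (C₁ + C₂) * L := by
      field_simp
      norm_num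
    rw [this]
    gcongr
    nlinarith
  · refine (d2 w (ball_subset_ball (by linarith) hw) w'
      (ball_subset_ball (by linarith) hw')).trans ?_
    have : 720 * ((C₁ + C₂) * T * L) / (T / 2) * 40 / (T / 2) =
        115200 * (C₁ + C₂) * L / T := by
      field_simp
      norm_num
    rw [this]
    gcongr
    linarith

end Pool.Agent.MP_ca0a54_nt.P
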