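import Pool.Agent.MP_ca0a54_nt.P.Spec

/-! Row KER: a non-negative trigonometric polynomial with prescribed zeros and mean near `1`. -/

open Complex MeasureTheory Filter Topology

namespace Pool.Agent.MP_ca0a54_nt.P

/-- `exp (i s z)`. -/
noncomputable def kE (s : ℝ) (z : ℂ) : ℂ := exp (s * I * z)

/-- The trigonometric polynomial with coefficients `c`. -/
noncomputable def kQ {n : ℕ} (s : ℝ) (c : EuclideanSpace ℂ (Fin n)) (z : ℂ) : ℂ :=
  ∑ j : Fin n, c j * kE s z ^ (j : ℕ)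

theorem kE_diff (s : ℝ) : Differentiable ℂ (kE s) := by
  unfold kE
  fun_prop

theorem kE_conj (s : ℝ) (z : ℂ) :
    (starRingEnd ℂ) (kE s ((starRingEnd ℂ) z)) = kE (-s) z := by
  unfold kE
  rw [← exp_conj]
  congr 1
  simp

theorem kE_norm (s : ℝ) (z : ℂ) : ‖kE s z‖ = Real.exp (-(s * z.im)) := by
  unfold kE
  rw [norm_exp]
  congr 1
  simp

theorem kQ_cont {n : ℕ} (s : ℝ) (c : EuclideanSpace ℂ (Fin n)) :
    Continuous fun x : ℝ => kQ s c x := by
  unfold kQ kE
  fun_prop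

theorem kQ_conj_diff {n : ℕ} (s : ℝ) (c : EuclideanSpace ℂ (Fin n)) :
    Differentiable ℂ fun z => (starRingEnd ℂ) (kQ s c ((starRingEnd ℂ) z)) := by
  have : (fun z => (starRingEnd ℂ) (kQ s c ((starRingEnd ℂ) z))) =
      fun z => ∑ j : Fin n, (starRingEnd ℂ) (c j) * kE (-s) z ^ (j : ℕ) := by
    funext z
    simp only [kQ, map_sum, map_mul, map_pow, kE_conj]
  rw [this]
  have := kE_diff (-s)
  fun_prop

/-- Bessel's inequality. -/
theorem kQ_bessel {n d : ℕ} (s : ℝ) (w : Fin d → EuclideanSpace ℂ (Fin n))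
    (hw : Orthonormal ℂ w) (z : ℂ) :
    ∑ i, ‖kQ s (w i) z‖ ^ 2 ≤ n * Real.exp (2 * (n * max (-(s * z.im)) 0)) := by
  set u : EuclideanSpace ℂ (Fin n) :=
    WithLp.toLp 2 fun j : Fin n => (starRingEnd ℂ) (kE s z ^ (j : ℕ)) with hu
  have h1 := hw.sum_inner_products_le (s := Finset.univ) u
  have h2 : ∀ i, ‖(inner ℂ (w i) u : ℂ)‖ = ‖kQ s (w i) z‖ := by
    intro i
    rw [← Complex.norm_conj (kQ s (w i) z)]
    congr 1
    simp only [PiLp.inner_apply, RCLike.inner_apply, hu, kQ, map_sum, map_mul]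
    exact Finset.sum_congr rfl fun j _ => mul_comm _ _
  simp only [h2] at h1
  refine h1.trans ?_
  rw [EuclideanSpace.norm_sq_eq]
  calc _ ≤ ∑ _j : Fin n, Real.exp (2 * (n * max (-(s * z.im)) 0)) := by
        refine Finset.sum_le_sum fun j _ => ?_
        simp only [hu, Complex.norm_conj, norm_pow, kE_norm]
        rw [← Real.exp_nat_mul, ← Real.exp_nat_mul, Real.exp_le_exp]
        have h3 : ((j : ℕ) : ℝ) ≤ n := by exact_mod_cast j.2.le
        have h4 : (0 : ℝ) ≤ (j : ℕ) := Nat.cast_nonneg _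
        have h5 := le_max_left (-(s * z.im)) 0
        have h6 := le_max_right (-(s * z.im)) 0
        push_cast
        nlinarith [mul_le_mul_of_nonneg_left h5 h4, mul_le_mul_of_nonneg_right h3 h6]
    _ = _ := by simp

theorem kE_int {X : ℝ} (hX : 0 < X) (j k : ℕ) (x₀ : ℝ) :
    ∫ x in x₀..(x₀ + X), kE (2 * Real.pi / X) (x : ℝ) ^ j *
      (starRingEnd ℂ) (kE (2 * Real.pi / X) (x : ℝ) ^ k) = if j = k then (X : ℂ) else 0 := by
  have hXc : (X : ℂ) ≠ 0 := by exact_mod_cast hX.ne'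
  have e1 : ∀ x : ℝ, kE (2 * Real.pi / X) (x : ℝ) ^ j *
      (starRingEnd ℂ) (kE (2 * Real.pi / X) (x : ℝ) ^ k) =
      exp ((((j : ℤ) - k : ℤ) : ℂ) * (2 * Real.pi * I) / X * x) := by
    intro x
    have := kE_conj (2 * Real.pi / X) x
    rw [Complex.conj_ofReal] at this
    rw [map_pow, this, kE, kE, ← exp_nat_mul, ← exp_nat_mul, ← exp_add]
    congr 1
    push_cast
    ring
  simp only [e1]
  split_ifs with h
  · simp [h]
  · have h1 : (((j : ℤ) - k : ℤ) : ℂ) ≠ 0 := by
      rw [Int.cast_ne_zero, sub_ne_zero]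
      exact_mod_cast h
    rw [integral_exp_mul_complex (div_ne_zero (mul_ne_zero h1 two_pi_I_ne_zero) hXc)]
    have e2 : (((j : ℤ) - k : ℤ) : ℂ) * (2 * Real.pi * I) / X * ((x₀ + X : ℝ) : ℂ) =
        (((j : ℤ) - k : ℤ) : ℂ) * (2 * Real.pi * I) / X * x₀ +
          (((j : ℤ) - k : ℤ) : ℂ) * (2 * Real.pi * I) := by
      rw [Complex.ofReal_add, mul_add, div_mul_cancel₀ _ hXc]
    rw [e2, exp_add, exp_int_mul_two_pi_mul_I, mul_one, sub_self, zero_div]

theorem kQ_int {n : ℕ} {X : ℝ} (hX : 0 < X) (c : EuclideanSpace ℂ (Fin n)) (x₀ : ℝ) :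
    ∫ x in x₀..(x₀ + X), ‖kQ (2 * Real.pi / X) c (x : ℝ)‖ ^ 2 = X * ‖c‖ ^ 2 := by
  set s := 2 * Real.pi / X with hs
  have e1 : ∀ x : ℝ, ((‖kQ s c (x : ℝ)‖ ^ 2 : ℝ) : ℂ) = ∑ j : Fin n, ∑ k : Fin n,
      c j * (starRingEnd ℂ) (c k) * (kE s (x : ℝ) ^ (j : ℕ) *
        (starRingEnd ℂ) (kE s (x : ℝ) ^ (k : ℕ))) := by
    intro x
    rw [← Complex.normSq_eq_norm_sq, ← Complex.mul_conj, kQ, map_sum, Finset.sum_mul_sum]
    refine Finset.sum_congr rfl fun j _ => Finset.sum_congr rfl fun k _ => ?_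
    rw [map_mul]
    ring
  have hc : ∀ j k : Fin n, Continuous fun x : ℝ => c j * (starRingEnd ℂ) (c k) *
      (kE s (x : ℝ) ^ (j : ℕ) * (starRingEnd ℂ) (kE s (x : ℝ) ^ (k : ℕ))) := by
    intro j k
    unfold kE
    fun_prop
  apply Complex.ofReal_injective
  rw [← intervalIntegral.integral_ofReal]
  simp only [e1]
  rw [intervalIntegral.integral_finsetSum fun j _ =>
    (continuous_finsetSum _ fun k _ => hc j k).intervalIntegrable _ _, EuclideanSpace.norm_sq_eq,
    Finset.mul_sum, Complex.ofReal_sum]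
  refine Finset.sum_congr rfl fun j _ => ?_
  rw [intervalIntegral.integral_finsetSum fun k _ => (hc j k).intervalIntegrable _ _]
  simp only [intervalIntegral.integral_const_mul, hs, kE_int hX, Fin.val_inj, mul_ite, mul_zero,
    Finset.sum_ite_eq, Finset.mem_univ, if_true]
  rw [Complex.mul_conj, Complex.normSq_eq_norm_sq]
  push_cast
  ring

theorem kE_prod (s : ℝ) (B : Multiset ℂ) : ∃ g : ℂ → ℂ, Differentiable ℂ g ∧
    ∀ z, (B.map fun b => kE s z - kE s b).prod = pz B z * g z := by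
  induction B using Multiset.induction_on with
  | empty => exact ⟨fun _ => 1, differentiable_const _, fun z => by simp [pz]⟩
  | cons b B ih =>
    obtain ⟨g, hg, h⟩ := ih
    have hd : Differentiable ℂ (dslope (kE s) b) := by
      rw [← differentiableOn_univ, Complex.differentiableOn_dslope Filter.univ_mem]
      exact (kE_diff s).differentiableOn
    refine ⟨fun z => dslope (kE s) b z * g z, hd.mul hg, fun z => ?_⟩
    have e1 := sub_smul_dslope (kE s) b z
    rw [smul_eq_mul] at e1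
    rw [Multiset.map_cons, Multiset.prod_cons, h, ← e1]
    simp only [pz, Multiset.map_cons, Multiset.prod_cons]
    ring

open Polynomial in
/-- A large orthonormal family of trigonometric polynomials vanishing on `B`. -/
theorem k_family (s : ℝ) (B : Multiset ℂ) (n : ℕ) : ∃ (d : ℕ)
    (w : Fin d → EuclideanSpace ℂ (Fin n)), Orthonormal ℂ w ∧ n ≤ d + B.card ∧
    ∀ i, ∃ G : ℂ → ℂ, Differentiable ℂ G ∧ ∀ z, kQ s (w i) z = pz B z * G z := by
  set D : ℂ[X] := ((B.map (kE s)).map fun a => X - C a).prod with hD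
  have hDm : D.Monic := monic_multisetProd_X_sub_C _
  have hDd : D.natDegree = B.card := by
    rw [hD, natDegree_multiset_prod_X_sub_C_eq_card, Multiset.card_map]
  let φ : EuclideanSpace ℂ (Fin n) →ₗ[ℂ] ℂ[X] :=
    ∑ j : Fin n, (monomial (j : ℕ)).comp (EuclideanSpace.projₗ j)
  have hφ : ∀ (c : EuclideanSpace ℂ (Fin n)) (z : ℂ), (φ c).eval (kE s z) = kQ s c z := by
    intro c z
    simp [φ, kQ, eval_finsetSum]
  let ψ : EuclideanSpace ℂ (Fin n) →ₗ[ℂ] ℂ[X] := (modByMonicHom D).comp φ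
  have hr : LinearMap.range ψ ≤ degreeLT ℂ B.card := by
    rintro _ ⟨c, rfl⟩
    rw [mem_degreeLT, ← hDd, ← degree_eq_natDegree hDm.ne_zero]
    exact degree_modByMonic_lt _ hDm
  have hfin : Module.finrank ℂ (degreeLT ℂ B.card) = B.card := by
    rw [(degreeLTEquiv ℂ B.card).finrank_eq, Module.finrank_fin_fun]
  have : Module.Finite ℂ (degreeLT ℂ B.card) :=
    Module.Finite.equiv (degreeLTEquiv ℂ B.card).symm
  have h1 := Submodule.finrank_mono hr
  have h2 := ψ.finrank_range_add_finrank_ker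
  rw [finrank_euclideanSpace_fin] at h2
  let v := stdOrthonormalBasis ℂ (LinearMap.ker ψ)
  refine ⟨_, fun i => (v i : EuclideanSpace ℂ (Fin n)),
    v.orthonormal.comp_linearIsometry (LinearMap.ker ψ).subtypeₗᵢ, by omega, fun i => ?_⟩
  have h3 : φ (v i) %ₘ D = 0 := (v i).2
  obtain ⟨q, hq⟩ := (modByMonic_eq_zero_iff_dvd hDm).1 h3
  obtain ⟨g, hg, h⟩ := kE_prod s B
  refine ⟨fun z => g z * q.eval (kE s z), hg.mul (q.differentiable.comp (kE_diff s)), fun z => ?_⟩
  rw [← hφ, hq, eval_mul, ← mul_assoc, ← h, hD, eval_multiset_prod]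
  simp [Multiset.map_map]

theorem trig : TrigStmt := by
  intro B X n hX hn
  set s := 2 * Real.pi / X with hs
  obtain ⟨d, w, hw, hd, hG⟩ := k_family s B n
  choose G hG hG' using hG
  have hn0 : (0 : ℝ) < n := by exact_mod_cast hn
  have hre : ∀ x : ℝ, (((n : ℝ)⁻¹ : ℝ) * ∑ i, kQ s (w i) x *
      (starRingEnd ℂ) (kQ s (w i) ((starRingEnd ℂ) x))).re =
      (n : ℝ)⁻¹ * ∑ i, ‖kQ s (w i) x‖ ^ 2 := by
    intro x
    rw [Complex.re_ofReal_mul, Complex.re_sum, Complex.conj_ofReal]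
    congr 1
    refine Finset.sum_congr rfl fun i _ => ?_
    rw [Complex.mul_conj, Complex.ofReal_re, Complex.normSq_eq_norm_sq]
  refine ⟨fun z => ((n : ℝ)⁻¹ : ℝ) * ∑ i, kQ s (w i) z *
      (starRingEnd ℂ) (kQ s (w i) ((starRingEnd ℂ) z)),
    fun z => ((n : ℝ)⁻¹ : ℝ) * ∑ i, G i z * (starRingEnd ℂ) (kQ s (w i) ((starRingEnd ℂ) z)),
    ?_, fun z => ?_, fun z => ?_, fun z => ?_, fun x => ?_, fun x₀ => ?_⟩
  · exact (Differentiable.fun_sum fun i _ => (hG i).mul (kQ_conj_diff s (w i))).const_mul _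
  · have e1 : ∑ i, kQ s (w i) z * (starRingEnd ℂ) (kQ s (w i) ((starRingEnd ℂ) z)) =
        pz B z * ∑ i, G i z * (starRingEnd ℂ) (kQ s (w i) ((starRingEnd ℂ) z)) := by
      rw [Finset.mul_sum]
      refine Finset.sum_congr rfl fun i _ => ?_
      rw [hG' i z, mul_assoc]
    beta_reduce
    rw [e1, mul_left_comm]
  · simp only [map_mul, map_sum, Complex.conj_ofReal, Complex.conj_conj]
    congr 1
    exact Finset.sum_congr rfl fun i _ => mul_comm _ _
  · rw [norm_mul, Complex.norm_real, Real.norm_eq_abs, abs_of_pos (inv_pos.2 hn0),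
      inv_mul_le_iff₀ hn0]
    refine (norm_sum_le _ _).trans ?_
    simp only [norm_mul, Complex.norm_conj]
    refine (pow_le_pow_iff_left₀ (Finset.sum_nonneg fun i _ => by positivity) (by positivity)
      two_ne_zero).1 ?_
    refine (Finset.sum_mul_sq_le_sq_mul_sq _ _ _).trans ?_
    refine (mul_le_mul (kQ_bessel s w hw z) (kQ_bessel s w hw _)
      (Finset.sum_nonneg fun i _ => by positivity) (by positivity)).trans (le_of_eq ?_)
    have hs0 : 0 ≤ s := by positivity
    have e1 : max (-(s * z.im)) 0 + max (-(s * ((starRingEnd ℂ) z).im)) 0 = s * |z.im| := by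
      rw [Complex.conj_im, ← abs_of_nonneg hs0, ← abs_mul, abs_of_nonneg hs0, mul_neg, neg_neg]
      rcases le_total 0 (s * z.im) with h | h
      · rw [max_eq_right (by linarith), max_eq_left h, abs_of_nonneg h, zero_add]
      · rw [max_eq_left (by linarith), max_eq_right h, abs_of_nonpos h, add_zero]
    rw [mul_mul_mul_comm, ← Real.exp_add, mul_pow, ← Real.exp_nat_mul, ← mul_add, ← mul_add, e1,
      hs, sq]
    congr 2
    push_cast
    ring
  · rw [hre]
    positivity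
  · simp only [hre]
    have hc : ∀ i, Continuous fun x : ℝ => ‖kQ s (w i) x‖ ^ 2 := fun i =>
      (kQ_cont s (w i)).norm.pow 2
    rw [intervalIntegral.integral_sub intervalIntegrable_const
      (((continuous_finsetSum _ fun i _ => hc i).intervalIntegrable _ _).const_mul _),
      intervalIntegral.integral_const_mul,
      intervalIntegral.integral_finsetSum fun i _ => (hc i).intervalIntegrable _ _]
    simp only [hs, kQ_int hX, hw.1, one_pow, mul_one, Finset.sum_const, Finset.card_univ,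
      Fintype.card_fin, nsmul_eq_mul, intervalIntegral.integral_const, add_sub_cancel_left,
      smul_eq_mul]
    have h1 : (n : ℝ) ≤ d + B.card := by exact_mod_cast hd
    rw [le_div_iff₀ hn0, sub_mul, mul_comm (n : ℝ)⁻¹, mul_assoc, inv_mul_cancel₀ hn0.ne', mul_one]
    nlinarith

end Pool.Agent.MP_ca0a54_nt.P
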