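import Pool.Agent.MP_ca0a54_nt.P.Spec
import Pool.Agent.MP_ca0a54_nt.L0.Lower
import Pool.Agent.MP_ca0a54_nt.H23.PF
import Pool.Agent.MP_ca0a54_nt.H83.PQb
import Pool.Agent.MP_ca0a54_nt.H88.AR1

/-! Row LIN: the quotient `p(z) / p(z + a)` against `ζ(s) / ζ(s + i a)` on the lower line. -/

open Complex MeasureTheory Filter Topology Metric

namespace Pool.Agent.MP_ca0a54_nt.P

open Pool.Agent.MP_ca0a54_nt.L0 Pool.Agent.MP_ca0a54_nt.H24 Pool.Agent.MP_ca0a54_nt.H10

namespace LIN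

theorem pz_cons (ρ : ℂ) (Z : Multiset ℂ) (w : ℂ) : pz (ρ ::ₘ Z) w = (w - ρ) * pz Z w := by
  simp [pz]

theorem pz_diff (Z : Multiset ℂ) : Differentiable ℂ (pz Z) := by
  induction Z using Multiset.induction_on with
  | empty =>
    have : pz 0 = fun _ => 1 := by
      funext w
      simp [pz]
    rw [this]
    exact differentiable_const _
  | cons ρ Z ih =>
    have : pz (ρ ::ₘ Z) = fun w => (w - ρ) * pz Z w := funext (pz_cons ρ Z)
    rw [this]
    exact (differentiable_id.sub_const ρ).mul ih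

theorem pz_conj (Z : Multiset ℂ) (w : ℂ) :
    pz (Z.map (starRingEnd ℂ)) ((starRingEnd ℂ) w) = (starRingEnd ℂ) (pz Z w) := by
  induction Z using Multiset.induction_on with
  | empty => simp [pz]
  | cons ρ Z ih => rw [Multiset.map_cons, pz_cons, pz_cons, ih, map_mul, map_sub]

theorem norm_pz_conj {Z : Multiset ℂ} (hZ : Z.map (starRingEnd ℂ) = Z) (w : ℂ) :
    ‖pz Z ((starRingEnd ℂ) w)‖ = ‖pz Z w‖ := by
  have := pz_conj Z w
  rw [hZ] at this
  rw [this, Complex.norm_conj]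

theorem pz_ne {Z : Multiset ℂ} {w : ℂ} (h : ∀ ρ ∈ Z, w - ρ ≠ 0) : pz Z w ≠ 0 := by
  unfold pz
  refine Multiset.prod_ne_zero fun h0 => ?_
  obtain ⟨ρ, hρ, e⟩ := Multiset.mem_map.1 h0
  exact h ρ hρ e

theorem vz_le {Z : Multiset ℂ} {a s : ℝ} {z : ℂ} (ha : 0 ≤ a) (hs : 0 < s)
    (h : ∀ ρ ∈ Z, s ≤ ‖z + a - ρ‖) : ‖vz Z a z‖ ≤ Real.exp (a / s * Z.card) := by
  induction Z using Multiset.induction_on with
  | empty => simp [vz, pz]
  | cons ρ Z ih =>
    have h1 := ih fun ρ' hρ' => h ρ' (Multiset.mem_cons_of_mem hρ')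
    have h2 := h ρ (Multiset.mem_cons_self _ _)
    have h3 : 0 < ‖z + a - ρ‖ := hs.trans_le h2
    have e : vz (ρ ::ₘ Z) a z = (z - ρ) / (z + a - ρ) * vz Z a z := by
      rw [vz, vz, pz_cons, pz_cons, mul_div_mul_comm]
    have h4 : ‖(z - ρ) / (z + a - ρ)‖ ≤ Real.exp (a / s) := by
      refine le_trans ?_ (Real.add_one_le_exp _)
      rw [norm_div, div_le_iff₀ h3]
      have h5 : ‖z - ρ‖ ≤ ‖z + a - ρ‖ + a := by
        calc ‖z - ρ‖ = ‖(z + a - ρ) - a‖ := by congr 1; ring
          _ ≤ ‖z + a - ρ‖ + ‖(a : ℂ)‖ := norm_sub_le _ _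
          _ = _ := by rw [norm_real, Real.norm_of_nonneg ha]
      have h6 : a / s * s ≤ a / s * ‖z + a - ρ‖ := mul_le_mul_of_nonneg_left h2 (by positivity)
      rw [div_mul_cancel₀ _ hs.ne'] at h6
      linarith
    rw [e, norm_mul, Multiset.card_cons, Nat.cast_add, Nat.cast_one, mul_add, mul_one,
      Real.exp_add, mul_comm (Real.exp _)]
    exact mul_le_mul h4 h1 (norm_nonneg _) (Real.exp_pos _).le

/-- The imaginary part of `h'` at the centre. -/
theorem phase_at : ∃ K : ℝ, 0 ≤ K ∧ ∀ (T t r D : ℝ) (P h : ℂ → ℂ), 3 ≤ T → T ≤ t →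
    t ≤ 2 * T → 2 < r → (∀ w, ‖P ((starRingEnd ℂ) w)‖ = ‖P w‖) →
    DifferentiableOn ℂ h (ball (t : ℂ) r) → (∀ w ∈ ball (t : ℂ) r, zf w = P w * exp (h w)) →
    (∀ w ∈ closedBall (t : ℂ) 2, ‖deriv h w - deriv h t‖ ≤ D) →
    |(deriv h t).im + Real.log T / 2| ≤ K + D := by
  obtain ⟨C₀, hC₀, hR⟩ := zf_right
  obtain ⟨c, C₁, hc, hC₁, hL⟩ := zf_left
  refine ⟨|Real.log c| + |Real.log C₁| + |Real.log C₀|, by positivity, ?_⟩
  intro T x r D Q h hT hx1 hx2 hr2 hQ hd hf hD
  have hT0 : 0 < T := by linarith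
  have hsub : closedBall (x : ℂ) 2 ⊆ ball (x : ℂ) r := closedBall_subset_ball hr2
  have m1 := Lower.vert_mem x (3 / 2) (by rw [abs_of_pos] <;> norm_num)
  have m2 := Lower.vert_mem x (-(3 / 2)) (by rw [abs_neg, abs_of_pos] <;> norm_num)
  have f1 := congrArg norm (hf _ (hsub m1))
  have f2 := congrArg norm (hf _ (hsub m2))
  rw [norm_mul, Complex.norm_exp] at f1 f2
  have e0 : (starRingEnd ℂ) ((x : ℂ) + (3 / 2 : ℝ) * I) = (x : ℂ) + (-(3 / 2) : ℝ) * I := by
    rw [map_add, map_mul, conj_ofReal, conj_ofReal, conj_I, ofReal_neg]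
    ring
  rw [← hQ, e0] at f1
  obtain ⟨l1, l2⟩ := hL T hT x hx1 hx2
  obtain ⟨r0, r1, r2⟩ := hR ((x : ℂ) + (-(3 / 2) : ℝ) * I) (by simp; norm_num)
  have key := (convex_closedBall (x : ℂ) 2).norm_image_sub_le_of_norm_hasDerivWithin_le
    (f := fun z => h z - z * deriv h x) (f' := fun z => deriv h z - deriv h x) (C := D)
    (fun z hz => by
      have := (hd.differentiableAt (isOpen_ball.mem_nhds (hsub hz))).hasDerivAt.sub
        ((hasDerivAt_id z).mul_const (deriv h x))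
      simp only [one_mul, id] at this
      exact this.hasDerivWithinAt) hD m2 m1
  set P := ‖Q ((x : ℂ) + (-(3 / 2) : ℝ) * I)‖ with hP
  set A := h ((x : ℂ) + (3 / 2 : ℝ) * I) with hA
  set B := h ((x : ℂ) + (-(3 / 2) : ℝ) * I) with hB
  have hz : 0 < ‖zf ((x : ℂ) + (-(3 / 2) : ℝ) * I)‖ := norm_pos_iff.2 r0
  have hP0 : 0 < P := by
    rw [f2] at hz
    exact (mul_pos_iff_of_pos_right (Real.exp_pos _)).1 hz
  have hr : 0 < T ^ (3 / 2 : ℝ) := Real.rpow_pos_of_pos hT0 _
  rw [f1] at l1 l2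
  rw [norm_inv, f2] at r2
  rw [f2] at r1
  have a1 := Real.log_le_log (by positivity) l1
  have a2 := Real.log_le_log (by positivity) l2
  have a3 := Real.log_le_log (by positivity) r1
  have a4 := Real.log_le_log (by positivity) r2
  rw [Real.log_mul hc.ne' hr.ne', Real.log_mul hP0.ne' (Real.exp_pos _).ne', Real.log_exp,
    Real.log_rpow hT0] at a1
  rw [Real.log_mul hC₁.ne' hr.ne', Real.log_mul hP0.ne' (Real.exp_pos _).ne', Real.log_exp,
    Real.log_rpow hT0] at a2
  rw [Real.log_mul hP0.ne' (Real.exp_pos _).ne', Real.log_exp] at a3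
  rw [Real.log_inv, Real.log_mul hP0.ne' (Real.exp_pos _).ne', Real.log_exp] at a4
  have e : (x : ℂ) + (3 / 2 : ℝ) * I - ((x : ℂ) + (-(3 / 2) : ℝ) * I) = (3 : ℝ) * I := by
    push_cast; ring
  rw [e, norm_mul, Complex.norm_I, Complex.norm_real, Real.norm_eq_abs,
    abs_of_pos (show (0 : ℝ) < 3 by norm_num)] at key
  have t2 := (Complex.abs_re_le_norm _).trans key
  have e2 : (A - ((x : ℂ) + (3 / 2 : ℝ) * I) * deriv h x -
      (B - ((x : ℂ) + (-(3 / 2) : ℝ) * I) * deriv h x)).re =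
      A.re - B.re + 3 * (deriv h x).im := by
    simp
    ring
  rw [e2] at t2
  obtain ⟨t3, t4⟩ := abs_le.1 t2
  have b1 := le_abs_self (Real.log c)
  have b2 := neg_abs_le (Real.log c)
  have b3 := le_abs_self (Real.log C₁)
  have b4 := neg_abs_le (Real.log C₁)
  have b5 := le_abs_self (Real.log C₀)
  have b6 := neg_abs_le (Real.log C₀)
  rw [abs_le]
  constructor <;> linarith

theorem err_le {h : ℂ → ℂ} {t r κ a : ℝ} (hd : DifferentiableOn ℂ h (ball (t : ℂ) r))
    (d2 : ∀ w ∈ ball (t : ℂ) r, ‖deriv h w - deriv h t‖ ≤ κ * ‖w - t‖) (hK : 0 ≤ κ) (ha : 0 ≤ a)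
    {z : ℂ} (hz : ‖z - t‖ + a < r) :
    ‖h (z + a) - h z - a * deriv h t‖ ≤ κ * (‖z - t‖ + a) * a := by
  have hsub : closedBall (t : ℂ) (‖z - t‖ + a) ⊆ ball (t : ℂ) r := closedBall_subset_ball hz
  have h1 := (convex_closedBall (t : ℂ) (‖z - t‖ + a)).norm_image_sub_le_of_norm_hasDerivWithin_le
    (f := fun w => h w - w * deriv h t) (f' := fun w => deriv h w - deriv h t)
    (C := κ * (‖z - t‖ + a)) (x := z) (y := z + a)
    (fun w hw => by
      have h2 := (hd.differentiableAt (isOpen_ball.mem_nhds (hsub hw))).hasDerivAt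
      have h3 := (hasDerivAt_id' w).mul_const (deriv h t)
      rw [one_mul] at h3
      exact (h2.sub h3).hasDerivWithinAt)
    (fun w hw => (d2 w (hsub hw)).trans
      (mul_le_mul_of_nonneg_left (by rwa [mem_closedBall, dist_eq_norm] at hw) hK))
    (by rw [mem_closedBall, dist_eq_norm]; linarith)
    (by
      rw [mem_closedBall, dist_eq_norm, show z + a - t = z - t + a by ring]
      refine (norm_add_le _ _).trans (le_of_eq ?_)
      rw [norm_real, Real.norm_of_nonneg ha])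
  rw [add_sub_cancel_left, norm_real, Real.norm_of_nonneg ha] at h1
  rwa [show h (z + a) - h z - a * deriv h t =
    h (z + a) - (z + a) * deriv h t - (h z - z * deriv h t) by ring]

theorem vz_Bq {Z : Multiset ℂ} {h : ℂ → ℂ} {t r a : ℝ}
    (hf : ∀ w ∈ ball (t : ℂ) r, zf w = pz Z w * exp (h w)) (ha : 0 ≤ a) {z : ℂ}
    (hz : ‖z - t‖ + a < r) :
    vz Z a z = exp (a * deriv h t) * Bq a z * exp (h (z + a) - h z - a * deriv h t) := by
  have h1 : z ∈ ball (t : ℂ) r := by
    rw [mem_ball, dist_eq_norm]; linarith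
  have h2 : z + a ∈ ball (t : ℂ) r := by
    rw [mem_ball, dist_eq_norm, show z + a - t = z - t + a by ring]
    refine (norm_add_le _ _).trans_lt ?_
    rwa [norm_real, Real.norm_of_nonneg ha]
  unfold vz Bq
  rw [hf z h1, hf _ h2, exp_sub, exp_sub, mul_div_mul_comm]
  have h3 := exp_ne_zero (h z)
  have h4 := exp_ne_zero (h (z + a))
  have h5 := exp_ne_zero (a * deriv h t)
  generalize pz Z z / pz Z (z + a) = q
  field_simp

theorem theta_near {d : ℂ} {a L E K : ℝ} (ha : 0 ≤ a) (hL : 0 < L) (a2 : a ≤ 4 / L)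
    (n1 : ‖exp (a * d)‖ ≤ E) (hph : |d.im + L / 2| ≤ K) :
    ‖exp (a * d) - ‖exp (a * d)‖ * exp (-I * (a * L / 2 : ℝ))‖ ≤ 4 * K * E / L := by
  have h1 : exp (a * d) - ‖exp (a * d)‖ * exp (-I * (a * L / 2 : ℝ)) =
      ‖exp (a * d)‖ * exp (-I * (a * L / 2 : ℝ)) * (exp (I * (a * (d.im + L / 2) : ℝ)) - 1) := by
    have h0 : (a : ℂ) * d = ((a * d).re : ℂ) +
        (-I * (a * L / 2 : ℝ) + I * (a * (d.im + L / 2) : ℝ)) := by
      apply Complex.ext <;> simp
      ring
    rw [mul_sub, mul_one, mul_assoc, ← exp_add, norm_exp, ofReal_exp, ← exp_add, ← exp_add,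
      ← h0]
  have h2 : ‖exp (-I * (a * L / 2 : ℝ))‖ = 1 := by
    rw [norm_exp]; simp
  rw [h1, norm_mul, norm_mul, h2, mul_one, norm_real, norm_norm]
  have h3 := Real.norm_exp_I_mul_ofReal_sub_one_le (x := a * (d.im + L / 2))
  rw [norm_mul, Real.norm_of_nonneg ha, Real.norm_eq_abs] at h3
  have h4 : a * |d.im + L / 2| ≤ 4 / L * K := mul_le_mul a2 hph (abs_nonneg _) (by positivity)
  refine (mul_le_mul n1 (h3.trans h4) (norm_nonneg _) ((norm_nonneg _).trans n1)).trans ?_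
  exact le_of_eq (by ring)

theorem far {T C M s B : ℝ} (hC : 1 ≤ C) (hM : 1 ≤ M) (hT : 6400 * C ^ 2 * (M + 2) ≤ T)
    (hB : B ≤ T) (hs : T / (40 * C) ≤ |s|) :
    T * (Real.exp (M * T) + B) ≤ Real.exp (s ^ 2 / 4) := by
  have hC2 : 1 ≤ C ^ 2 := one_le_pow₀ hC
  have hT0 : 0 < T := by nlinarith
  have h1 : (M + 2) * T ≤ s ^ 2 / 4 := by
    have h2 := pow_le_pow_left₀ (by positivity) hs 2
    rw [sq_abs, div_pow, div_le_iff₀ (by positivity)] at h2
    have h3 : 6400 * C ^ 2 * (M + 2) * T ≤ T * T := mul_le_mul_of_nonneg_right hT hT0.le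
    have h4 : C ^ 2 * (6400 * ((M + 2) * T)) ≤ C ^ 2 * (1600 * s ^ 2) := by nlinarith
    have h5 := le_of_mul_le_mul_left h4 (by positivity)
    linarith
  refine le_trans ?_ (Real.exp_le_exp.2 h1)
  have h6 : T ≤ Real.exp (M * T) := by
    have := Real.add_one_le_exp (M * T)
    nlinarith
  have h7 : 2 * T ≤ Real.exp (2 * T) := by linarith [Real.add_one_le_exp (2 * T)]
  rw [add_mul, Real.exp_add, mul_comm (Real.exp _)]
  calc T * (Real.exp (M * T) + B) ≤ T * (2 * Real.exp (M * T)) :=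
        mul_le_mul_of_nonneg_left (by linarith) hT0.le
    _ = 2 * T * Real.exp (M * T) := by ring
    _ ≤ _ := mul_le_mul_of_nonneg_right h7 (Real.exp_pos _).le

end LIN

open LIN in
theorem lin : LinStmt := by
  intro C hC
  obtain ⟨K, hK, HK⟩ := phase_at
  obtain ⟨-, -, h3, h4, -, h6, -⟩ := H88.ar1
  set E := Real.exp (4 * C) with hEdef
  have hE : 1 ≤ E := Real.one_le_exp (by linarith)
  refine ⟨4 * (K + 2 * C) * E, by nlinarith, fun ε hε hε1 => ?_⟩
  obtain ⟨Zb, hZ0, hZ⟩ := H83.lser_bd hε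
  filter_upwards [eventually_ge_atTop (300 * C), eventually_ge_atTop (E * Zb),
    eventually_ge_atTop (6400 * C ^ 2 * (32 * C / ε + 2)),
    Real.tendsto_log_atTop.eventually_ge_atTop 4,
    Real.tendsto_log_atTop.eventually_ge_atTop (64 / ε),
    Real.tendsto_log_atTop.eventually_ge_atTop E,
    Real.tendsto_log_atTop.eventually_ge_atTop (24 * C * E * Zb)] with T hT hT1 hT2 hL hL1 hL2 hL3
  intro a t Z h ha a2 H ht
  set L := Real.log T with hLdef
  have hT3 : 300 ≤ T := by linarith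
  have hT0 : 0 < T := by linarith
  have hL0 : 0 < L := by linarith
  have haL : a * L ≤ 4 := (le_div_iff₀ hL0).1 a2
  have ha1 : a ≤ 1 := by nlinarith
  have haε : a ≤ ε / 16 := by
    rw [div_le_iff₀ hε] at hL1
    nlinarith
  have hLL : L ≤ L ^ 2 := by nlinarith
  have hLLL : L ≤ L ^ 3 := by nlinarith
  obtain ⟨t1, t2⟩ := abs_le.1 ht
  have hsub : ball (t : ℂ) (T / 30) ⊆ ball (ctr T) (T / 16) := by
    refine ball_subset_ball' ?_
    rw [dist_eq_norm, ctr, ← ofReal_sub, norm_real, Real.norm_eq_abs]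
    linarith
  have htm : (t : ℂ) ∈ ball (t : ℂ) (T / 30) := mem_ball_self (by linarith)
  have hκ : 0 ≤ C * L / T := by positivity
  have hdf := H.diff.mono hsub
  have hfac : ∀ w ∈ ball (t : ℂ) (T / 30), zf w = pz Z w * exp (h w) := fun w hw =>
    H.fac w (hsub hw)
  have hd2 : ∀ w ∈ ball (t : ℂ) (T / 30), ‖deriv h w - deriv h t‖ ≤ C * L / T * ‖w - t‖ :=
    fun w hw => H.d2 w (hsub hw) t (hsub htm)
  have hph : |(deriv h t).im + L / 2| ≤ K + 2 * C := by
    have hLT : L / T ≤ 1 := by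
      rw [div_le_one hT0]
      linarith [Real.log_le_sub_one_of_pos hT0]
    refine HK T t (T / 30) (2 * C) (pz Z) h (by linarith) (by linarith) (by linarith)
      (by linarith) (norm_pz_conj H.sym) hdf hfac fun w hw => ?_
    refine (hd2 w (closedBall_subset_ball (by linarith) hw)).trans ?_
    rw [mem_closedBall, dist_eq_norm] at hw
    calc C * L / T * ‖w - t‖ = C * (L / T) * ‖w - t‖ := by ring
      _ ≤ C * 1 * 2 := by gcongr
      _ = 2 * C := by ring
  have hd : ‖(a : ℂ) * deriv h t‖ ≤ 4 * C := by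
    rw [norm_mul, norm_real, Real.norm_of_nonneg ha.le]
    have h1 := mul_le_mul_of_nonneg_left (H.d1 t (hsub htm)) ha.le
    nlinarith
  have hre := abs_le.1 ((abs_re_le_norm _).trans hd)
  have n1 : ‖exp (a * deriv h t)‖ ≤ E := by
    rw [norm_exp]; exact Real.exp_le_exp.2 hre.2
  have hb : ∀ n : ℕ, ‖rc 0 (I * a) n‖ ≤ Real.exp (ε / 16 * Real.log n) := by
    intro n
    rcases Nat.eq_zero_or_pos n with rfl | hn
    · rw [(h4 _ _).1, norm_zero]
      positivity
    · have e1 : ‖rc 0 (I * a) n‖ ≤ ∑ k ∈ n.divisors, ‖rc 0 (I * a) k‖ :=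
        Finset.single_le_sum (f := fun k => ‖rc 0 (I * a) k‖) (fun _ _ => norm_nonneg _)
          (Nat.mem_divisors_self n hn.ne')
      refine e1.trans ((h6 a n ha.le).trans (Real.exp_le_exp.2 ?_))
      exact mul_le_mul_of_nonneg_right haε (Real.log_natCast_nonneg n)
  have hlow : ∀ z : ℂ, z.im = -(1 / 2 + ε / 8) → ∀ ρ ∈ Z, ε / 8 ≤ ‖z + a - ρ‖ := by
    intro z hz ρ hρ
    refine le_trans ?_ (abs_im_le_norm _)
    have := abs_le.1 (H.loc ρ hρ).2
    rw [sub_im, add_im, ofReal_im, add_zero, hz, abs_of_neg (by linarith)]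
    linarith
  have hvz : ∀ z : ℂ, z.im = -(1 / 2 + ε / 8) → ‖vz Z a z‖ ≤ Real.exp (32 * C / ε * T) := by
    intro z hz
    refine (vz_le ha.le (by positivity) (hlow z hz)).trans (Real.exp_le_exp.2 ?_)
    calc a / (ε / 8) * Z.card ≤ a / (ε / 8) * (C * T * L) :=
          mul_le_mul_of_nonneg_left H.card (by positivity)
      _ = a * L * (8 * C / ε * T) := by field_simp
      _ ≤ 4 * (8 * C / ε * T) := mul_le_mul_of_nonneg_right haL (by positivity)
      _ = _ := by ring
  have hC' : E ≤ 4 * (K + 2 * C) * E := le_mul_of_one_le_left (by linarith) (by linarith)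
  refine ⟨exp (a * deriv h t), ?_, n1.trans hC', theta_near ha.le hL0 a2 n1 hph,
    ⟨fun z hz => ?_, _, (Real.exp_pos _).le, fun z hz => hvz z (le_antisymm hz.2 hz.1)⟩,
    fun n => ?_, fun x => ?_⟩
  · rw [norm_exp, div_le_iff₀ (by linarith)]
    have h1 : 1 ≤ Real.exp (a * deriv h t).re * E := by
      rw [hEdef, ← Real.exp_add]
      exact Real.one_le_exp (by linarith [hre.1])
    exact h1.trans (mul_le_mul_of_nonneg_left hC' (Real.exp_pos _).le)
  · refine DifferentiableAt.differentiableWithinAt ?_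
    refine (pz_diff Z z).div ((pz_diff Z _).comp z (differentiableAt_id.add_const _)) ?_
    refine pz_ne fun ρ hρ => norm_pos_iff.1 ?_
    exact lt_of_lt_of_le (by positivity) (hlow z (le_antisymm hz.2 hz.1) ρ hρ)
  · rw [norm_mul]
    exact mul_le_mul ((n1.trans hL2).trans hLL) (hb n) (norm_nonneg _) (by positivity)
  · set z : ℂ := x - (1 / 2 + ε / 8 : ℝ) * I with hz
    have him : z.im = -(1 / 2 + ε / 8) := by simp [hz]
    have hre' : z.re = x := by simp [hz]
    have hs : (1 / 2 + I * z).re = 1 + ε / 8 := by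
      simp [him]
      ring
    have e2 : LSeries (rc 0 (I * a)) (1 / 2 + I * z) = Bq a z := by
      rw [(h3 0 (I * a) (1 / 2 + I * z) (by rw [add_zero, hs]; linarith)
        (by rw [Complex.add_re, hs]; simp; linarith)).2, Bq, zf, zf, add_zero]
      congr 2
      ring
    have e3 : LSeries (fun n => exp (a * deriv h t) * rc 0 (I * a) n) (1 / 2 + I * z) =
        exp (a * deriv h t) * Bq a z := by
      rw [← e2]
      exact LSeries_smul (rc 0 (I * a)) _ _
    have e4 : ‖Bq a z‖ ≤ Zb := e2 ▸ hZ _ _ hb hs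
    have e5 : ‖exp (a * deriv h t) * Bq a z‖ ≤ E * Zb := by
      rw [norm_mul]
      exact mul_le_mul n1 e4 (norm_nonneg _) (by linarith)
    have hx := Real.exp_pos ((x - t) ^ 2 / 4)
    rw [e3]
    rcases lt_or_ge |x - t| (T / (40 * C)) with h1 | h1
    · have h2 := H23.norm_le_re (z := z) t (by rw [him]; linarith) (by rw [him]; linarith)
      rw [hre'] at h2
      have h7 : T / (40 * C) ≤ T / 40 := div_le_div_of_nonneg_left hT0.le (by norm_num) (by linarith)
      have h8 : ‖z - t‖ + a < T / 30 := by linarith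
      have h9 := err_le hdf hd2 hκ ha.le h8
      have h10 : ‖h (z + a) - h z - a * deriv h t‖ ≤ 4 * (C / T * (|x - t| + 2)) := by
        refine h9.trans ?_
        calc C * L / T * (‖z - t‖ + a) * a = a * L * (C / T * (‖z - t‖ + a)) := by ring
          _ ≤ 4 * (C / T * (|x - t| + 2)) :=
            mul_le_mul haL (mul_le_mul_of_nonneg_left (by linarith) (by positivity))
              (by positivity) (by norm_num)
      have h11 : ‖h (z + a) - h z - a * deriv h t‖ ≤ 1 := by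
        refine h10.trans ?_
        have h12 : C / T * (|x - t| + 2) ≤ C / T * (T / (40 * C) + 2) :=
          mul_le_mul_of_nonneg_left (by linarith) (by positivity)
        have h13 : C / T * (T / (40 * C) + 2) = 1 / 40 + 2 * (C / T) := by field_simp
        have h14 : C / T ≤ 1 / 300 := by
          rw [div_le_div_iff₀ hT0 (by norm_num)]
          linarith
        linarith
      rw [vz_Bq hfac ha.le h8, ← mul_sub_one, norm_mul]
      have h5 := H23.gauss (x - t)
      have h15 : ‖exp (h (z + a) - h z - a * deriv h t) - 1‖ ≤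
          24 * (C / T) * Real.exp ((x - t) ^ 2 / 4) := by
        refine (norm_exp_sub_one_le h11).trans ?_
        have h16 : C / T * (|x - t| + 2) ≤ C / T * (3 * Real.exp ((x - t) ^ 2 / 4)) :=
          mul_le_mul_of_nonneg_left h5 (by positivity)
        linarith
      refine (mul_le_mul e5 h15 (norm_nonneg _) (by positivity)).trans ?_
      calc E * Zb * (24 * (C / T) * Real.exp ((x - t) ^ 2 / 4)) =
            24 * C * E * Zb / T * Real.exp ((x - t) ^ 2 / 4) := by ring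
        _ ≤ _ := mul_le_mul_of_nonneg_right
            (div_le_div_of_nonneg_right (hL3.trans hLLL) hT0.le) hx.le
    · have hM : 1 ≤ 32 * C / ε := by
        rw [le_div_iff₀ hε]
        linarith
      have h2 := far hC hM hT2 hT1 h1
      refine ((norm_sub_le _ _).trans (add_le_add (hvz z him) e5)).trans ?_
      rw [div_mul_eq_mul_div (Real.log T ^ 3), le_div_iff₀ hT0, mul_comm]
      exact h2.trans (le_mul_of_one_le_left hx.le (by linarith))

end Pool.Agent.MP_ca0a54_nt.P
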