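import Pool.Agent.MP_ca0a54_nt.P.Spec
import Pool.Agent.MP_ca0a54_nt.L0.Final

/-! Row LST: the list of the positive ordinates of the zeros, with multiplicity, exists. -/

open Complex Filter Topology

namespace Pool.Agent.MP_ca0a54_nt.P

open Pool.Agent.MP_ca0a54_nt.L0

namespace LST

/-- An infinite linear order with finite initial segments is order isomorphic to `ℕ`. -/
theorem exists_iso {A : Type} [LinearOrder A] [Infinite A] (h : ∀ a : A, (Set.Iic a).Finite) :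
    Nonempty (A ≃o ℕ) := by
  classical
  let _i : LocallyFiniteOrder A := LocallyFiniteOrder.ofFiniteIcc fun a b =>
    (h b).subset Set.Icc_subset_Iic_self
  let _i : SuccOrder A := LinearLocallyFiniteOrder.succOrder A
  let _i : PredOrder A := LinearLocallyFiniteOrder.predOrder A
  have _i : NoMaxOrder A := ⟨fun a => by
    by_contra hc
    refine Set.infinite_univ (α := A) ((h a).subset fun b _ => ?_)
    exact not_lt.1 fun hb => hc ⟨b, hb⟩⟩
  obtain ⟨a₀⟩ : Nonempty A := inferInstance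
  obtain ⟨b, hb, hmin⟩ := (h a₀).exists_minimal ⟨a₀, Set.mem_Iic.2 le_rfl⟩
  let _i : OrderBot A :=
    { bot := b
      bot_le := fun c => by
        by_contra hc
        have h1 : c ≤ b := (not_le.1 hc).le
        exact hc (hmin (Set.mem_Iic.2 (h1.trans hb)) h1) }
  exact ⟨orderIsoNatOfLinearSuccPredArch⟩

/-- Listing a locally finite multiset of positive reals. -/
theorem exists_list (m : ℝ → ℕ) (hinf : {x : ℝ | 0 < x ∧ m x ≠ 0}.Infinite)
    (hfin : ∀ y : ℝ, {x : ℝ | (0 < x ∧ m x ≠ 0) ∧ x ≤ y}.Finite) :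
    ∃ γ : ℕ → ℝ, Monotone γ ∧ (∀ n, 0 < γ n) ∧
      ∀ x : ℝ, 0 < x → {n | γ n = x}.encard = (m x : ℕ∞) := by
  classical
  let A : Type := {p : ℝ ×ₗ ℕ // 0 < (ofLex p).1 ∧ (ofLex p).2 < m (ofLex p).1}
  have hle : ∀ p q : A, p ≤ q → (ofLex p.1).1 ≤ (ofLex q.1).1 := fun p q hpq => by
    have h1 : p.1 ≤ q.1 := hpq
    rcases Prod.Lex.le_iff.1 h1 with h2 | h2
    · exact h2.le
    · exact h2.1.le
  have _i : Infinite A := by
    have _i : Infinite {x : ℝ | 0 < x ∧ m x ≠ 0} := hinf.to_subtype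
    refine Infinite.of_injective (fun x : {x : ℝ | 0 < x ∧ m x ≠ 0} =>
      (⟨toLex (x.1, 0), x.2.1, Nat.pos_of_ne_zero x.2.2⟩ : A)) fun x y hxy => ?_
    have h1 := congrArg (fun p : A => (ofLex p.1).1) hxy
    exact Subtype.ext h1
  have hI : ∀ a : A, (Set.Iic a).Finite := fun a => by
    have h1 : (⋃ x ∈ {x : ℝ | (0 < x ∧ m x ≠ 0) ∧ x ≤ (ofLex a.1).1},
        (fun k : ℕ => toLex (x, k)) '' Set.Iio (m x)).Finite :=
      (hfin _).biUnion fun x _ => (Set.finite_Iio _).image _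
    refine Set.Finite.of_finite_image (f := Subtype.val) (h1.subset ?_) Subtype.val_injective.injOn
    rintro _ ⟨p, hp, rfl⟩
    refine Set.mem_biUnion (x := (ofLex p.1).1) ⟨⟨p.2.1, ?_⟩, hle p a hp⟩ ⟨(ofLex p.1).2, p.2.2, rfl⟩
    exact (Nat.zero_lt_of_lt p.2.2).ne'
  obtain ⟨e⟩ := exists_iso hI
  refine ⟨fun n => (ofLex (e.symm n).1).1, fun i j hij => hle _ _ (e.symm.monotone hij),
    fun n => (e.symm n).2.1, fun x hx => ?_⟩
  have h2 : {n | (ofLex (e.symm n).1).1 = x} =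
      Set.range fun k : Fin (m x) => e ⟨toLex (x, (k : ℕ)), hx, k.2⟩ := by
    ext n
    constructor
    · intro hn
      have hn' : (ofLex (e.symm n).1).1 = x := hn
      have h3 : (ofLex (e.symm n).1).2 < m x := by
        rw [← hn']
        exact (e.symm n).2.2
      refine ⟨⟨(ofLex (e.symm n).1).2, h3⟩, ?_⟩
      refine e.symm.injective ?_
      rw [OrderIso.symm_apply_apply]
      refine Subtype.ext ?_
      change toLex (x, (ofLex (e.symm n).1).2) = (e.symm n).1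
      rw [← hn']
      rfl
    · rintro ⟨k, rfl⟩
      change (ofLex (e.symm (e _)).1).1 = x
      rw [OrderIso.symm_apply_apply]
      rfl
  have h4 : Function.Injective fun k : Fin (m x) => e ⟨toLex (x, (k : ℕ)), hx, k.2⟩ :=
    fun k l hkl => by
      have h5 := congrArg (fun p : A => (ofLex p.1).2) (e.injective hkl)
      exact Fin.ext h5
  rw [h2, ← Set.image_univ, h4.encard_image, Set.encard_univ]
  simp

theorem pt (ρ : ℂ) : 1 / 2 + I * (-I * (ρ - 1 / 2)) = ρ := by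
  linear_combination (-(ρ - 1 / 2)) * I_mul_I

theorem pt_re (ρ : ℂ) : (-I * (ρ - 1 / 2)).re = ρ.im := by simp

theorem pt_im (ρ : ℂ) : (-I * (ρ - 1 / 2)).im = 1 / 2 - ρ.re := by simp

theorem zero_of_mult {x : ℝ} (h : mult x ≠ 0) : ∃ ρ : ℂ, ρ.im = x ∧ riemannZeta ρ = 0 := by
  by_contra hc
  refine h (finsum_mem_of_eqOn_zero fun ρ hρ => ?_)
  have h1 : riemannZeta ρ ≠ 0 := fun h2 => hc ⟨ρ, hρ, h2⟩
  change analyticOrderNatAt riemannZeta ρ = 0
  unfold analyticOrderNatAt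
  rw [analyticOrderAt_eq_zero.2 (Or.inr h1)]
  rfl

theorem mult_of_zero (ho : OrdStmt) {ρ : ℂ} (h : riemannZeta ρ = 0) (him : 0 < ρ.im) :
    mult ρ.im ≠ 0 ∧ 0 ≤ ρ.re ∧ ρ.re ≤ 1 := by
  obtain ⟨-, h2, h3, h4⟩ := ho (-I * (ρ - 1 / 2)) (by rw [pt_re]; exact him)
  have h5 : zf (-I * (ρ - 1 / 2)) = 0 := by
    unfold zf
    rw [pt]
    exact h
  obtain ⟨h6, h7⟩ := h3 h5
  rw [h2, pt] at h7
  rw [pt_im, abs_le] at h6
  rw [pt_re, Set.inter_comm] at h4
  refine ⟨fun h8 => ?_, by linarith [h6.2], by linarith [h6.1]⟩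
  unfold mult at h8
  rw [finsum_mem_eq_sum _ h4, Finset.sum_eq_zero_iff] at h8
  have h9 := h8 ρ (h4.mem_toFinset.2 ⟨rfl, by
    rw [Function.mem_support]
    omega⟩)
  omega

end LST

theorem lst : OrdStmt → LstStmt := by
  intro ho
  refine LST.exists_list mult ?_ fun y => ?_
  · obtain ⟨T₀, hT⟩ := small_gap_all 1 one_pos
    refine Set.infinite_of_not_bddAbove ?_
    rintro ⟨M, hM⟩
    obtain ⟨ρ, -, h1, -, h2, -⟩ := hT (max T₀ (max M 0 + 1)) (le_max_left _ _)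
    have h3 : max M 0 + 1 ≤ ρ.im := (le_max_right _ _).trans h2
    have h4 : 0 < ρ.im := by linarith [le_max_right M 0]
    have h5 : ρ.im ≤ M := hM ⟨h4, (LST.mult_of_zero ho h1 h4).1⟩
    linarith [le_max_left M 0]
  · have h1 : IsCompact (Set.Icc (0 : ℝ) 1 ×ℂ Set.Icc (0 : ℝ) y) :=
      isCompact_Icc.reProdIm isCompact_Icc
    refine (h1.inter_riemannZetaZeros_finite.image Complex.im).subset ?_
    rintro x ⟨⟨h2, h3⟩, h4⟩
    obtain ⟨ρ, rfl, h5⟩ := LST.zero_of_mult h3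
    exact ⟨ρ, ⟨⟨(LST.mult_of_zero ho h5 h2).2, h2.le, h4⟩, h5⟩, rfl⟩

end Pool.Agent.MP_ca0a54_nt.P
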