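import Pool.Agent.MP_ca0a54_nt.P.Spec
import Pool.Agent.MP_ca0a54_nt.L0.Zeros

/-! Orders of zeros under reflection. -/

open Complex Filter Topology

namespace Pool.Agent.MP_ca0a54_nt.P

open Pool.Agent.MP_ca0a54_nt.L0

namespace ORD

theorem ord_zf (w : ℂ) :
    analyticOrderAt zf w = analyticOrderAt riemannZeta (1 / 2 + I * w) := by
  have h5 : HasDerivAt (fun w : ℂ => 1 / 2 + I * w) I w := by
    simpa using ((hasDerivAt_id w).const_mul I).const_add (1 / 2)
  exact analyticOrderAt_comp_of_deriv_ne_zero (f := riemannZeta)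
    (g := fun w : ℂ => 1 / 2 + I * w) (by fun_prop) (by rw [h5.deriv]; exact I_ne_zero)

theorem tends (s : ℂ) : Tendsto (starRingEnd ℂ) (𝓝 ((starRingEnd ℂ) s)) (𝓝 s) := by
  have h := continuous_conj.tendsto ((starRingEnd ℂ) s)
  rwa [conj_conj] at h

theorem an_conj {g : ℂ → ℂ} {s : ℂ} (hg : AnalyticAt ℂ g s) :
    AnalyticAt ℂ (fun z => (starRingEnd ℂ) (g ((starRingEnd ℂ) z))) ((starRingEnd ℂ) s) := by
  rw [analyticAt_iff_eventually_differentiableAt] at hg ⊢
  filter_upwards [(tends s).eventually hg] with z hz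
  have h := hz.conj_conj
  rw [conj_conj] at h
  exact h

theorem ord_conj {f : ℂ → ℂ} (hf : ∀ z, f ((starRingEnd ℂ) z) = (starRingEnd ℂ) (f z)) {s : ℂ}
    (hs : AnalyticAt ℂ f s) :
    analyticOrderAt f ((starRingEnd ℂ) s) = analyticOrderAt f s := by
  have hf' : ∀ z, f z = (starRingEnd ℂ) (f ((starRingEnd ℂ) z)) := fun z => by rw [hf, conj_conj]
  have hs' : AnalyticAt ℂ f ((starRingEnd ℂ) s) := by
    have h := an_conj hs
    simpa only [← hf'] using h
  by_cases ht : analyticOrderAt f s = ⊤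
  · rw [ht, analyticOrderAt_eq_top]
    filter_upwards [(tends s).eventually (analyticOrderAt_eq_top.1 ht)] with z hz
    rw [hf', hz, map_zero]
  · obtain ⟨n, hn⟩ := ENat.ne_top_iff_exists.1 ht
    rw [← hn, hs'.analyticOrderAt_eq_natCast]
    obtain ⟨g, hg, hg0, hfg⟩ := hs.analyticOrderAt_eq_natCast.1 hn.symm
    refine ⟨_, an_conj hg, ?_, ?_⟩
    · simpa using hg0
    · filter_upwards [(tends s).eventually hfg] with z hz
      rw [hf', hz]
      simp

theorem ne_one {s : ℂ} (hs : s.im ≠ 0) : s ≠ 1 := fun h => hs (by rw [h, one_im])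

theorem ne_neg {s : ℂ} (hs : s.im ≠ 0) (n : ℕ) : s ≠ -n := fun h => hs (by rw [h]; simp)

theorem an_zeta {s : ℂ} (hs : s.im ≠ 0) : AnalyticAt ℂ riemannZeta s :=
  analyticOn_riemannZeta s (ne_one hs)

theorem ev_im {s : ℂ} (hs : s.im ≠ 0) : ∀ᶠ z in 𝓝 s, z.im ≠ 0 :=
  continuous_im.continuousAt.eventually_ne hs

theorem ord_sub {s : ℂ} (hs : s.im ≠ 0) :
    analyticOrderAt riemannZeta (1 - s) = analyticOrderAt riemannZeta s := by
  have hpi : (2 * (Real.pi : ℂ)) ≠ 0 := mul_ne_zero two_ne_zero (ofReal_ne_zero.2 Real.pi_ne_zero)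
  have h1 : HasDerivAt (fun w : ℂ => 1 - w) (-1) s := by
    simpa using (hasDerivAt_id s).const_sub 1
  have h2 := analyticOrderAt_comp_of_deriv_ne_zero (f := riemannZeta)
    (g := fun w : ℂ => 1 - w) (z₀ := s) (by fun_prop) (by rw [h1.deriv]; norm_num)
  have h3 : AnalyticAt ℂ (fun z : ℂ =>
      2 * (2 * (Real.pi : ℂ)) ^ (-z) * Gamma z * cos (Real.pi * z / 2)) s := by
    rw [analyticAt_iff_eventually_differentiableAt]
    filter_upwards [ev_im hs] with z hz
    have h4 := differentiableAt_Gamma z (ne_neg hz)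
    have h5 : DifferentiableAt ℂ (fun z : ℂ => (2 * (Real.pi : ℂ)) ^ (-z)) z :=
      differentiableAt_id.neg.const_cpow (Or.inl hpi)
    exact ((h5.const_mul 2).mul h4).mul (by fun_prop)
  have h6 : 2 * (2 * (Real.pi : ℂ)) ^ (-s) * Gamma s * cos (Real.pi * s / 2) ≠ 0 := by
    refine mul_ne_zero (mul_ne_zero (mul_ne_zero two_ne_zero ?_) (Gamma_ne_zero (ne_neg hs))) ?_
    · rw [Ne, cpow_eq_zero_iff]
      exact fun h => hpi h.1
    · rw [Ne, cos_eq_zero_iff]
      rintro ⟨k, hk⟩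
      have h7 := congrArg Complex.im hk
      simp at h7
      exact hs h7
  have h8 : (riemannZeta ∘ fun w : ℂ => 1 - w) =ᶠ[𝓝 s] (fun z : ℂ =>
      2 * (2 * (Real.pi : ℂ)) ^ (-z) * Gamma z * cos (Real.pi * z / 2)) * riemannZeta := by
    filter_upwards [ev_im hs] with z hz
    exact riemannZeta_one_sub (ne_neg hz) (ne_one hz)
  rw [← h2, analyticOrderAt_congr h8, analyticOrderAt_mul h3 (an_zeta hs),
    h3.analyticOrderAt_eq_zero.2 h6, zero_add]

theorem strip {s : ℂ} (hs : s.im ≠ 0) (h : riemannZeta s = 0) : 0 < s.re ∧ s.re < 1 := by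
  constructor
  · by_contra h1
    refine riemannZeta_ne_zero_of_one_le_re ?_ (Zeros.reflect h hs)
    simp only [sub_re, one_re, conj_re]
    linarith
  · by_contra h1
    exact riemannZeta_ne_zero_of_one_le_re (not_lt.1 h1) h

theorem ne_top {s : ℂ} (hs : s.im ≠ 0) : analyticOrderAt riemannZeta s ≠ ⊤ := by
  have h2 : (2 : ℂ) ∈ ({1}ᶜ : Set ℂ) := by simp
  refine analyticOn_riemannZeta.analyticOrderAt_ne_top_of_isPreconnected
    (isConnected_compl_singleton_of_one_lt_rank (by simp) 1).isPreconnected h2 (ne_one hs) ?_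
  rw [(analyticOn_riemannZeta 2 h2).analyticOrderAt_eq_zero.2
    (riemannZeta_ne_zero_of_one_le_re (by simp))]
  exact ENat.zero_ne_top

end ORD

theorem ord : OrdStmt := by
  intro w hw
  have hs : (1 / 2 + I * w).im ≠ 0 := by
    rw [Zeros.pt_im]
    exact hw.ne'
  refine ⟨?_, ?_, fun h => ⟨?_, ?_⟩, ?_⟩
  · have e : 1 / 2 + I * (starRingEnd ℂ) w = 1 - (starRingEnd ℂ) (1 / 2 + I * w) := by
      apply Complex.ext <;> simp
      ring
    have hs' : ((starRingEnd ℂ) (1 / 2 + I * w)).im ≠ 0 := by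
      rw [conj_im]
      exact neg_ne_zero.2 hs
    unfold analyticOrderNatAt
    rw [ORD.ord_zf, ORD.ord_zf, e, ORD.ord_sub hs', ORD.ord_conj riemannZeta_conj (ORD.an_zeta hs)]
  · unfold analyticOrderNatAt
    rw [ORD.ord_zf]
  · have h1 := ORD.strip hs h
    rw [Zeros.pt_re] at h1
    rw [abs_le]
    constructor <;> linarith [h1.1, h1.2]
  · unfold analyticOrderNatAt
    rw [ORD.ord_zf, Nat.one_le_iff_ne_zero, Ne, ENat.toNat_eq_zero, not_or]
    exact ⟨analyticOrderAt_ne_zero.2 ⟨ORD.an_zeta hs, h⟩, ORD.ne_top hs⟩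
  · have h1 : IsCompact ((fun u : ℝ => (u + w.re * I : ℂ)) '' Set.Icc 0 1) :=
      isCompact_Icc.image (by fun_prop)
    refine h1.inter_riemannZetaZeros_finite.subset ?_
    rintro ρ ⟨h2, h3⟩
    have h4 : riemannZeta ρ = 0 := apply_eq_zero_of_analyticOrderNatAt_ne_zero h2
    have h5 : ρ.im = w.re := h3
    have h6 := ORD.strip (by rw [h5]; exact hw.ne') h4
    exact ⟨⟨ρ.re, ⟨h6.1.le, h6.2.le⟩, by rw [← h5]; exact re_add_im ρ⟩, h4⟩

end Pool.Agent.MP_ca0a54_nt.P
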