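import Pool.Agent.MP_ca0a54_nt.P.Spec
import Pool.Agent.MP_ca0a54_nt.H91.SC

/-! Row QK: the quadratic contour identity with an entire weight of small exponential type. -/

open Complex MeasureTheory Filter Topology

namespace Pool.Agent.MP_ca0a54_nt.P

open Pool.Agent.MP_ca0a54_nt.H24 Pool.Agent.MP_ca0a54_nt.H10

namespace QK

theorem bd_K {K : ℂ → ℂ} {τ : ℝ} (hτ : 0 ≤ τ) (hK : Differentiable ℂ K)
    (hb : ∀ z, ‖K z‖ ≤ Real.exp (τ * |z.im|)) (a b : ℝ) : Bd K a b := by
  refine ⟨hK.differentiableOn, Real.exp (τ * (|a| + |b|)), (Real.exp_pos _).le, fun z hz => ?_⟩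
  refine (hb z).trans (Real.exp_le_exp.2 (mul_le_mul_of_nonneg_left ?_ hτ))
  rw [abs_le]
  constructor
  · linarith [hz.1, neg_abs_le a, abs_nonneg b]
  · linarith [hz.2, le_abs_self b, abs_nonneg a]

theorem li_real (P K : ℂ → ℂ) (r : ℕ → ℂ) (N : ℕ) (t : ℝ) :
    li (fun z => P z * Rs r N z * K z) t 0 =
      ∫ x : ℝ, P (t + x : ℝ) * (starRingEnd ℂ) (dp r N (t + x : ℝ)) * K (t + x : ℝ) *
        (Real.exp (-x ^ 2) : ℝ) := by
  unfold li
  rw [← integral_add_left_eq_self _ t]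
  congr 1
  funext x
  rw [conj_dp, conj_ofReal, ofReal_zero, zero_mul, add_zero, ga]
  congr 1
  push_cast
  congr 1
  ring

end QK

theorem qk : QkStmt := by
  have hs := H91.shift
  intro ε hε hε2
  set c : ℝ := 1 / 2 + ε / 8 with hcd
  set H : ℝ := 2 + 32 / ε with hHd
  have hH : 2 ≤ H := le_add_of_nonneg_right (by positivity)
  have hc : 0 < c := by positivity
  have e1 := Real.tendsto_log_atTop.eventually
    (ev_pow (2 * 2 * Real.exp (c ^ 2) * K0) (ε / 4) (by positivity) 4)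
  have e2 := Real.tendsto_log_atTop.eventually
    (ev_pow (2 * 2 * Real.exp ((c + H) ^ 2) * K0) (1 / 2) (by norm_num) 2)
  filter_upwards [e1, e2, Real.tendsto_log_atTop.eventually (eventually_ge_atTop 1),
    eventually_gt_atTop (0 : ℝ)] with T hT1 hT2 hL hT N N₂ hN hNT hN₂ t V K d r hr hK hKb hA
  set L := Real.log T with hLd
  have hNp : (0 : ℝ) < N := Nat.cast_pos.2 hN
  have hlN : Real.log N ≤ (1 - ε) * L := by
    rw [hLd, ← Real.log_rpow hT]
    exact Real.log_le_log hNp hNT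
  have hl0 := Real.log_natCast_nonneg N
  have hεL : 0 < ε * L := by positivity
  have hN₂1 : 1 ≤ N₂ := by
    rcases Nat.eq_zero_or_pos N₂ with h | h
    · rw [h, Nat.cast_zero, Real.log_zero] at hN₂
      linarith
    · exact h
  have hD : ∀ a, Bd (fun z => LSeries d (1 / 2 + I * z)) a (-c) :=
    bd_D hA.hd (by rw [hcd]; linarith)
  have hR := bd_dp r N
  have hS := bd_Rs r N
  have hP := bd_dp (cv d (cut r N)) N₂
  have hKB := QK.bd_K (by positivity) hK hKb
  have b1 : Bd (fun z => (V z - LSeries d (1 / 2 + I * z)) * (dp r N z * Rs r N z * K z))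
      (-c) (-c) := (hA.bd.sub (hD _)).mul (((hR _ _).mul (hS _ _)).mul (hKB _ _))
  have b2 : ∀ a, Bd (fun z => (LSeries d (1 / 2 + I * z) * dp r N z - dp (cv d (cut r N)) N₂ z) *
      (Rs r N z * K z)) a (-c) := fun a =>
    (((hD a).mul (hR _ _)).sub (hP _ _)).mul ((hS _ _).mul (hKB _ _))
  have b3 : ∀ a b, Bd (fun z => dp (cv d (cut r N)) N₂ z * Rs r N z * K z) a b := fun a b =>
    ((hP a b).mul (hS a b)).mul (hKB a b)
  have hsplit : (fun z => V z * (K z * (dp r N z * Rs r N z))) = fun z =>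
      ((V z - LSeries d (1 / 2 + I * z)) * (dp r N z * Rs r N z * K z) +
        (LSeries d (1 / 2 + I * z) * dp r N z - dp (cv d (cut r N)) N₂ z) * (Rs r N z * K z)) +
        dp (cv d (cut r N)) N₂ z * Rs r N z * K z := by
    funext z
    ring
  rw [← QK.li_real, hsplit, li_add (b1.add (b2 _)) (b3 _ _),
    li_add b1 (b2 _), li_shift hs (by linarith : -c ≤ 0) (b3 _ _),
    ← li_shift hs (by linarith : -(c + H) ≤ -c) (b2 _), add_sub_cancel_right]
  refine (norm_add_le _ _).trans ?_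
  have k1 := li_bound (F := fun z => (V z - LSeries d (1 / 2 + I * z)) *
      (dp r N z * Rs r N z * K z)) (γ := -c) (t := t)
      (B := L ^ 3 / T * (2 * L * Real.exp ((1 - 13 * ε / 16) * L))) fun x => by
    have h1 := hA.app x
    have h2 : (x : ℂ) + ((-c : ℝ) : ℂ) * I = x - ((1 / 2 + ε / 8 : ℝ) : ℂ) * I := by
      rw [ofReal_neg, neg_mul, sub_eq_add_neg]
    have h3 : ((x : ℂ) + ((-c : ℝ) : ℂ) * I).im = -c := by simp
    have h4 := norm_dp hr N ((x : ℂ) + ((-c : ℝ) : ℂ) * I) (by rw [h3, hcd]; linarith)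
    have h5 := norm_Rs hr hN ((x : ℂ) + ((-c : ℝ) : ℂ) * I) (by rw [h3, hcd]; linarith)
    have h7 := hKb ((x : ℂ) + ((-c : ℝ) : ℂ) * I)
    rw [← h2] at h1
    rw [h3] at h5
    rw [h3, abs_neg, abs_of_pos hc] at h7
    have h6 : (1 / 2 - -c) * Real.log N ≤ (1 - 7 * ε / 8) * L := by
      rw [hcd]
      nlinarith [mul_le_mul_of_nonneg_left hlN (by positivity : 0 ≤ 1 + ε / 8),
        mul_pos hε hεL]
    have h8 : ε * L / 16 * c ≤ ε * L / 16 :=
      mul_le_of_le_one_right (by positivity) (by rw [hcd]; linarith)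
    have h9 : ‖Rs r N ((x : ℂ) + ((-c : ℝ) : ℂ) * I)‖ * ‖K ((x : ℂ) + ((-c : ℝ) : ℂ) * I)‖ ≤
        Real.exp ((1 - 13 * ε / 16) * L) := by
      refine (mul_le_mul h5 h7 (norm_nonneg _) (Real.exp_pos _).le).trans ?_
      rw [← Real.exp_add]
      exact Real.exp_le_exp.2 (by linarith)
    rw [norm_mul, norm_mul, norm_mul, mul_right_comm (L ^ 3 / T), mul_assoc ‖dp r N _‖]
    refine mul_le_mul h1 (mul_le_mul (h4.trans (by linarith)) h9
      (by positivity) (by positivity)) (by positivity) (by positivity)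
  have k2 := li_bound (F := fun z => (LSeries d (1 / 2 + I * z) * dp r N z -
      dp (cv d (cut r N)) N₂ z) * (Rs r N z * K z)) (γ := -(c + H)) (t := t)
      (B := 2 * L ^ 2 * Real.exp (-(3 / 4) * L)) fun x => by
    have h3 : ((x : ℂ) + ((-(c + H) : ℝ) : ℂ) * I).im = -(c + H) := by simp
    have h4 := tail_bound (by positivity) (by positivity) hH hA.hd hr N N₂ hN₂1
      ((x : ℂ) + ((-(c + H) : ℝ) : ℂ) * I) (by rw [h3, hcd]; linarith)
    have h5 := norm_Rs hr hN ((x : ℂ) + ((-(c + H) : ℝ) : ℂ) * I) (by rw [h3]; linarith)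
    have h11 := hKb ((x : ℂ) + ((-(c + H) : ℝ) : ℂ) * I)
    rw [h3] at h5
    rw [h3, abs_neg, abs_of_pos (by linarith)] at h11
    have h6 : (2 - H) * Real.log N₂ + ((1 / 2 - -(c + H)) * Real.log N + ε * L / 16 * (c + H)) ≤
        -(3 / 4) * L := by
      have h7 : (H - 2) * (ε * L / 4) = 8 * L := by
        rw [hHd]
        field_simp
        ring
      have h8 := mul_le_mul_of_nonneg_left hN₂ (sub_nonneg.2 hH)
      have h9 : Real.log N ≤ L := by linarith
      have h10 : ε * Real.log N ≤ 1 / 2 * L := mul_le_mul hε2 h9 hl0 (by norm_num)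
      have h12 : ε * L ≤ 1 / 2 * L := mul_le_mul_of_nonneg_right hε2 (by linarith)
      have h13 : ε * L * c ≤ ε * L := mul_le_of_le_one_right hεL.le (by rw [hcd]; linarith)
      have h14 : c * Real.log N = 1 / 2 * Real.log N + ε * Real.log N / 8 := by
        rw [hcd]; ring
      nlinarith
    rw [norm_mul, norm_mul]
    refine (mul_le_mul h4 (mul_le_mul h5 h11 (norm_nonneg _) (Real.exp_pos _).le)
      (by positivity) (by positivity)).trans ?_
    rw [mul_assoc, ← Real.exp_add, ← Real.exp_add]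
    refine (mul_le_mul_of_nonneg_left (Real.exp_le_exp.2 h6) (by positivity)).trans
      (le_mul_of_one_le_right (by positivity) (Real.one_le_exp (by positivity)))
  refine (add_le_add k1 k2).trans ?_
  rw [Real.rpow_def_of_pos hT, ← hLd, neg_sq, neg_sq]
  have hTe : T = Real.exp L := (Real.exp_log hT).symm
  have m1 : L ^ 3 / T * (2 * L * Real.exp ((1 - 13 * ε / 16) * L)) * Real.exp (c ^ 2) * K0 ≤
      Real.exp (L * -(ε / 2)) / 2 := by
    have h1 : Real.exp ((1 - 13 * ε / 16) * L) = T * Real.exp (-(13 * ε / 16) * L) := by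
      rw [hTe, ← Real.exp_add]
      congr 1
      ring
    have h2 : Real.exp (ε / 4 * L) * Real.exp (-(13 * ε / 16) * L) ≤
        Real.exp (L * -(ε / 2)) := by
      rw [← Real.exp_add]
      exact Real.exp_le_exp.2 (by linarith)
    have h3 := mul_le_mul_of_nonneg_right hT1 (Real.exp_pos (-(13 * ε / 16) * L)).le
    have h4 : L ^ 3 / T * (2 * L * (T * Real.exp (-(13 * ε / 16) * L))) * Real.exp (c ^ 2) * K0 =
        2 * 2 * Real.exp (c ^ 2) * K0 * L ^ 4 * Real.exp (-(13 * ε / 16) * L) / 2 := by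
      field_simp
    rw [h1, h4]
    linarith
  have m2 : 2 * L ^ 2 * Real.exp (-(3 / 4) * L) * Real.exp ((c + H) ^ 2) * K0 ≤
      Real.exp (L * -(ε / 2)) / 2 := by
    have h2 : Real.exp (1 / 2 * L) * Real.exp (-(3 / 4) * L) ≤ Real.exp (L * -(ε / 2)) := by
      rw [← Real.exp_add]
      exact Real.exp_le_exp.2 (by nlinarith)
    have h3 := mul_le_mul_of_nonneg_right hT2 (Real.exp_pos (-(3 / 4) * L)).le
    linarith
  linarith

end Pool.Agent.MP_ca0a54_nt.P
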