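import Pool.Agent.MP_ca0a54_nt.P.Spec
import Pool.Agent.MP_ca0a54_nt.H10.QID
import Pool.Agent.MP_ca0a54_nt.H23.PF
import Pool.Agent.MP_ca0a54_nt.H91.SC

/-! Row SG: all residues have one sign. -/

open Complex MeasureTheory Filter Topology

namespace Pool.Agent.MP_ca0a54_nt.P

open Pool.Agent.MP_ca0a54_nt Pool.Agent.MP_ca0a54_nt.L0 Pool.Agent.MP_ca0a54_nt.H24
  Pool.Agent.MP_ca0a54_nt.H10

namespace SG

theorem pz_cons (ρ : ℂ) (B : Multiset ℂ) (w : ℂ) : pz (ρ ::ₘ B) w = (w - ρ) * pz B w := by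
  simp [pz]

theorem pz_add (A B : Multiset ℂ) (w : ℂ) : pz (A + B) w = pz A w * pz B w := by simp [pz]

theorem pz_real (U : Finset ℝ) (w : ℂ) :
    pz (U.val.map fun u : ℝ => (u : ℂ)) w = ∏ u ∈ U, (w - (u : ℂ)) := by
  rw [pz, Multiset.map_map]
  rfl

theorem pz_ne {B : Multiset ℂ} {w : ℂ} (h : w ∉ B) : pz B w ≠ 0 := by
  refine Multiset.prod_ne_zero fun h0 => ?_
  obtain ⟨ρ, h1, h2⟩ := Multiset.mem_map.1 h0
  exact h (sub_eq_zero.1 h2 ▸ h1)

theorem pz_diff (B : Multiset ℂ) : Differentiable ℂ (pz B) := by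
  induction B using Multiset.induction_on with
  | empty => exact differentiable_const (1 : ℂ)
  | cons ρ B ih =>
    rw [show pz (ρ ::ₘ B) = fun w => (w - ρ) * pz B w from funext (pz_cons ρ B)]
    fun_prop

theorem pz_conj {B : Multiset ℂ} (h : B.map (starRingEnd ℂ) = B) (w : ℂ) :
    (starRingEnd ℂ) (pz B w) = pz B ((starRingEnd ℂ) w) := by
  conv_rhs => rw [← h]
  simp only [pz, map_multiset_prod, Multiset.map_map, Function.comp_def, map_sub]

theorem pz_le {B : Multiset ℂ} {a : ℝ} {z : ℂ} (ha : 0 ≤ a) (h : ∀ ρ ∈ B, a ≤ ‖z + a - ρ‖) :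
    ‖pz B z‖ ≤ 2 ^ B.card * ‖pz B (z + a)‖ := by
  induction B using Multiset.induction_on with
  | empty => simp [pz]
  | cons ρ B ih =>
    have h1 := ih fun σ hσ => h σ (Multiset.mem_cons_of_mem hσ)
    have h2 := h ρ (Multiset.mem_cons_self _ _)
    have h3 : ‖z - ρ‖ ≤ 2 * ‖z + a - ρ‖ := by
      have h4 := norm_sub_le (z + a - ρ) (a : ℂ)
      rw [show z + a - ρ - a = z - ρ by ring, Complex.norm_real, Real.norm_of_nonneg ha] at h4
      linarith
    rw [pz_cons, pz_cons, norm_mul, norm_mul, Multiset.card_cons]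
    refine (mul_le_mul h3 h1 (norm_nonneg _) (by positivity)).trans (le_of_eq ?_)
    ring

theorem bd_W {B : Multiset ℂ} {a c : ℝ} {K K₁ : ℂ → ℂ} (ha : 0 < a) (hd : Differentiable ℂ K₁)
    (hK : ∀ z, K z = pz B (z + a) * K₁ z) (hb : Bd K (-c) c) :
    Bd (fun z => pz B z * K₁ z) (-c) c := by
  have h1 : Differentiable ℂ fun z => pz B z * K₁ z := (pz_diff B).mul hd
  obtain ⟨-, M, h0, hM⟩ := hb
  obtain ⟨R, hR⟩ := (B.finite_toSet.image fun ρ : ℂ => ‖ρ‖).bddAbove
  obtain ⟨M', hM'⟩ := (isCompact_closedBall (0 : ℂ) (R + 2 * a)).exists_bound_of_continuousOn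
    h1.continuous.continuousOn
  refine ⟨h1.differentiableOn, max M' (2 ^ B.card * M), le_max_of_le_right (by positivity),
    fun z hz => ?_⟩
  by_cases h2 : ‖z‖ ≤ R + 2 * a
  · exact le_max_of_le_left (hM' z (by simpa using h2))
  · refine le_max_of_le_right ?_
    have h3 := hM z hz
    rw [hK, norm_mul] at h3
    rw [norm_mul]
    refine (mul_le_mul_of_nonneg_right (pz_le ha.le fun ρ hρ => ?_) (norm_nonneg _)).trans ?_
    · have h4 : ‖ρ‖ ≤ R := hR ⟨ρ, hρ, rfl⟩
      have h5 := norm_add_le (z + a - ρ) (ρ - a)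
      have h6 := norm_sub_le ρ (a : ℂ)
      rw [show z + a - ρ + (ρ - a) = z by ring] at h5
      rw [Complex.norm_real, Real.norm_of_nonneg ha.le] at h6
      linarith
    · rw [mul_assoc]
      exact mul_le_mul_of_nonneg_left h3 (by positivity)

theorem re_eq {F : ℂ → ℂ} (h : ∀ z, (starRingEnd ℂ) (F z) = F ((starRingEnd ℂ) z)) (x : ℝ) :
    ((F x).re : ℂ) = F x := conj_eq_iff_re.1 (by rw [h, conj_ofReal])

theorem ratio_nonneg {f : ℝ → ℝ} (hf : Continuous f) {x y : ℝ} (hxy : x ≤ y)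
    (h : ∀ s, x ≤ s → s ≤ y → f s ≠ 0) : 0 ≤ f x / f y := by
  by_contra hc
  rcases div_neg_iff.1 (not_le.1 hc) with ⟨h1, h2⟩ | ⟨h1, h2⟩
  · obtain ⟨s, hs, e⟩ := intermediate_value_Icc' hxy hf.continuousOn ⟨h2.le, h1.le⟩
    exact h s hs.1 hs.2 e
  · obtain ⟨s, hs, e⟩ := intermediate_value_Icc hxy hf.continuousOn ⟨h1.le, h2.le⟩
    exact h s hs.1 hs.2 e

end SG

open SG in
theorem sg : SgStmt := by
  intro Z B U a c t K K₁ W ha hc hS hB hd hK bK bW cK cW pK pW
  have hW : Bd (fun z => pz B z * K₁ z * W z) (-c) c := (bd_W ha hd hK bK).mul bW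
  have hZ : Z.map (starRingEnd ℂ) = Z := by
    rw [hS.eq, Multiset.map_add, hS.sym, Multiset.map_map]
    simp
  have h1 := li_conj (F := fun z => vz Z a z * (K z * W z)) (fun z => by
    rw [map_mul, map_mul, cK, cW, vz, vz, map_div₀, pz_conj hZ, pz_conj hZ, map_add,
      conj_ofReal]) t c
  have h2 := sub_conj (li (fun z => vz Z a z * (K z * W z)) t (-c))
  have hl : ∀ γ : ℝ, |γ| = c → li (fun z => vz Z a z * (K z * W z)) t γ =
      li (fun z => rat 1 U (fun u => -bt U a u) (fun u => u - a) z * (pz B z * K₁ z * W z)) t γ := by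
    intro γ hγ
    unfold li
    congr 1
    funext x
    have e1 : ((x : ℂ) + γ * I).im = γ := by simp
    have e2 : ((x : ℂ) + γ * I).im ≠ 0 := by
      rw [e1, ← abs_pos, hγ]
      exact hc
    have e3 : pz B ((x : ℂ) + γ * I + a) ≠ 0 := pz_ne fun h => by
      have := hB _ h
      simp [hγ] at this
    dsimp only
    rw [← H23.vp_eq U a _ e2, vp, vz, hK, hS.eq, pz_add, pz_add, pz_real, pz_real]
    field_simp
  have hq : ∀ u ∈ U, ∃ q : ℝ, 0 ≤ q ∧ pz B (u - a : ℝ) * K₁ (u - a : ℝ) * W (u - a : ℝ) *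
      ga t (u - a : ℝ) = q := by
    intro u hu
    have e1 : ∀ s : ℝ, u - a ≤ s → s ≤ u → (pz B s).re ≠ 0 := fun s h3 h4 h5 =>
      pz_ne (hS.good u hu s h3 h4).1 (by rw [← re_eq (pz_conj hS.sym) s, h5, ofReal_zero])
    have e2 := ratio_nonneg (f := fun s : ℝ => (pz B s).re)
      (continuous_re.comp ((pz_diff B).continuous.comp continuous_ofReal)) (by linarith) e1
    have e3 : pz B u ≠ 0 := pz_ne (hS.good u hu u (by linarith) le_rfl).1
    refine ⟨(pz B (u - a : ℝ)).re / (pz B u).re * (K (u - a : ℝ)).re * (W (u - a : ℝ)).re *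
      Real.exp (-(u - a - t) ^ 2), mul_nonneg (mul_nonneg (mul_nonneg e2 (pK _)) (pW _))
        (Real.exp_pos _).le, ?_⟩
    rw [ofReal_mul, ofReal_mul, ofReal_mul, ofReal_div, re_eq (pz_conj hS.sym),
      re_eq (pz_conj hS.sym), re_eq cK, re_eq cW, hK, ga,
      show ((u - a : ℝ) : ℂ) + a = u by push_cast; ring]
    push_cast
    field_simp
  choose! q q0 q1 using hq
  have hb := (H23.pf U a ha fun u hu u' hu' hne => by
    by_contra h
    have h3 := abs_le.1 (not_lt.1 h)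
    rcases le_total u u' with h4 | h4
    · exact hne ((hS.good u' hu' u (by linarith [h3.1]) h4).2 hu)
    · exact hne ((hS.good u hu u' (by linarith [h3.2]) h4).2 hu').symm).1
  have h3 : li (fun z => vz Z a z * (K z * W z)) t (-c) - li (fun z => vz Z a z * (K z * W z)) t c =
      ((2 * (Real.pi * ∑ u ∈ U, -bt U a u * q u) : ℝ) : ℂ) * I := by
    rw [hl (-c) (by rw [abs_neg, abs_of_pos hc]), hl c (abs_of_pos hc),
      li_rat _ U _ _ (neg_ne_zero.2 hc.ne') (hW.mono le_rfl (by linarith)),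
      li_rat _ U _ _ hc.ne' (hW.mono (by linarith) le_rfl),
      li_shift H91.shift (by linarith : -c ≤ c) hW, add_sub_add_left_eq_sub,
      ← Finset.sum_sub_distrib, ofReal_mul, ofReal_mul, ofReal_sum, Finset.mul_sum, Finset.mul_sum,
      Finset.sum_mul]
    refine Finset.sum_congr rfl fun u hu => ?_
    rw [← mul_sub, li_pole H91.pole hc hW, q1 u hu]
    push_cast
    ring
  rw [h1, h3] at h2
  have h5 := ofReal_injective (mul_right_cancel₀ I_ne_zero h2)
  have h6 : ∑ u ∈ U, -bt U a u * q u ≤ 0 := Finset.sum_nonpos fun u hu =>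
    mul_nonpos_of_nonpos_of_nonneg (neg_nonpos.2 (hb u hu).le) (q0 u hu)
  have h7 := mul_nonpos_of_nonneg_of_nonpos Real.pi_pos.le h6
  linarith

end Pool.Agent.MP_ca0a54_nt.P
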