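import Pool.Agent.MP_ca0a54_nt.P.CORE
import Pool.Agent.MP_ca0a54_nt.P.ORD
import Pool.Agent.MP_ca0a54_nt.P.FAC
import Pool.Agent.MP_ca0a54_nt.P.CNT
import Pool.Agent.MP_ca0a54_nt.P.LST
import Pool.Agent.MP_ca0a54_nt.P.LIN
import Pool.Agent.MP_ca0a54_nt.P.QK
import Pool.Agent.MP_ca0a54_nt.P.SG
import Pool.Agent.MP_ca0a54_nt.P.AR3
import Pool.Agent.MP_ca0a54_nt.P.KER

/-!
A positive proportion of small gaps between zeta zeros: the assembly of the steps.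
-/

open Complex MeasureTheory Filter Topology

namespace Pool.Agent.MP_ca0a54_nt.P

theorem final_of (hA : AriStmt) (G J : ℕ) (y phi lam : ℝ) (sig : ℕ → ℝ) (zet : ℕ → ℂ)
    (hN : Num G J y phi sig zet) (h0 : 0 ≤ phi) (h1 : phi ≤ 2 / 5)
    (h2 : G * y < Real.pi + 2 * phi) (h3 : Real.pi + 2 * phi < lam * (2 * Real.pi)) :
    (∃ gam, Listing gam) ∧ ∃ c : ℝ, 0 < c ∧ ∃ T0 : ℝ, ∀ T : ℝ, T0 ≤ T →
      ∀ gam : ℕ → ℝ, Listing gam → ∃ S : Finset ℕ, c * T * Real.log T ≤ S.card ∧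
        ∀ n ∈ S, T ≤ gam n ∧ gam (n + 1) ≤ 2 * T ∧
          gam (n + 1) - gam n < lam * (2 * Real.pi / Real.log T) := by
  refine ⟨lst ord, ?_⟩
  obtain ⟨C, hC, hF⟩ := fac ord
  obtain ⟨c, hc, hcore⟩ :=
    core lin qk sg trig ar3 phi (G * y) h0 h1 h2 (hA G J y phi sig zet hN) C hC
  have hlog : ∀ᶠ T : ℝ in atTop, lam * (2 * Real.pi) ≤ Real.log T :=
    Real.tendsto_log_atTop.eventually_ge_atTop _
  have hall := (hF.and hcore).and (hlog.and (eventually_ge_atTop (100 : ℝ)))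
  obtain ⟨T0, hT0⟩ := eventually_atTop.1 hall
  refine ⟨c / 2, by positivity, T0, fun T hT gam hg => ?_⟩
  obtain ⟨⟨⟨Z, h, hZ⟩, hco⟩, hl, h100⟩ := hT0 T hT
  have hL : 0 < Real.log T := Real.log_pos (by linarith)
  have hpi := Real.pi_pos
  have ha : 0 < (Real.pi + 2 * phi) / Real.log T := by positivity
  have hg1 : lam * (2 * Real.pi / Real.log T) = lam * (2 * Real.pi) / Real.log T := by ring
  have hag : (Real.pi + 2 * phi) / Real.log T < lam * (2 * Real.pi / Real.log T) := by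
    rw [hg1]
    exact div_lt_div_of_pos_right h3 hL
  have hgl : lam * (2 * Real.pi / Real.log T) ≤ 1 := by
    rw [hg1, div_le_one hL]
    exact hl
  obtain ⟨U, B, S, hS, hB, hn⟩ := cnt ord gam hg C T _ _ Z h h100 ha hag hgl hZ
  refine ⟨S, ?_, hn⟩
  have h4 := hco Z B h U hZ hS
  have h5 : (B.card : ℝ) ≤ 2 * S.card := by exact_mod_cast hB
  linarith

end Pool.Agent.MP_ca0a54_nt.P
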