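import Pool.Agent.MP_ca0a54_nt.P.NumB

/-! Row NUM: the numerical data. -/

open Complex

namespace Pool.Agent.MP_ca0a54_nt.P

open NumA

/-- The numbers `ζ_j`. -/
noncomputable def zet (j : ℕ) : ℂ :=
  2 * (((data.getD (j - 1) 0).1 : ℂ) + (data.getD (j - 1) 0).2 * I) / (998001 : ℕ)

theorem Qp_cast (x : ℚ) : ((Qp x : ℚ) : ℝ) = Qp (x : ℝ) := by
  unfold Qp
  push_cast
  rfl

theorem num : Num 200 100 (339279 / 20000000) (157 / 1250) (fun j => (NumA.sq j : ℝ)) zet := by
  refine ⟨by norm_num, fun j h1 h2 => ?_, ?_⟩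
  · obtain ⟨i, rfl⟩ : ∃ i, j = i + 1 := ⟨j - 1, by omega⟩
    obtain ⟨a1, a2⟩ := chk2 i (by omega)
    have b1 : (0 : ℝ) < (NumA.sq (i + 1) : ℝ) := by exact_mod_cast a1
    refine ⟨b1, ?_, ?_⟩
    · have e : (NumA.sq (i + 1) : ℝ) = (Qp (((i + 1 : ℕ) : ℝ) * (339279 / 20000000)) -
          Qp ((((i + 1 : ℕ) : ℝ) - 1) * (339279 / 20000000))) * (999999 / 1000000) := by
        unfold NumA.sq
        rw [Rat.cast_mul, Rat.cast_sub, Qp_cast, Qp_cast]
        push_cast
        rfl
      rw [e] at b1 ⊢
      linarith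
    · have e1 : (zet (i + 1)).re = 2 * ((data.getD i 0).1 : ℝ) / 998001 := by
        unfold zet
        rw [Nat.add_sub_cancel, div_natCast_re]
        simp
      have e2 : (zet (i + 1)).im = 2 * ((data.getD i 0).2 : ℝ) / 998001 := by
        unfold zet
        rw [Nat.add_sub_cancel, div_natCast_im]
        simp
      rw [e1, e2]
      exact_mod_cast a2
  · have h := chk
    rw [fN_eq] at h
    generalize 999 ^ 200 * oddF 200 = S at h
    obtain ⟨r, g1, g2⟩ := ol_spec 200 998001 (by norm_num) test (S : ℂ)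
      (fun j c => zet j ^ c / (c.factorial : ℂ)) data 0 (rep2 S 201)
      (fun i c _ => by
        unfold zet
        rw [show 0 + 1 + i - 1 = i by omega])
      (rep2_spec S 201).1 (fun u hu => by rw [(rep2_spec S 201).2 u (by omega), FF, mul_one]) h
    have g3 := g2 0 (by norm_num)
    rw [data_len, zero_add] at g3
    generalize FF 200 (fun j c => zet j ^ c / (c.factorial : ℂ)) 100 0 = M at g3 ⊢
    clear g2 h
    cases r with
    | nil => exact absurd g1 (by simp [test])
    | cons x y t =>
      have h1 : 1000000 * x < 125104 * y := Nat.blt_eq.mp g1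
      have h2 : (1000000 : ℝ) * x < 125104 * y := by exact_mod_cast h1
      rw [v2] at g3
      have h3 := congrArg re g3
      have h4 := congrArg im g3
      simp only [sub_re, natCast_re, mul_re, I_re, mul_zero, natCast_im, I_im, mul_one, sub_self,
        sub_zero, zero_mul, sub_im, mul_im, add_zero, zero_sub] at h3 h4
      have hx : (0 : ℝ) ≤ x := Nat.cast_nonneg x
      have hy : (0 : ℝ) < y := by linarith
      have hS0 : (0 : ℝ) ≤ S := Nat.cast_nonneg S
      have e : (exp (-I * ((157 / 1250 : ℝ) : ℂ)) * M).re =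
          Real.cos (157 / 1250) * M.re + Real.sin (157 / 1250) * M.im := by
        rw [show -I * ((157 / 1250 : ℝ) : ℂ) = ((-(157 / 1250) : ℝ) : ℂ) * I by push_cast; ring,
          mul_re, exp_ofReal_mul_I_re, exp_ofReal_mul_I_im, Real.cos_neg, Real.sin_neg]
        ring
      have s1 := Real.sin_gt_sub_cube (x := 157 / 1250) (by norm_num)
      have s2 : (125104 / 1000000 : ℝ) ≤ Real.sin (157 / 1250) := le_trans (by norm_num) s1.le
      have s3 := Real.cos_le_one (157 / 1250)
      rw [e]
      by_contra hn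
      have h5 : 0 ≤ S * (Real.cos (157 / 1250) * M.re + Real.sin (157 / 1250) * M.im) :=
        mul_nonneg hS0 (by linarith)
      have h6 : S * (Real.cos (157 / 1250) * M.re + Real.sin (157 / 1250) * M.im) =
          Real.cos (157 / 1250) * x - Real.sin (157 / 1250) * y := by
        rw [h3]
        linear_combination (-Real.sin (157 / 1250)) * h4
      have h7 := mul_le_mul_of_nonneg_right s2 hy.le
      have h8 := mul_le_mul_of_nonneg_right s3 hx
      linarith

end Pool.Agent.MP_ca0a54_nt.P
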