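import Pool.Agent.MP_ca0a54_nt.P.Spec

/-! Row NUM, part a: a program for the exact evaluation of `FF`. -/

open Complex

namespace Pool.Agent.MP_ca0a54_nt.P.NumA

/-- Lists of numbers `x - i y`. -/
inductive L2 where
  | nil : L2
  | cons (x y : ℕ) (t : L2) : L2

/-- Lists of numbers `a - b + i (c - d)`. -/
inductive L4 where
  | nil : L4
  | cons (a b c d : ℕ) (t : L4) : L4

/-- Evaluate `n` before passing it on. -/
noncomputable def fN (n : ℕ) (k : ℕ → Bool) : Bool := Nat.rec (k 0) (fun m _ => k m.succ) n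

/-- Evaluate `x` before passing it on. -/
noncomputable def fI (x : ℤ) (k : ℤ → Bool) : Bool :=
  Int.rec (fun n => fN n fun m => k (Int.ofNat m)) (fun n => fN n fun m => k (Int.negSucc m)) x

/-- Evaluate `l` before passing it on. -/
noncomputable def fL (l : L2) (k : L2 → Bool) : Bool :=
  L2.rec (k L2.nil) (fun x y t _ => k (L2.cons x y t)) l

/-- Drop the first entries. -/
noncomputable def drop (n : ℕ) : L2 → L2 :=
  Nat.rec (fun l => l) (fun _ ih l => L2.rec L2.nil (fun _ _ t _ => ih t) l) n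

/-- A constant list. -/
noncomputable def rep2 (x : ℕ) (n : ℕ) : L2 := Nat.rec L2.nil (fun _ ih => L2.cons x 0 ih) n

/-- The zero list. -/
noncomputable def rep4 (n : ℕ) : L4 := Nat.rec L4.nil (fun _ ih => L4.cons 0 0 0 0 ih) n

/-- Add `(p - n - i q) X_u` to `A_u` for the indices `u` of the last list. -/
noncomputable def am (p n q : ℕ) (A : L4) : L2 → L2 → L4 :=
  L4.rec (motive := fun _ => L2 → L2 → L4) (fun _ _ => L4.nil)
    (fun a b c d t ih X Y => L2.rec (L4.cons a b c d t) (fun _ _ Y' _ =>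
      L2.rec (L4.cons a b c d t) (fun x y X' _ =>
        L4.cons (Nat.add a (Nat.mul p x)) (Nat.add b (Nat.add (Nat.mul n x) (Nat.mul q y)))
          (Nat.add c (Nat.mul n y)) (Nat.add d (Nat.add (Nat.mul q x) (Nat.mul p y)))
          (ih X' Y')) X) Y) A

/-- The weight `2 ^ c m / (c! D ^ c)`. -/
def wt (D m c : ℕ) : ℕ := 2 ^ c * m / (c.factorial * D ^ c)

/-- The loop over the multiplicity `c`. -/
noncomputable def cl (j D m : ℕ) (a b : ℤ) (k : L4 → Bool) : ℕ → ℕ → ℤ → ℤ → L2 → L4 → Bool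
  | 0, _, _, _, _, A => k A
  | n + 1, c, p, q, r, A => fL (drop j r) fun r' => fN (wt D m c) fun w =>
      fN (p.toNat * w) fun p₁ => fN ((-p).toNat * w) fun p₂ => fN ((-q).toNat * w) fun q₁ =>
      fI (p * a - q * b) fun p' => fI (p * b + q * a) fun q' => fN (c + 1) fun c' =>
      (decide (q ≤ 0) && Nat.beq (w * (c.factorial * D ^ c)) (2 ^ c * m)) &&
        cl j D m a b k n c' p' q' r' (am p₁ p₂ q₁ A r (Nat.rec r (fun _ _ => r') c))

/-- Exact division of all entries. -/
noncomputable def dv (m : ℕ) (A : L4) : (L2 → Bool) → Bool :=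
  L4.rec (motive := fun _ => (L2 → Bool) → Bool) (fun k => k L2.nil)
    (fun a b c d _ ih k => fN a fun a => fN b fun b => fN c fun c => fN d fun d =>
      fN (Nat.div (Nat.sub a b) m) fun x => fN (Nat.div (Nat.sub d c) m) fun y =>
      (Nat.beq a (Nat.add b (Nat.mul m x)) && Nat.beq d (Nat.add c (Nat.mul m y))) &&
        ih fun r => k (L2.cons x y r)) A

/-- The odd part of `K!`. -/
def oddF (K : ℕ) : ℕ := K.factorial / Nat.gcd K.factorial (2 ^ K)

/-- One mode. -/
noncomputable def step (G D j : ℕ) (z : ℤ × ℤ) (r : L2) (k : L2 → Bool) : Bool :=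
  fN (G / j - 1) fun K => fN (D ^ K * oddF K) fun m => Nat.blt 0 m &&
    cl j D m z.1 z.2 (fun A => dv m A k) (K + 1) 0 1 0 r (rep4 (G + 1))

/-- All modes. -/
noncomputable def ol (G D : ℕ) (k : L2 → Bool) : List (ℤ × ℤ) → ℕ → L2 → Bool
  | [], _, r => k r
  | z :: zs, j, r => step G D j z r fun r' => fN (j + 1) fun j' => ol G D k zs j' r'

/-- Half the numerators of the `ζ_j`. -/
def data : List (ℤ × ℤ) :=
  [(1390608, -9990), (899790, -13920), (547559, -14018), (371770, -13666), (275476, -13340),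
   (220150, -13185), (185606, -13162), (161457, -13188), (142782, -13203), (127322, -13182),
   (114097, -13119), (102748, -13030), (93013, -12927), (84721, -12823), (77632, -12723),
   (71539, -12630), (66223, -12540), (61530, -12451), (57329, -12360), (53547, -12267),
   (50119, -12172), (47016, -12077), (44204, -11984), (41663, -11895), (39366, -11811),
   (37280, -11731), (35367, -11654), (33600, -11577), (31954, -11500), (30412, -11421),
   (28953, -11339), (27571, -11253), (26256, -11163), (25012, -11071), (23859, -10983),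
   (22798, -10901), (21817, -10824), (20915, -10753), (20077, -10686), (19300, -10624),
   (18570, -10565), (17882, -10507), (17227, -10449), (16602, -10391), (15999, -10331),
   (15418, -10270), (14855, -10207), (14315, -10144), (13796, -10080), (13302, -10017),
   (12640, -9890), (12005, -9762), (11394, -9633), (10815, -9507), (10266, -9383), (9746, -9261),
   (9253, -9143), (8789, -9028), (8345, -8915), (7924, -8804), (7519, -8694), (7129, -8583),
   (6750, -8471), (6382, -8358), (6020, -8242), (5667, -8123), (5320, -8001), (5170, -7981),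
   (4930, -7908), (4786, -7884), (4555, -7809), (4414, -7783), (4193, -7707), (4054, -7677),
   (3841, -7599), (3707, -7566), (3503, -7487), (3372, -7452), (3179, -7373), (3052, -7335),
   (2868, -7256), (2745, -7217), (2571, -7139), (2454, -7098), (2290, -7022), (2177, -6980),
   (2022, -6905), (1915, -6863), (1769, -6789), (1667, -6746), (1530, -6674), (1432, -6630),
   (1302, -6559), (1208, -6515), (1083, -6443), (993, -6398), (874, -6326), (787, -6280),
   (670, -6206), (587, -6159)]

/-- The final test. -/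
noncomputable def test (r : L2) : Bool :=
  L2.rec false (fun x y _ _ => Nat.blt (1000000 * x) (125104 * y)) r

theorem fN_eq (n : ℕ) (k : ℕ → Bool) : fN n k = k n := by cases n <;> rfl

theorem fI_eq (x : ℤ) (k : ℤ → Bool) : fI x k = k x := by
  cases x with
  | ofNat n => exact fN_eq n fun m => k (Int.ofNat m)
  | negSucc n => exact fN_eq n fun m => k (Int.negSucc m)

theorem fL_eq (l : L2) (k : L2 → Bool) : fL l k = k l := by cases l <;> rfl

/-- The values. -/
noncomputable def v2 : L2 → ℕ → ℂ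
  | L2.nil, _ => 0
  | L2.cons x y _, 0 => x - y * I
  | L2.cons _ _ t, u + 1 => v2 t u

/-- The length. -/
def l2 : L2 → ℕ
  | L2.nil => 0
  | L2.cons _ _ t => l2 t + 1

/-- The values. -/
noncomputable def v4 : L4 → ℕ → ℂ
  | L4.nil, _ => 0
  | L4.cons a b c d _, 0 => a - b + (c - d) * I
  | L4.cons _ _ _ _ t, u + 1 => v4 t u

/-- The length. -/
def l4 : L4 → ℕ
  | L4.nil => 0
  | L4.cons _ _ _ _ t => l4 t + 1

theorem drop_spec (n : ℕ) : ∀ l : L2, l2 (drop n l) = l2 l - n ∧ ∀ u, v2 (drop n l) u = v2 l (u + n) := by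
  induction n with
  | zero => exact fun l => ⟨rfl, fun _ => rfl⟩
  | succ n ih =>
    intro l
    cases l with
    | nil => exact ⟨by simp [drop, l2], fun u => by simp [drop, v2]⟩
    | cons x y t =>
      have h : drop (n + 1) (L2.cons x y t) = drop n t := rfl
      rw [h]
      exact ⟨by rw [(ih t).1, l2]; omega, fun u => by rw [(ih t).2, ← add_assoc, v2]⟩

theorem rep2_spec (x n : ℕ) : l2 (rep2 x n) = n ∧ ∀ u < n, v2 (rep2 x n) u = x := by
  induction n with
  | zero => exact ⟨rfl, fun _ h => absurd h (by omega)⟩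
  | succ n ih =>
    have h : rep2 x (n + 1) = L2.cons x 0 (rep2 x n) := rfl
    rw [h]
    refine ⟨by rw [l2, ih.1], fun u hu => ?_⟩
    cases u with
    | zero => simp [v2]
    | succ u => rw [v2]; exact ih.2 u (by omega)

theorem rep4_spec (n : ℕ) : l4 (rep4 n) = n ∧ ∀ u, v4 (rep4 n) u = 0 := by
  induction n with
  | zero => exact ⟨rfl, fun _ => rfl⟩
  | succ n ih =>
    have h : rep4 (n + 1) = L4.cons 0 0 0 0 (rep4 n) := rfl
    rw [h]
    refine ⟨by rw [l4, ih.1], fun u => ?_⟩
    cases u with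
    | zero => simp [v4]
    | succ u => rw [v4]; exact ih.2 u

theorem am_spec (p n q : ℕ) (A : L4) : ∀ X Y : L2, l2 Y ≤ l4 A → l4 (am p n q A X Y) = l4 A ∧
    ∀ u, v4 (am p n q A X Y) u =
      v4 A u + if u < l2 Y then ((p : ℂ) - n - q * I) * v2 X u else 0 := by
  induction A with
  | nil =>
    intro X Y h
    refine ⟨rfl, fun u => ?_⟩
    rw [if_neg (by rw [l4] at h; omega), add_zero]
    rfl
  | cons a b c d t ih =>
    intro X Y h
    cases Y with
    | nil => exact ⟨rfl, fun u => by rw [if_neg (by simp [l2]), add_zero]; rfl⟩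
    | cons y₁ y₂ Y =>
      cases X with
      | nil => exact ⟨rfl, fun u => by simp only [v2, mul_zero, ite_self, add_zero]; rfl⟩
      | cons x y X =>
        have e : am p n q (L4.cons a b c d t) (L2.cons x y X) (L2.cons y₁ y₂ Y) =
            L4.cons (a + p * x) (b + (n * x + q * y)) (c + n * y) (d + (q * x + p * y))
              (am p n q t X Y) := rfl
        rw [l2, l4] at h
        obtain ⟨h1, h2⟩ := ih X Y (by omega)
        rw [e]
        refine ⟨by rw [l4, l4, h1], fun u => ?_⟩
        cases u with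
        | zero =>
          rw [if_pos (by simp [l2])]
          simp only [v4, v2]
          push_cast
          linear_combination (-(q : ℂ) * y) * I_mul_I
        | succ u =>
          simp only [v4, v2, l2, h2, add_lt_add_iff_right]

theorem dv_spec (m : ℕ) (A : L4) : ∀ k : L2 → Bool, dv m A k = true →
    ∃ r, k r = true ∧ l2 r = l4 A ∧ ∀ u, v4 A u = m * v2 r u := by
  induction A with
  | nil => exact fun k h => ⟨L2.nil, h, rfl, fun u => by simp [v4, v2]⟩
  | cons a b c d t ih =>
    intro k h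
    have e : dv m (L4.cons a b c d t) k = fN a fun a => fN b fun b => fN c fun c => fN d fun d =>
        fN ((a - b) / m) fun x => fN ((d - c) / m) fun y =>
        (Nat.beq a (b + m * x) && Nat.beq d (c + m * y)) &&
          dv m t fun r => k (L2.cons x y r) := rfl
    rw [e] at h
    simp only [fN_eq, Bool.and_eq_true, Nat.beq_eq] at h
    obtain ⟨⟨h1, h2⟩, h3⟩ := h
    obtain ⟨r, g1, g2, g3⟩ := ih _ h3
    refine ⟨_, g1, by rw [l2, l4, g2], fun u => ?_⟩
    cases u with
    | zero =>
      generalize (a - b) / m = x at h1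
      generalize (d - c) / m = y at h2
      subst h1 h2
      simp only [v4, v2]
      push_cast
      ring
    | succ u => simp only [v4, v2, g3]

theorem toNat_cast (p q : ℤ) (w : ℕ) (hq : q ≤ 0) :
    ((p.toNat * w : ℕ) : ℂ) - ((-p).toNat * w : ℕ) - ((-q).toNat * w : ℕ) * I =
      w * ((p : ℂ) + q * I) := by
  have h1 : ((p.toNat : ℤ) : ℂ) - (((-p).toNat : ℤ) : ℂ) = p := by
    rw [← Int.cast_sub, Int.toNat_sub_toNat_neg]
  have h2 : (((-q).toNat : ℤ) : ℂ) = -q := by
    rw [Int.toNat_of_nonneg (by omega), Int.cast_neg]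
  rw [Int.cast_natCast, Int.cast_natCast] at h1
  rw [Int.cast_natCast] at h2
  push_cast
  rw [h2, ← h1]
  ring

theorem cl_spec (G j D m : ℕ) (hD : D ≠ 0) (a b : ℤ) (k : L4 → Bool) (r₀ : L2) (n : ℕ) :
    ∀ (c : ℕ) (p q : ℤ) (r : L2) (A : L4), (p : ℂ) + q * I = ((a : ℂ) + b * I) ^ c →
    l2 r = G + 1 - c * j → (∀ u, v2 r u = v2 r₀ (u + c * j)) → l4 A = G + 1 →
    cl j D m a b k n c p q r A = true → ∃ A', k A' = true ∧ l4 A' = G + 1 ∧ ∀ u ≤ G,
      v4 A' u = v4 A u + ∑ i ∈ Finset.Ico c (c + n), if i = 0 ∨ u + (i + 1) * j ≤ G then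
        m * ((2 * ((a : ℂ) + b * I) / D) ^ i / (i.factorial : ℂ)) * v2 r₀ (u + i * j) else 0 := by
  induction n with
  | zero => exact fun c p q r A _ _ _ hA h => ⟨A, h, hA, fun u _ => by simp⟩
  | succ n ih =>
    intro c p q r A hp hl hv hA h
    rw [cl] at h
    simp only [fN_eq, fI_eq, fL_eq, Bool.and_eq_true, Nat.beq_eq, decide_eq_true_eq] at h
    obtain ⟨⟨hq, hw⟩, h⟩ := h
    obtain ⟨d1, d2⟩ := drop_spec j r
    set Y : L2 := Nat.rec r (fun _ _ => drop j r) c with hY
    have hlY : l2 Y = if c = 0 then G + 1 else G + 1 - (c + 1) * j := by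
      cases c with
      | zero =>
        rw [if_pos rfl]
        show l2 r = _
        simpa using hl
      | succ c =>
        rw [if_neg (by omega)]
        show l2 (drop j r) = _
        rw [d1, hl, Nat.sub_sub, ← add_one_mul]
    obtain ⟨a1, a2⟩ := am_spec (p.toNat * wt D m c) ((-p).toNat * wt D m c)
      ((-q).toNat * wt D m c) A r Y (by rw [hlY, hA]; split_ifs <;> omega)
    obtain ⟨A', g1, g2, g3⟩ := ih (c + 1) _ _ _ _
      (by rw [pow_succ, ← hp]; push_cast; linear_combination (-(q : ℂ) * b) * I_mul_I)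
      (by rw [d1, hl, Nat.sub_sub, ← add_one_mul])
      (fun u => by rw [d2, hv, add_one_mul]; congr 1; ring) (a1.trans hA) h
    refine ⟨A', g1, g2, fun u hu => ?_⟩
    rw [g3 u hu, a2, Finset.sum_eq_sum_Ico_succ_bot (by omega : c < c + (n + 1)),
      show c + (n + 1) = c + 1 + n by ring, add_assoc, toNat_cast p q _ hq, hp, hv]
    congr 2
    have e1 : u < l2 Y ↔ c = 0 ∨ u + (c + 1) * j ≤ G := by
      rw [hlY]
      split_ifs with h0
      · simp only [h0, true_or, iff_true]; omega
      · simp only [h0, false_or]; omega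
    have e2 : (wt D m c : ℂ) * ((a : ℂ) + b * I) ^ c =
        m * ((2 * ((a : ℂ) + b * I) / D) ^ c / (c.factorial : ℂ)) := by
      have h1 : (wt D m c : ℂ) * ((c.factorial : ℂ) * (D : ℂ) ^ c) = 2 ^ c * m := by
        exact_mod_cast congrArg (Nat.cast : ℕ → ℂ) hw
      have h2 : (c.factorial : ℂ) ≠ 0 := Nat.cast_ne_zero.2 c.factorial_ne_zero
      have h3 : (D : ℂ) ^ c ≠ 0 := pow_ne_zero _ (Nat.cast_ne_zero.2 hD)
      rw [div_pow, mul_pow]
      field_simp
      linear_combination ((a : ℂ) + b * I) ^ c * h1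
    simp only [e1, e2]

theorem step_spec (G D j : ℕ) (hD : D ≠ 0) (z : ℤ × ℤ) (r : L2) (k : L2 → Bool) (S : ℂ)
    (e : ℕ → ℕ → ℂ) (he : ∀ c, e (j + 1) c = (2 * ((z.1 : ℂ) + z.2 * I) / D) ^ c / c.factorial)
    (hl : l2 r = G + 1) (hv : ∀ u ≤ G, v2 r u = S * FF G e j u)
    (h : step G D (j + 1) z r k = true) :
    ∃ r', k r' = true ∧ l2 r' = G + 1 ∧ ∀ u ≤ G, v2 r' u = S * FF G e (j + 1) u := by
  rw [step] at h
  simp only [fN_eq, Bool.and_eq_true, Nat.blt_eq] at h
  obtain ⟨hm, h⟩ := h
  set K := G / (j + 1) - 1 with hK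
  set m := D ^ K * oddF K
  obtain ⟨A, g1, g2, g3⟩ := cl_spec G (j + 1) D m hD z.1 z.2 _ r (K + 1) 0 1 0 r _ (by simp)
    (by simpa using hl) (fun u => by simp) (rep4_spec (G + 1)).1 h
  obtain ⟨r', f1, f2, f3⟩ := dv_spec m A k g1
  refine ⟨r', f1, f2.trans g2, fun u hu => ?_⟩
  have hm' : (m : ℂ) ≠ 0 := Nat.cast_ne_zero.2 hm.ne'
  refine mul_left_cancel₀ hm' ?_
  have hKG : K ≤ G := le_trans (Nat.sub_le _ _) (Nat.div_le_self _ _)
  rw [← f3, g3 u hu, (rep4_spec (G + 1)).2, zero_add, zero_add, ← Finset.range_eq_Ico, FF,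
    Finset.mul_sum, Finset.mul_sum]
  rw [← Finset.sum_subset (Finset.range_mono (by omega : K + 1 ≤ G + 1))]
  · refine Finset.sum_congr rfl fun i _ => ?_
    split_ifs with hc
    · rw [hv _ (by rcases hc with rfl | hc <;> nlinarith), he]
      ring
    · simp
  · intro i _ hi
    rw [Finset.mem_range] at hi
    rw [if_neg, mul_zero, mul_zero]
    rintro (rfl | hc)
    · omega
    · have : i + 1 ≤ G / (j + 1) := (Nat.le_div_iff_mul_le (by omega)).2 (by omega)
      omega

theorem ol_spec (G D : ℕ) (hD : D ≠ 0) (k : L2 → Bool) (S : ℂ) (e : ℕ → ℕ → ℂ)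
    (zs : List (ℤ × ℤ)) : ∀ (j : ℕ) (r : L2), (∀ i c, i < zs.length → e (j + 1 + i) c =
      (2 * (((zs.getD i 0).1 : ℂ) + (zs.getD i 0).2 * I) / D) ^ c / c.factorial) →
    l2 r = G + 1 → (∀ u ≤ G, v2 r u = S * FF G e j u) → ol G D k zs (j + 1) r = true →
    ∃ r', k r' = true ∧ ∀ u ≤ G, v2 r' u = S * FF G e (j + zs.length) u := by
  induction zs with
  | nil => exact fun j r _ _ hv h => ⟨r, h, hv⟩
  | cons z zs ih =>
    intro j r he hl hv h
    rw [ol] at h
    obtain ⟨r', g1, g2, g3⟩ := step_spec G D j hD z r _ S e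
      (fun c => by simpa using he 0 c (by simp)) hl hv h
    rw [fN_eq] at g1
    obtain ⟨r'', f1, f2⟩ := ih (j + 1) r' (fun i c hi => by
      have := he (i + 1) c (by simpa using hi)
      rw [show j + 1 + 1 + i = j + 1 + (i + 1) by ring, this]
      simp) g2 g3 g1
    exact ⟨r'', f1, fun u hu => by rw [f2 u hu, List.length_cons]; congr 2; ring⟩

end Pool.Agent.MP_ca0a54_nt.P.NumA
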