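import Pool.Agent.MP_ca0a54_nt.P.NumA

/-! Row NUM, part b: the kernel runs the program. -/

namespace Pool.Agent.MP_ca0a54_nt.P.NumA

theorem chk : (fN (999 ^ 200 * oddF 200) fun S =>
    ol 200 998001 test data 1 (rep2 S 201)) = true := by
  decide +kernel

/-- The lower bounds for the weights of the modes. -/
def sq (j : ℕ) : ℚ :=
  (Qp ((j : ℚ) * (339279 / 20000000)) - Qp (((j : ℚ) - 1) * (339279 / 20000000))) *
    (999999 / 1000000)

theorem chk2 : ∀ i < 100, 0 < sq (i + 1) ∧
    (2 * ((data.getD i 0).2 : ℚ) / 998001) ^ 2 ≤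
      sq (i + 1) * (2 * ((data.getD i 0).1 : ℚ) / 998001) + sq (i + 1) ^ 2 / 4 := by
  decide +kernel

theorem data_len : data.length = 100 := by decide +kernel

end Pool.Agent.MP_ca0a54_nt.P.NumA
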