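import Pool.Agent.MP_ca0a54_nt.P.Spec

/-! Row SET: the sum over admissible sets, mode by mode. -/

namespace Pool.Agent.MP_ca0a54_nt.P

namespace SET

theorem FF_congr {G : ℕ} {e e' : ℕ → ℕ → ℂ} :
    ∀ (J : ℕ), (∀ j, j ≤ J → e j = e' j) → ∀ u, FF G e J u = FF G e' J u
  | 0, _, _ => rfl
  | J + 1, h, u => by
    unfold FF
    refine Finset.sum_congr rfl fun c _ => ?_
    rw [h (J + 1) le_rfl, FF_congr J (fun j hj => h j (hj.trans (Nat.le_succ J)))]

theorem sum_split (P : Finset ℕ) (q : ℕ → Prop) [DecidablePred q] (f : Finset ℕ → ℂ) :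
    ∑ A ∈ P.powerset, f A = ∑ A₁ ∈ (P.filter q).powerset,
      ∑ A₀ ∈ (P.filter fun p => ¬ q p).powerset, f (A₁ ∪ A₀) := by
  rw [← Finset.sum_product']
  refine Finset.sum_nbij' (fun A => (A.filter q, A.filter fun p => ¬ q p)) (fun B => B.1 ∪ B.2)
    (fun A hA => ?_) (fun B hB => ?_) (fun A _ => ?_) (fun B hB => ?_) (fun A _ => ?_)
  · rw [Finset.mem_powerset] at hA
    rw [Finset.mem_product, Finset.mem_powerset, Finset.mem_powerset]
    exact ⟨Finset.filter_subset_filter _ hA, Finset.filter_subset_filter _ hA⟩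
  · rw [Finset.mem_product, Finset.mem_powerset, Finset.mem_powerset] at hB
    rw [Finset.mem_powerset]
    exact Finset.union_subset (hB.1.trans (Finset.filter_subset _ _))
      (hB.2.trans (Finset.filter_subset _ _))
  · exact Finset.filter_union_filter_not_eq q A
  · rw [Finset.mem_product, Finset.mem_powerset, Finset.mem_powerset] at hB
    have h1 : ∀ p ∈ B.1, q p := fun p hp => (Finset.mem_filter.1 (hB.1 hp)).2
    have h0 : ∀ p ∈ B.2, ¬ q p := fun p hp => (Finset.mem_filter.1 (hB.2 hp)).2
    refine Prod.ext ?_ ?_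
    · ext p
      simp only [Finset.mem_filter, Finset.mem_union]
      exact ⟨fun h => h.1.resolve_right fun h' => h0 p h' h.2, fun h => ⟨Or.inl h, h1 p h⟩⟩
    · ext p
      simp only [Finset.mem_filter, Finset.mem_union]
      exact ⟨fun h => h.1.resolve_left fun h' => h.2 (h1 p h'), fun h => ⟨Or.inr h, h0 p h⟩⟩
  · rw [Finset.filter_union_filter_not_eq q A]

theorem adm_union {G J u : ℕ} {md : ℕ → ℕ} {A₁ A₀ : Finset ℕ} (h1 : ∀ p ∈ A₁, md p = J + 1)
    (h0 : ∀ p ∈ A₀, md p ≤ J) :
    adm G md u (A₁ ∪ A₀) ↔ (A₁.card = 0 ∨ u + (A₁.card + 1) * (J + 1) ≤ G) ∧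
      adm G md (u + A₁.card * (J + 1)) A₀ := by
  have hd : Disjoint A₁ A₀ := Finset.disjoint_left.2 fun p hp hp' => by
    have := h1 p hp
    have := h0 p hp'
    omega
  have hs : ∑ q ∈ A₁, md q = A₁.card * (J + 1) := by
    rw [Finset.sum_congr rfl h1, Finset.sum_const, smul_eq_mul]
  have key : ∀ p, md p ≤ J + 1 → ∑ q ∈ (A₁ ∪ A₀).filter (fun q => md p ≤ md q), md q =
      A₁.card * (J + 1) + ∑ q ∈ A₀.filter (fun q => md p ≤ md q), md q := fun p hp => by
    rw [Finset.filter_union, Finset.sum_union (Finset.disjoint_filter_filter hd),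
      Finset.filter_true_of_mem fun q hq => hp.trans (h1 q hq).ge, hs]
  have key1 : ∀ p ∈ A₁, ∑ q ∈ (A₁ ∪ A₀).filter (fun q => md p ≤ md q), md q =
      A₁.card * (J + 1) := fun p hp => by
    rw [key p (h1 p hp).le, Finset.filter_false_of_mem fun q hq => by
      have := h1 p hp
      have := h0 q hq
      omega, Finset.sum_empty, add_zero]
  constructor
  · intro h
    constructor
    · rcases A₁.eq_empty_or_nonempty with rfl | ⟨p, hp⟩
      · exact Or.inl rfl
      · have := h p (Finset.mem_union_left _ hp)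
        rw [key1 p hp, h1 p hp] at this
        right
        rwa [add_mul, one_mul, ← add_assoc]
    · intro p hp
      have := h p (Finset.mem_union_right _ hp)
      rwa [key p ((h0 p hp).trans (Nat.le_succ J)), ← add_assoc] at this
  · rintro ⟨ha, hb⟩ p hp
    rcases Finset.mem_union.1 hp with hp | hp
    · rw [key1 p hp, h1 p hp]
      rcases ha with ha | ha
      · rw [Finset.card_eq_zero] at ha
        rw [ha] at hp
        exact absurd hp (Finset.notMem_empty p)
      · rwa [add_mul, one_mul, ← add_assoc] at ha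
    · rw [key p ((h0 p hp).trans (Nat.le_succ J)), ← add_assoc]
      exact hb p hp

theorem sum_card (S : Finset ℕ) (x : ℕ → ℂ) (G : ℕ) (g : ℕ → ℂ) (hg : ∀ c, G < c → g c = 0) :
    ∑ A ∈ S.powerset, (∏ p ∈ A, x p) * g A.card =
      ∑ c ∈ Finset.range (G + 1), es S x c * g c := by
  have h : ∀ c, es S x c * g c =
      ∑ A ∈ S.powerset, if A.card = c then (∏ p ∈ A, x p) * g A.card else 0 := fun c => by
    rw [es, Finset.powersetCard_eq_filter, Finset.sum_mul, Finset.sum_filter]
    refine Finset.sum_congr rfl fun A _ => ?_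
    split_ifs with h
    · rw [h]
    · rfl
  simp only [h]
  rw [Finset.sum_comm]
  refine Finset.sum_congr rfl fun A _ => ?_
  rw [Finset.sum_ite_eq]
  split_ifs with h
  · rfl
  · rw [hg _ (by simpa using h), mul_zero]

theorem main (G : ℕ) (md : ℕ → ℕ) (x : ℕ → ℂ) : ∀ (J u : ℕ) (P : Finset ℕ),
    (∀ p ∈ P, 1 ≤ md p ∧ md p ≤ J) →
    ∑ A ∈ P.powerset.filter (adm G md u), ∏ p ∈ A, x p =
      FF G (fun j c => es (P.filter fun p => md p = j) x c) J u
  | 0, u, P, h => by
    have hP : P = ∅ := Finset.eq_empty_of_forall_notMem fun p hp => by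
      have := h p hp
      omega
    subst hP
    rw [Finset.powerset_empty, Finset.filter_true_of_mem fun A hA p hp => by
      rw [Finset.mem_singleton.1 hA] at hp
      exact absurd hp (Finset.notMem_empty p)]
    simp [FF]
  | J + 1, u, P, h => by
    have h0 : ∀ p ∈ P.filter (fun p => ¬ md p = J + 1), 1 ≤ md p ∧ md p ≤ J := fun p hp => by
      rw [Finset.mem_filter] at hp
      have := h p hp.1
      omega
    have ih : ∀ v, ∑ A ∈ (P.filter fun p => ¬ md p = J + 1).powerset.filter (adm G md v),
        ∏ p ∈ A, x p = FF G (fun j c => es (P.filter fun p => md p = j) x c) J v := fun v => by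
      rw [main G md x J v _ h0]
      refine FF_congr J (fun j hj => ?_) v
      funext c
      rw [Finset.filter_filter]
      congr 1
      exact Finset.filter_congr fun p _ => by omega
    have hc := sum_card (P.filter fun p => md p = J + 1) x G
      (fun c => if c = 0 ∨ u + (c + 1) * (J + 1) ≤ G then
        FF G (fun j c => es (P.filter fun p => md p = j) x c) J (u + c * (J + 1)) else 0)
      fun c hc => if_neg (by
        rintro (h | h)
        · omega
        · nlinarith [Nat.zero_le u, Nat.zero_le ((c + 1) * J)])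
    unfold FF
    simp only [mul_ite, mul_zero] at hc
    rw [← hc, Finset.sum_filter, sum_split P fun p => md p = J + 1]
    refine Finset.sum_congr rfl fun A₁ hA₁ => ?_
    rw [Finset.mem_powerset] at hA₁
    have h1 : ∀ p ∈ A₁, md p = J + 1 := fun p hp => (Finset.mem_filter.1 (hA₁ hp)).2
    have h2 : ∀ A₀ ∈ (P.filter fun p => ¬ md p = J + 1).powerset, ∀ p ∈ A₀, md p ≤ J :=
      fun A₀ hA₀ p hp => (h0 p (Finset.mem_powerset.1 hA₀ hp)).2
    split_ifs with hc
    · rw [← ih, Finset.sum_filter, Finset.mul_sum]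
      refine Finset.sum_congr rfl fun A₀ hA₀ => ?_
      have hd : Disjoint A₁ A₀ := Finset.disjoint_left.2 fun p hp hp' => by
        have := h1 p hp
        have := h2 A₀ hA₀ p hp'
        omega
      simp only [adm_union h1 (h2 A₀ hA₀), hc, true_and]
      rw [Finset.prod_union hd, mul_ite, mul_zero]
    · refine Finset.sum_eq_zero fun A₀ hA₀ => if_neg fun h3 => hc ?_
      exact ((adm_union h1 (h2 A₀ hA₀)).1 h3).1

end SET

theorem set : SetStmt := by
  intro G md
  refine ⟨fun u A A' hA h p hp => le_trans ?_ (h p (hA hp)), fun A h => ?_,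
    fun J u P x h => SET.main G md x J u P h⟩
  · exact Nat.add_le_add_right (Nat.add_le_add_left
      (Finset.sum_le_sum_of_subset (Finset.filter_subset_filter _ hA)) u) _
  · rcases A.eq_empty_or_nonempty with rfl | hA
    · simp
    · obtain ⟨p, hp, hm⟩ := A.exists_min_image md hA
      have := h p hp
      rw [Finset.filter_true_of_mem hm] at this
      omega

end Pool.Agent.MP_ca0a54_nt.P
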