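import Pool.Agent.MP_ca0a54_nt.H10.QB

/-!
A positive proportion of small gaps between zeta zeros: definitions and the statements of the
steps. `L` always means `Real.log T`.
-/

open Complex MeasureTheory Filter Topology

namespace Pool.Agent.MP_ca0a54_nt.P

open Pool.Agent.MP_ca0a54_nt.L0 Pool.Agent.MP_ca0a54_nt.H24 Pool.Agent.MP_ca0a54_nt.H10

/-! ### Zeros with multiplicity -/

/-- `∏_{ρ ∈ Z} (w - ρ)`. -/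
noncomputable def pz (Z : Multiset ℂ) (w : ℂ) : ℂ := (Z.map fun ρ => w - ρ).prod

/-- `p(w) / p(w + a)`. -/
noncomputable def vz (Z : Multiset ℂ) (a : ℝ) (w : ℂ) : ℂ := pz Z w / pz Z (w + a)

/-- The centre `3 T / 2`. -/
noncomputable def ctr (T : ℝ) : ℂ := ((3 * T / 2 : ℝ) : ℂ)

/-- `Z` is the multiset of the zeros of `zf` in the closed disc of radius `T / 8`, and on the disc
of radius `T / 16` the rest of `zf` is `exp h` with `h'` almost constant. -/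
structure FacM (C T : ℝ) (Z : Multiset ℂ) (h : ℂ → ℂ) : Prop where
  loc : ∀ ρ ∈ Z, ‖ρ - ctr T‖ ≤ T / 8 ∧ |ρ.im| ≤ 1 / 2
  cnt : ∀ ρ : ℂ, ‖ρ - ctr T‖ ≤ T / 8 → Z.count ρ = analyticOrderNatAt zf ρ
  sym : Z.map (starRingEnd ℂ) = Z
  card : (Z.card : ℝ) ≤ C * T * Real.log T
  diff : DifferentiableOn ℂ h (Metric.ball (ctr T) (T / 16))
  fac : ∀ w ∈ Metric.ball (ctr T) (T / 16), zf w = pz Z w * exp (h w)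
  d1 : ∀ w ∈ Metric.ball (ctr T) (T / 16), ‖deriv h w‖ ≤ C * Real.log T
  d2 : ∀ w ∈ Metric.ball (ctr T) (T / 16), ∀ w' ∈ Metric.ball (ctr T) (T / 16),
    ‖deriv h w - deriv h w'‖ ≤ C * Real.log T / T * ‖w - w'‖

/-- `Z` splits into the good real points `U` and the bad points `B`. -/
structure Split (Z : Multiset ℂ) (a : ℝ) (U : Finset ℝ) (B : Multiset ℂ) : Prop where
  eq : Z = U.val.map (fun u : ℝ => (u : ℂ)) + B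
  sym : B.map (starRingEnd ℂ) = B
  good : ∀ u ∈ U, ∀ x : ℝ, u - a ≤ x → x ≤ u → (x : ℂ) ∉ B ∧ (x ∈ U → x = u)

/-- The number of zeros of `ζ` with ordinate `x`, counted with multiplicity. -/
noncomputable def mult (x : ℝ) : ℕ :=
  ∑ᶠ ρ ∈ {ρ : ℂ | ρ.im = x}, analyticOrderNatAt riemannZeta ρ

/-- `γ` lists the positive ordinates of the zeros of `ζ` in non-decreasing order, with
multiplicity. -/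
def Listing (γ : ℕ → ℝ) : Prop :=
  Monotone γ ∧ (∀ n, 0 < γ n) ∧ ∀ x : ℝ, 0 < x → {n | γ n = x}.encard = (mult x : ℕ∞)

/-- Row ORD. -/
def OrdStmt : Prop := ∀ w : ℂ, 0 < w.re →
  analyticOrderNatAt zf ((starRingEnd ℂ) w) = analyticOrderNatAt zf w ∧
  analyticOrderNatAt zf w = analyticOrderNatAt riemannZeta (1 / 2 + I * w) ∧
  (zf w = 0 → |w.im| ≤ 1 / 2 ∧ 1 ≤ analyticOrderNatAt zf w) ∧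
  (Function.support (fun ρ : ℂ => analyticOrderNatAt riemannZeta ρ) ∩
    {ρ : ℂ | ρ.im = w.re}).Finite

/-- Row FAC. -/
def FacStmt : Prop := ∃ C : ℝ, 1 ≤ C ∧ ∀ᶠ T : ℝ in atTop, ∃ (Z : Multiset ℂ) (h : ℂ → ℂ),
  FacM C T Z h

/-- Row CNT. -/
def CntStmt : Prop := ∀ γ : ℕ → ℝ, Listing γ →
  ∀ (C T a g : ℝ) (Z : Multiset ℂ) (h : ℂ → ℂ), 100 ≤ T → 0 < a → a < g → g ≤ 1 → FacM C T Z h →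
  ∃ (U : Finset ℝ) (B : Multiset ℂ) (S : Finset ℕ), Split Z a U B ∧ B.card ≤ 2 * S.card ∧
    ∀ n ∈ S, T ≤ γ n ∧ γ (n + 1) ≤ 2 * T ∧ γ (n + 1) - γ n < g

/-- Row LST. -/
def LstStmt : Prop := ∃ γ : ℕ → ℝ, Listing γ

/-! ### The contour argument -/

/-- On the line `im z = -(1/2 + ε/8)` the function `V` is close to a Dirichlet series. -/
structure AppM (T ε t : ℝ) (V : ℂ → ℂ) (d : ℕ → ℂ) : Prop where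
  bd : Bd V (-(1 / 2 + ε / 8)) (-(1 / 2 + ε / 8))
  hd : ∀ n : ℕ, ‖d n‖ ≤ Real.log T ^ 2 * Real.exp (ε / 16 * Real.log n)
  app : ∀ x : ℝ, ‖V (x - (1 / 2 + ε / 8 : ℝ) * I) -
    LSeries d (1 / 2 + I * (x - (1 / 2 + ε / 8 : ℝ) * I))‖ ≤
      Real.log T ^ 3 / T * Real.exp ((x - t) ^ 2 / 4)

/-- Row LIN. -/
def LinStmt : Prop := ∀ C : ℝ, 1 ≤ C → ∃ C' : ℝ, 1 ≤ C' ∧ ∀ ε : ℝ, 0 < ε → ε ≤ 1 / 2 →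
  ∀ᶠ T : ℝ in atTop, ∀ (a t : ℝ) (Z : Multiset ℂ) (h : ℂ → ℂ), 0 < a → a ≤ 4 / Real.log T →
  FacM C T Z h → |t - 3 * T / 2| ≤ T / 40 →
  ∃ ϑ : ℂ, 1 / C' ≤ ‖ϑ‖ ∧ ‖ϑ‖ ≤ C' ∧
    ‖ϑ - ‖ϑ‖ * exp (-I * (a * Real.log T / 2 : ℝ))‖ ≤ C' / Real.log T ∧
    AppM T ε t (vz Z a) fun n => ϑ * rc 0 (I * a) n

/-- Row QK. -/
def QkStmt : Prop := ∀ ε : ℝ, 0 < ε → ε ≤ 1 / 2 → ∀ᶠ T : ℝ in atTop,
  ∀ (N N₂ : ℕ), 1 ≤ N → (N : ℝ) ≤ T ^ (1 - ε) →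
  Real.log N + ε * Real.log T / 4 ≤ Real.log N₂ →
  ∀ (t : ℝ) (V K : ℂ → ℂ) (d r : ℕ → ℂ), (∀ n, ‖r n‖ ≤ 1) → Differentiable ℂ K →
    (∀ z, ‖K z‖ ≤ Real.exp (ε * Real.log T / 16 * |z.im|)) → AppM T ε t V d →
    ‖li (fun z => V z * (K z * (dp r N z * Rs r N z))) t (-(1 / 2 + ε / 8)) -
      ∫ x : ℝ, dp (cv d (cut r N)) N₂ (t + x : ℝ) * (starRingEnd ℂ) (dp r N (t + x : ℝ)) *
        K (t + x : ℝ) * (Real.exp (-x ^ 2) : ℝ)‖ ≤ T ^ (-(ε / 2))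

/-- Row SG: all residues have one sign. -/
def SgStmt : Prop := ∀ (Z B : Multiset ℂ) (U : Finset ℝ) (a c t : ℝ) (K K₁ W : ℂ → ℂ),
  0 < a → 0 < c → Split Z a U B → (∀ ρ ∈ B, |ρ.im| < c) → Differentiable ℂ K₁ →
  (∀ z, K z = pz B (z + a) * K₁ z) → Bd K (-c) c → Bd W (-c) c →
  (∀ z, (starRingEnd ℂ) (K z) = K ((starRingEnd ℂ) z)) →
  (∀ z, (starRingEnd ℂ) (W z) = W ((starRingEnd ℂ) z)) →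
  (∀ x : ℝ, 0 ≤ (K x).re) → (∀ x : ℝ, 0 ≤ (W x).re) →
  (li (fun z => vz Z a z * (K z * W z)) t (-c)).im ≤ 0

/-- Row KER: a non-negative trigonometric polynomial with prescribed zeros and mean near `1`. -/
def TrigStmt : Prop := ∀ (B : Multiset ℂ) (X : ℝ) (n : ℕ), 0 < X → 0 < n →
  ∃ K K₁ : ℂ → ℂ, Differentiable ℂ K₁ ∧ (∀ z, K z = pz B z * K₁ z) ∧
    (∀ z, (starRingEnd ℂ) (K z) = K ((starRingEnd ℂ) z)) ∧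
    (∀ z, ‖K z‖ ≤ Real.exp (2 * Real.pi * n / X * |z.im|)) ∧ (∀ x : ℝ, 0 ≤ (K x).re) ∧
    ∀ x₀ : ℝ, ∫ x in x₀..(x₀ + X), (1 - (K x).re) ≤ X * B.card / n

/-- Row AR3. -/
def Ar3Stmt : Prop := ∃ C : ℝ, 1 ≤ C ∧ ∀ (L ab W : ℝ) (N M : ℕ) (r : ℕ → ℂ), 1 ≤ L → 0 ≤ ab →
  ab ≤ 4 → Real.log M ≤ L → (∀ n, ‖r n‖ ≤ 1) → ∑ n ∈ Finset.Icc 1 N, ‖r n‖ ^ 2 / n ≤ W →
  (∀ n ≤ M, ‖cv (rc 0 (I * (ab / L : ℝ))) (cut r N) n‖ ≤ C) ∧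
    ∑ n ∈ Finset.Icc 1 M, ‖cv (rc 0 (I * (ab / L : ℝ))) (cut r N) n‖ ^ 2 / n ≤ C * W

/-- The arithmetic input: a Dirichlet polynomial of length `exp (Y / a)` with a main term of the
wrong sign and a uniformly integrable square. -/
def Arith (φ Y : ℝ) : Prop := ∃ μ W : ℝ, 0 < μ ∧ ∀ δ : ℝ, 0 < δ → ∃ C : ℝ,
  ∀ᶠ a : ℝ in 𝓝[>] 0, ∃ (r : ℕ → ℂ) (N : ℕ), 1 ≤ N ∧ Real.log N ≤ Y / a ∧ (∀ n, ‖r n‖ ≤ 1) ∧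
    ∑ n ∈ Finset.Icc 1 N, ‖r n‖ ^ 2 / n ≤ W ∧
    μ ≤ -(exp (-I * φ) * ∑ n ∈ Finset.Icc 1 N,
      cv (rc 0 (I * a)) (cut r N) n * (starRingEnd ℂ) (r n) / n).re ∧
    ∀ t₁ t₂ : ℝ, N * (1 + Real.log N) ≤ t₂ - t₁ →
      ∫ t in t₁..t₂, max (‖dp r N t‖ ^ 2 - C) 0 ≤ δ * (t₂ - t₁)

/-- Row CORE: many bad points. -/
def CoreStmt : Prop := ∀ φ Y : ℝ, 0 ≤ φ → φ ≤ 2 / 5 → Y < Real.pi + 2 * φ → Arith φ Y →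
  ∀ C : ℝ, 1 ≤ C → ∃ c : ℝ, 0 < c ∧ ∀ᶠ T : ℝ in atTop,
  ∀ (Z B : Multiset ℂ) (h : ℂ → ℂ) (U : Finset ℝ), FacM C T Z h →
  Split Z ((Real.pi + 2 * φ) / Real.log T) U B → c * T * Real.log T ≤ B.card

/-! ### The arithmetic -/

/-- The sum over admissible multiplicities of the modes `j, j - 1, …, 1`. -/
def FF {R : Type} [CommSemiring R] (G : ℕ) (e : ℕ → ℕ → R) : ℕ → ℕ → R
  | 0, _ => 1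
  | j + 1, u => ∑ c ∈ Finset.range (G + 1), if c = 0 ∨ u + (c + 1) * (j + 1) ≤ G then
      e (j + 1) c * FF G e j (u + c * (j + 1)) else 0

/-- The sum of all monomials of weight at most `G`. -/
def Psi (G : ℕ) (d : ℕ → ℝ) : ℕ → ℕ → ℝ
  | 0, _ => 1
  | j + 1, u => ∑ c ∈ Finset.range (G + 1), if u + c * (j + 1) ≤ G then
      d (j + 1) ^ (2 * c) * Psi G d j (u + c * (j + 1)) else 0

/-- The elementary symmetric function. -/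
def es {R : Type} [CommSemiring R] (S : Finset ℕ) (x : ℕ → R) (c : ℕ) : R :=
  ∑ A ∈ S.powersetCard c, ∏ p ∈ A, x p

/-- Admissible sets. -/
def adm (G : ℕ) (md : ℕ → ℕ) (u : ℕ) (A : Finset ℕ) : Prop :=
  ∀ p ∈ A, u + ∑ q ∈ A.filter (fun q => md p ≤ md q), md q + md p ≤ G

instance (G : ℕ) (md : ℕ → ℕ) (u : ℕ) : DecidablePred (adm G md u) := fun A => by
  unfold adm
  infer_instance

/-- Row SET. -/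
def SetStmt : Prop := ∀ (G : ℕ) (md : ℕ → ℕ),
  (∀ (u : ℕ) (A A' : Finset ℕ), A' ⊆ A → adm G md u A → adm G md u A') ∧
  (∀ A : Finset ℕ, adm G md 0 A → ∑ q ∈ A, md q ≤ G) ∧
  ∀ (J u : ℕ) (P : Finset ℕ) (x : ℕ → ℂ), (∀ p ∈ P, 1 ≤ md p ∧ md p ≤ J) →
    ∑ A ∈ P.powerset.filter (adm G md u), ∏ p ∈ A, x p =
      FF G (fun j c => es (P.filter fun p => md p = j) x c) J u

/-- Row DIR. -/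
def DirStmt : Prop := ∀ (F : Finset (Finset ℕ)) (ρ b : ℕ → ℂ) (N : ℕ) (Γ : ℝ), 0 ≤ Γ →
  (∀ A ∈ F, (∀ p ∈ A, p.Prime) ∧ ∏ p ∈ A, p ≤ N ∧ ∏ p ∈ A, ‖ρ p‖ ≤ Γ ∧ ∀ A' ⊆ A, A' ∈ F) →
  b 1 = 1 → (∀ m n : ℕ, m.Coprime n → b (m * n) = b m * b n) →
  ∃ r : ℕ → ℂ, (∀ n, ‖r n‖ ≤ Γ) ∧
    (∀ w : ℂ, dp r N w = ∑ A ∈ F, ∏ p ∈ A, ρ p * np (1 / 2 + I * w) p) ∧
    ∑ n ∈ Finset.Icc 1 N, ‖r n‖ ^ 2 / n = ∑ A ∈ F, ∏ p ∈ A, ‖ρ p‖ ^ 2 / p ∧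
    ∑ n ∈ Finset.Icc 1 N, cv b (cut r N) n * (starRingEnd ℂ) (r n) / n =
      ∑ A ∈ F, ∏ p ∈ A, (b p + ρ p) * (starRingEnd ℂ) (ρ p) / p

/-- Row ES. -/
def EsStmt : Prop :=
  (∀ (G : ℕ) (A : ℝ), ∃ K : ℝ, 1 ≤ K ∧ ∀ (S : Finset ℕ) (x : ℕ → ℂ), ∑ p ∈ S, ‖x p‖ ^ 2 ≤ A →
    ∀ c ≤ G, ‖es S x c‖ ≤ K * max 1 ‖∑ p ∈ S, x p‖ ^ c) ∧
  ∀ (S : Finset ℕ) (w : ℕ → ℝ) (μ : ℝ) (ζ : ℂ), (∀ p ∈ S, 0 ≤ w p ∧ w p ≤ μ) →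
    ∑ p ∈ S, w p = 1 → ∀ c : ℕ,
    ‖es S (fun p => ζ * (w p : ℂ)) c - ζ ^ c / (c.factorial : ℂ)‖ ≤ ‖ζ‖ ^ c * (c ^ 2 * μ)

/-- Row UI. -/
def UiStmt : Prop := ∀ (G J : ℕ) (K δ : ℝ), 1 ≤ K → 0 < δ → ∃ C : ℝ,
  ∀ (e : ℕ → ℕ → ℂ) (d : ℕ → ℝ), (∀ j, 0 ≤ d j) →
  (∀ j c, 1 ≤ j → j ≤ J → c ≤ G → ‖e j c‖ ≤ K * max 1 (d j) ^ c) →
  ‖FF G e J 0‖ ^ 2 ≤ δ * Psi G d J 0 + C

/-- Row MOM. -/
def MomStmt : Prop := ∀ (G J : ℕ) (Γ : ℝ), ∃ C : ℝ, 0 < C ∧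
  ∀ (S : ℕ → Finset ℕ) (ρ : ℕ → ℂ) (ℓ t₁ t₂ : ℝ) (N : ℕ), 0 ≤ ℓ → 1 ≤ N →
  (∀ j, ∀ p ∈ S j, p.Prime ∧ Real.log p ≤ j * ℓ ∧ ‖ρ p‖ ≤ Γ) →
  (∀ j, ∑ p ∈ S j, ‖ρ p‖ ^ 2 / p ≤ Γ) → ⌊Real.exp (G * ℓ)⌋₊ ≤ N →
  N * (1 + Real.log N) ≤ t₂ - t₁ →
  (Continuous fun t : ℝ => Psi G (fun j => ‖ds ρ (S j) t‖) J 0) ∧
    ∫ t in t₁..t₂, Psi G (fun j => ‖ds ρ (S j) t‖) J 0 ≤ C * (t₂ - t₁)

/-- A lower bound for the integral of `2 (1 - cos x) / x`. -/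
def Qp {R : Type} [Field R] (x : R) : R :=
  x ^ 2 / 2 - x ^ 4 / 48 + x ^ 6 / 2160 - x ^ 8 / 161280

/-- The primes with `x₀ < a log p ≤ x₁`. -/
noncomputable def prs (a x₀ x₁ : ℝ) : Finset ℕ :=
  (Finset.Icc 1 ⌊Real.exp (x₁ / a)⌋₊).filter fun p => p.Prime ∧ x₀ < a * Real.log p

/-- Row MER. -/
def MerStmt : Prop :=
  (∀ x₀ x₁ σ : ℝ, 0 ≤ x₀ → x₀ < x₁ → σ < Qp x₁ - Qp x₀ → ∀ᶠ a : ℝ in 𝓝[>] 0,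
    σ ≤ ∑ p ∈ prs a x₀ x₁, 2 * (1 - Real.cos (a * Real.log p)) / p) ∧
  ∀ x₁ : ℝ, 0 < x₁ → ∃ C : ℝ, ∀ᶠ a : ℝ in 𝓝[>] 0,
    ∑ p ∈ prs a 0 x₁, 2 * (1 - Real.cos (a * Real.log p)) / p ≤ C

/-- The numerical data. -/
structure Num (G J : ℕ) (y φ : ℝ) (σ : ℕ → ℝ) (ζ : ℕ → ℂ) : Prop where
  hy : 0 < y
  hσ : ∀ j, 1 ≤ j → j ≤ J → 0 < σ j ∧ σ j < Qp (j * y) - Qp ((j - 1 : ℝ) * y) ∧
    (ζ j).im ^ 2 ≤ σ j * (ζ j).re + σ j ^ 2 / 4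
  pos : 0 < -(exp (-I * φ) * FF G (fun j c => ζ j ^ c / (c.factorial : ℂ)) J 0).re

/-- Row ARI. -/
def AriStmt : Prop := ∀ (G J : ℕ) (y φ : ℝ) (σ : ℕ → ℝ) (ζ : ℕ → ℂ), Num G J y φ σ ζ →
  Arith φ (G * y)

end Pool.Agent.MP_ca0a54_nt.P
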